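import Pool.Agent.Y911.AA.Final

/-! Oesterlé's inequality for almost all abc triples of all heights: assembly. -/

set_option autoImplicit false

namespace Pool.Agent.Y911.AA

open Filter Topology Pool.Agent.Results.MP_1ea25c_nt.AlmostAllTriples

theorem triples_finite' (X : ℝ) : (triples X).Finite := by
  rcases le_or_gt 1 X with h | h
  · exact triples_finite h
  · have : triples X = ∅ := by
      rw [Set.eq_empty_iff_forall_notMem]
      intro p hp
      have h1 : (rad3 p : ℝ) ≤ X := hp.2.2.2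
      have h2 := rad3_one (p := p)
      linarith
    rw [this]
    exact Set.finite_empty

/-- the radical of `abc` is less than `c ^ 3` -/
theorem rad3_lt {X : ℝ} {p : ℕ × ℕ} (hp : p ∈ triples X) : rad3 p < (p.1 + p.2) ^ 3 := by
  obtain ⟨h1, h2, h3, -⟩ := hp
  have h4 : rad3 p ≤ p.1 * p.2 * (p.1 + p.2) :=
    Nat.le_of_dvd (by have : 0 < p.2 := by omega
                      positivity) (Nat.prod_primeFactors_dvd _)
  have h5 : p.1 * p.2 * (p.1 + p.2) < (p.1 + p.2) ^ 3 := by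
    have h6 : p.1 * p.2 < (p.1 + p.2) * (p.1 + p.2) :=
      Nat.mul_lt_mul_of_lt_of_le (by omega) (by omega) (by omega)
    calc p.1 * p.2 * (p.1 + p.2) < (p.1 + p.2) * (p.1 + p.2) * (p.1 + p.2) :=
          Nat.mul_lt_mul_of_pos_right h6 (by omega)
      _ = _ := by ring
  omega

/-- **The number of all triples.** -/
theorem main : ∃ κ : ℝ, 0 < κ ∧
    Tendsto (fun X : ℝ => ((triples X).ncard : ℝ) / X ^ ((2 : ℝ) / 3)) atTop (𝓝 κ) ∧
    ∀ M : ℝ, 1 / 3 < M → ∃ ν C : ℝ, 0 < ν ∧ 0 < C ∧ ∀ X : ℝ, 1 ≤ X →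
      ((viol M X).ncard : ℝ) ≤ C * X ^ (2 / 3 - ν) := by
  obtain ⟨κ, hκ, h1, -⟩ := Pool.Agent.TH498.AR.final
  refine ⟨κ, hκ, ?_, fun M hM => ?_⟩
  · obtain ⟨ν, C, hν, -, hC, h2⟩ := saving (ε := 2 / 3) (by norm_num)
    refine Pool.Agent.TH498.AR.same_limit
      (A := fun X => Pool.Agent.TH498.AR.RR 1 X) (B := triples)
      (fun X => (Pool.Agent.TH498.AR.TT_finite X (X ^ (1 : ℝ))).subset
        (Pool.Agent.TH498.AR.RR_sub one_pos)) triples_finite' (C := C) (δ := ν) hν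
      (h1 1 (by norm_num)) fun X hX => ⟨?_, ?_⟩
    · have : Pool.Agent.TH498.AR.RR 1 X \ triples X = ∅ := by
        rw [Set.sdiff_eq_empty]
        rintro p ⟨a1, a2, a3, a4, -⟩
        exact ⟨a1, a2, a3, a4⟩
      rw [this, Set.ncard_empty]
      push_cast
      positivity
    · have hsub : triples X \ Pool.Agent.TH498.AR.RR 1 X ⊆ viol (1 / 3 + 2 / 3) X := by
        rintro p ⟨hp1, hp2⟩
        refine ⟨hp1, ?_⟩
        by_contra hcon
        rw [not_le] at hcon
        refine hp2 ⟨hp1.1, hp1.2.1, hp1.2.2.1, hp1.2.2.2, ?_⟩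
        rw [show (1 : ℝ) / 3 + 2 / 3 = 1 by norm_num] at hcon
        exact hcon
      refine le_trans ?_ (h2 X hX)
      exact_mod_cast Set.ncard_le_ncard hsub ((triples_finite' X).subset fun p hp => hp.1)
  · obtain ⟨ν, C, hν, -, hC, h2⟩ := saving (ε := M - 1 / 3) (by linarith)
    rw [show (1 : ℝ) / 3 + (M - 1 / 3) = M by ring] at h2
    exact ⟨ν, C, hν, hC, h2⟩

end Pool.Agent.Y911.AA
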