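import Mathlib

/-! Choosing subsets of a finite set of primes by their logarithms and weights. -/

set_option autoImplicit false

namespace Pool.Agent.Y911.AA

open Finset

/-- the greedy choice: for every budget `ω < w(P)` there is `D ⊆ P` with `w(D) ≤ ω` and
`r(D) ≥ ω r(P) / w(P) - θ` -/
theorem greedy {ι : Type*} [DecidableEq ι] (r w : ι → ℝ) (θ ω : ℝ) (hω : 0 ≤ ω) :
    ∀ (n : ℕ) (P : Finset ι), P.card = n → (∀ p ∈ P, 0 ≤ r p ∧ r p ≤ θ ∧ 0 ≤ w p) →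
      ω < ∑ p ∈ P, w p → ∃ D ⊆ P, ∑ p ∈ D, w p ≤ ω ∧
        ω * ∑ p ∈ P, r p ≤ (∑ p ∈ D, r p + θ) * ∑ p ∈ P, w p := by
  intro n
  induction n with
  | zero =>
    intro P hP _ h
    rw [Finset.card_eq_zero] at hP
    rw [hP, Finset.sum_empty] at h
    linarith
  | succ n ih =>
    intro P hP hP0 h
    -- the element of least ratio
    have hne : (P.filter fun p => 0 < w p).Nonempty := by
      by_contra hcon
      rw [Finset.not_nonempty_iff_eq_empty, Finset.filter_eq_empty_iff] at hcon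
      have : ∑ p ∈ P, w p ≤ 0 := Finset.sum_nonpos fun p hp => not_lt.1 (hcon hp)
      linarith
    obtain ⟨q, hq, hmin⟩ := Finset.exists_min_image (P.filter fun p => 0 < w p)
      (fun p => r p / w p) hne
    rw [Finset.mem_filter] at hq
    obtain ⟨hqP, hwq⟩ := hq
    have hqr := hP0 q hqP
    have hcross : ∀ p ∈ P, r q * w p ≤ r p * w q := by
      intro p hp
      rcases (hP0 p hp).2.2.lt_or_eq with h1 | h1
      · have h2 := hmin p (Finset.mem_filter.2 ⟨hp, h1⟩)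
        rwa [div_le_div_iff₀ hwq h1] at h2
      · rw [← h1, mul_zero]
        exact mul_nonneg (hP0 p hp).1 hwq.le
    have hsum : r q * ∑ p ∈ P, w p ≤ (∑ p ∈ P, r p) * w q := by
      rw [Finset.mul_sum, Finset.sum_mul]
      exact Finset.sum_le_sum hcross
    have hr' : ∑ p ∈ P.erase q, r p = ∑ p ∈ P, r p - r q := by
      rw [← Finset.add_sum_erase P r hqP]; ring
    have hw' : ∑ p ∈ P.erase q, w p = ∑ p ∈ P, w p - w q := by
      rw [← Finset.add_sum_erase P w hqP]; ring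
    have hrP : 0 ≤ ∑ p ∈ P, r p := Finset.sum_nonneg fun p hp => (hP0 p hp).1
    have hwP : 0 < ∑ p ∈ P, w p := lt_of_le_of_lt hω h
    rcases le_or_gt (∑ p ∈ P.erase q, w p) ω with h1 | h1
    · refine ⟨P.erase q, Finset.erase_subset _ _, h1, ?_⟩
      have h2 : ∑ p ∈ P, r p ≤ ∑ p ∈ P.erase q, r p + θ := by
        rw [hr']; linarith [hqr.2.1]
      calc ω * ∑ p ∈ P, r p ≤ (∑ p ∈ P, w p) * ∑ p ∈ P, r p :=
            mul_le_mul_of_nonneg_right h.le hrP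
        _ = (∑ p ∈ P, r p) * ∑ p ∈ P, w p := mul_comm _ _
        _ ≤ _ := mul_le_mul_of_nonneg_right h2 hwP.le
    · obtain ⟨D, hD, hDw, hDr⟩ := ih (P.erase q)
        (by rw [Finset.card_erase_of_mem hqP, hP]; rfl)
        (fun p hp => hP0 p (Finset.mem_of_mem_erase hp)) h1
      refine ⟨D, hD.trans (Finset.erase_subset _ _), hDw, ?_⟩
      have hwP' : 0 < ∑ p ∈ P.erase q, w p := lt_of_le_of_lt hω h1
      -- `r(P') w(P) ≥ r(P) w(P')`
      have h3 : (∑ p ∈ P, r p) * ∑ p ∈ P.erase q, w p ≤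
          (∑ p ∈ P.erase q, r p) * ∑ p ∈ P, w p := by
        rw [hr', hw']; nlinarith
      have h4 : (ω * ∑ p ∈ P, r p) * ∑ p ∈ P.erase q, w p ≤
          ((∑ p ∈ D, r p + θ) * ∑ p ∈ P, w p) * ∑ p ∈ P.erase q, w p := by
        calc (ω * ∑ p ∈ P, r p) * ∑ p ∈ P.erase q, w p =
            ω * ((∑ p ∈ P, r p) * ∑ p ∈ P.erase q, w p) := by ring
          _ ≤ ω * ((∑ p ∈ P.erase q, r p) * ∑ p ∈ P, w p) := mul_le_mul_of_nonneg_left h3 hω
          _ = (ω * ∑ p ∈ P.erase q, r p) * ∑ p ∈ P, w p := by ring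
          _ ≤ ((∑ p ∈ D, r p + θ) * ∑ p ∈ P.erase q, w p) * ∑ p ∈ P, w p :=
              mul_le_mul_of_nonneg_right hDr hwP.le
          _ = _ := by ring
      exact le_of_mul_le_mul_right h4 hwP'

/-- a subset with prescribed sum -/
theorem exists_sum {ι : Type*} [DecidableEq ι] (r : ι → ℝ) (θ s : ℝ) (P : Finset ι)
    (hP : ∀ p ∈ P, r p ≤ θ) (hθ : 0 ≤ θ) (hs : s ≤ ∑ p ∈ P, r p) (hs0 : 0 ≤ s) :
    ∃ D ⊆ P, s ≤ ∑ p ∈ D, r p ∧ ∑ p ∈ D, r p ≤ s + θ := by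
  induction P using Finset.induction_on with
  | empty =>
    rw [Finset.sum_empty] at hs
    exact ⟨∅, Finset.Subset.refl _, by rw [Finset.sum_empty]; exact hs,
      by rw [Finset.sum_empty]; linarith⟩
  | insert q P hq ih =>
    rcases le_or_gt s (∑ p ∈ P, r p) with h1 | h1
    · obtain ⟨D, hD, h2, h3⟩ := ih (fun p hp => hP p (Finset.mem_insert_of_mem hp)) h1
      exact ⟨D, hD.trans (Finset.subset_insert _ _), h2, h3⟩
    · refine ⟨insert q P, Finset.Subset.refl _, hs, ?_⟩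
      rw [Finset.sum_insert hq]
      have := hP q (Finset.mem_insert_self _ _)
      linarith

/-- **Rigidity.** If every subset of weight at most `(1 - κ) H` carries less than
`(1/3 + δ) ℓ`, then a set whose elements have weight at most `3 (1 - ε) H / ℓ` times their
logarithms carries at most `ε' ℓ`. -/
theorem rigid {ι : Type*} [DecidableEq ι] (r w : ι → ℝ) (P Q : Finset ι) (hQP : Q ⊆ P)
    {H ℓ κ δ ε ε' θ : ℝ} (hH : 0 < H) (hℓ : 0 < ℓ) (hκ : 0 ≤ κ) (hκ1 : κ ≤ 1) (hδ : 0 ≤ δ)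
    (hθ : 0 ≤ θ)
    (hε : 0 < ε) (hε1 : ε ≤ 1 / 2) (h1 : κ + 3 * (δ + θ) < 2 * ε * ε')
    (h2 : κ + 3 * (δ + θ) < ε / 2) (hP : ∀ p ∈ P, 0 ≤ r p ∧ r p ≤ θ * ℓ ∧ 0 ≤ w p)
    (hr : ∑ p ∈ P, r p = ℓ) (hw : ∑ p ∈ P, w p ≤ 3 * H) (hw1 : H < ∑ p ∈ P, w p)
    (hND : ∀ D ⊆ P, ∑ p ∈ D, w p ≤ (1 - κ) * H → ∑ p ∈ D, r p < (1 / 3 + δ) * ℓ)
    (hQ : ∑ p ∈ Q, w p ≤ 3 * (1 - ε) * H / ℓ * ∑ p ∈ Q, r p) :
    ∑ p ∈ Q, r p ≤ ε' * ℓ := by
  by_contra hcon
  rw [not_le] at hcon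
  obtain ⟨x, hx⟩ : ∃ x, x = (∑ p ∈ Q, r p) / ℓ := ⟨_, rfl⟩
  obtain ⟨v, hv⟩ : ∃ v, v = (∑ p ∈ Q, w p) / H := ⟨_, rfl⟩
  have hxr : ∑ p ∈ Q, r p = x * ℓ := by rw [hx]; field_simp
  have hvw : ∑ p ∈ Q, w p = v * H := by rw [hv]; field_simp
  have hε'0 : 0 < ε' := by
    have h3 : 0 < 2 * ε * ε' := by linarith
    exact pos_of_mul_pos_right h3 (by positivity)
  have hxe : ε' < x := by
    rw [hxr] at hcon
    exact lt_of_mul_lt_mul_right hcon hℓ.le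
  have hx0 : 0 < x := by linarith
  have hvx : v ≤ 3 * (1 - ε) * x := by
    rw [hvw, hxr] at hQ
    have h3 : 3 * (1 - ε) * H / ℓ * (x * ℓ) = (3 * (1 - ε) * x) * H := by field_simp
    rw [h3] at hQ
    exact le_of_mul_le_mul_right hQ hH
  have hQ0 : ∀ p ∈ Q, 0 ≤ r p ∧ r p ≤ θ * ℓ ∧ 0 ≤ w p := fun p hp => hP p (hQP hp)
  have hv0 : 0 ≤ v := by
    rw [hv]
    exact div_nonneg (Finset.sum_nonneg fun p hp => (hQ0 p hp).2.2) hH.le
  rcases lt_or_ge ((1 - κ) * H) (∑ p ∈ Q, w p) with h3 | h3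
  · -- `Q` itself is too heavy
    obtain ⟨D, hD, hDw, hDr⟩ := greedy r w (θ * ℓ) ((1 - κ) * H)
      (mul_nonneg (by linarith) hH.le) _ Q rfl hQ0 h3
    have h4 := hND D (hD.trans hQP) hDw
    rw [hxr, hvw] at hDr
    have h5 : (∑ p ∈ D, r p + θ * ℓ) * (v * H) ≤ ((1 / 3 + δ + θ) * ℓ) * (v * H) := by
      apply mul_le_mul_of_nonneg_right _ (mul_nonneg hv0 hH.le)
      linarith
    have h6 : ((1 - κ) * x) * (H * ℓ) ≤ ((1 / 3 + δ + θ) * v) * (H * ℓ) := by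
      calc ((1 - κ) * x) * (H * ℓ) = (1 - κ) * H * (x * ℓ) := by ring
        _ ≤ (∑ p ∈ D, r p + θ * ℓ) * (v * H) := hDr
        _ ≤ ((1 / 3 + δ + θ) * ℓ) * (v * H) := h5
        _ = _ := by ring
    have h7 := le_of_mul_le_mul_right h6 (mul_pos hH hℓ)
    have h8 : (1 / 3 + δ + θ) * v ≤ (1 / 3 + δ + θ) * (3 * (1 - ε) * x) :=
      mul_le_mul_of_nonneg_left hvx (by linarith)
    have h9 : (1 - κ) * x ≤ ((1 / 3 + δ + θ) * (3 * (1 - ε))) * x := by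
      calc (1 - κ) * x ≤ _ := h7
        _ ≤ _ := h8
        _ = _ := by ring
    have h10 := le_of_mul_le_mul_right h9 hx0
    nlinarith [mul_nonneg (by linarith : 0 ≤ δ + θ) hε.le]
  · -- enlarge `Q`
    have h4 : ∑ p ∈ P \ Q, w p = ∑ p ∈ P, w p - v * H := by
      rw [← hvw, ← Finset.sum_sdiff hQP]; ring
    have h5 : ∑ p ∈ P \ Q, r p = ℓ - x * ℓ := by
      rw [← hxr, ← hr, ← Finset.sum_sdiff hQP]; ring
    obtain ⟨D, hD, hDw, hDr⟩ := greedy r w (θ * ℓ) ((1 - κ) * H - v * H)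
      (by rw [hvw] at h3; linarith) _ (P \ Q) rfl
      (fun p hp => hP p (Finset.sdiff_subset hp)) (by
        rw [h4]
        have : 0 ≤ κ * H := mul_nonneg hκ hH.le
        nlinarith)
    have hdisj : Disjoint Q D := by
      rw [Finset.disjoint_left]
      intro p hp hp'
      exact (Finset.mem_sdiff.1 (hD hp')).2 hp
    have h6 := hND (Q ∪ D) (Finset.union_subset hQP (hD.trans Finset.sdiff_subset)) (by
      rw [Finset.sum_union hdisj, hvw]; linarith)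
    rw [Finset.sum_union hdisj, hxr] at h6
    rw [h4, h5] at hDr
    have hw3 : ∑ p ∈ P, w p - v * H ≤ (3 - v) * H := by linarith
    have hw0 : 0 ≤ ∑ p ∈ P, w p - v * H := by
      rw [← h4]
      exact Finset.sum_nonneg fun p hp => (hP p (Finset.sdiff_subset hp)).2.2
    have hD0 : 0 ≤ ∑ p ∈ D, r p + θ * ℓ :=
      add_nonneg (Finset.sum_nonneg fun p hp => (hP p (Finset.sdiff_subset (hD hp))).1)
        (mul_nonneg hθ hℓ.le)
    have h7 : ((1 - κ - v) * (1 - x)) * (H * ℓ) ≤ ((1 / 3 + δ + θ - x) * (3 - v)) * (H * ℓ) := by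
      have h3v : 0 ≤ (3 - v) * H := hw0.trans hw3
      calc ((1 - κ - v) * (1 - x)) * (H * ℓ) = ((1 - κ) * H - v * H) * (ℓ - x * ℓ) := by ring
        _ ≤ (∑ p ∈ D, r p + θ * ℓ) * (∑ p ∈ P, w p - v * H) := hDr
        _ ≤ (∑ p ∈ D, r p + θ * ℓ) * ((3 - v) * H) := mul_le_mul_of_nonneg_left hw3 hD0
        _ ≤ ((1 / 3 + δ) * ℓ - x * ℓ + θ * ℓ) * ((3 - v) * H) :=
            mul_le_mul_of_nonneg_right (by linarith) h3v
        _ = _ := by ring
    have h8 := le_of_mul_le_mul_right h7 (mul_pos hH hℓ)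
    have h9 : 0 ≤ κ * x := mul_nonneg hκ hx0.le
    have h10 : 0 ≤ (δ + θ) * v := mul_nonneg (by linarith) hv0
    have h11 : 2 * ε * ε' < 2 * ε * x := mul_lt_mul_of_pos_left hxe (by positivity)
    nlinarith

end Pool.Agent.Y911.AA
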