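import Pool.Agent.Y911.AA.Top
import Pool.Agent.Y911.AA.Greedy

/-! Triples without light divisors of large radical all of whose primes are small: the exponents are
nearly constant. -/

set_option autoImplicit false

namespace Pool.Agent.Y911.AA

open Finset

/-- the product of the primes dividing `n` -/
def rad (n : ℕ) : ℕ := ∏ q ∈ n.primeFactors, q

/-- the numbers `⌊(1 + η) ^ s⌋` -/
noncomputable def grid (η : ℝ) (s : ℕ) : ℕ := ⌊(1 + η) ^ s⌋₊

theorem grid_spec {η e : ℝ} (hη : 0 < η) (hη1 : η ≤ 1) (he : 1 ≤ η * e) :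
    ∃ s : ℕ, (grid η s : ℝ) ≤ e ∧ (1 - 2 * η) * e ≤ grid η s ∧
      (s : ℝ) ≤ 2 / η * Real.log e := by
  have he0 : 0 < e := pos_of_mul_pos_right (by linarith) hη.le
  have he1 : 1 ≤ e := by
    by_contra hcon
    rw [not_le] at hcon
    have := mul_lt_mul'' (lt_of_le_of_ne hη1 (by rintro rfl; linarith)) hcon hη.le he0.le
    linarith
  have hl : 0 < Real.log (1 + η) := Real.log_pos (by linarith)
  obtain ⟨s, hs⟩ : ∃ s, s = ⌊Real.log e / Real.log (1 + η)⌋₊ := ⟨_, rfl⟩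
  have h0 : 0 ≤ Real.log e / Real.log (1 + η) := div_nonneg (Real.log_nonneg he1) hl.le
  have h1 : (s : ℝ) ≤ Real.log e / Real.log (1 + η) := by rw [hs]; exact Nat.floor_le h0
  have h2 : Real.log e / Real.log (1 + η) < s + 1 := by rw [hs]; exact Nat.lt_floor_add_one _
  have h3 : (1 + η) ^ s ≤ e := by
    rw [← Real.log_le_log_iff (by positivity) he0, Real.log_pow]
    rwa [le_div_iff₀ hl] at h1
  have h4 : e < (1 + η) ^ (s + 1) := by
    rw [← Real.log_lt_log_iff he0 (by positivity), Real.log_pow]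
    rw [div_lt_iff₀ hl] at h2
    push_cast
    exact h2
  refine ⟨s, (Nat.floor_le (by positivity)).trans h3, ?_, ?_⟩
  · have h5 : (1 + η) ^ s < grid η s + 1 := Nat.lt_floor_add_one _
    have h6 : e < (1 + η) * (1 + η) ^ s := by rw [← pow_succ']; exact h4
    have h7 : (1 - η) * e ≤ (1 + η) ^ s := by
      have h8 : (1 - η) * e ≤ (1 - η) * ((1 + η) * (1 + η) ^ s) :=
        mul_le_mul_of_nonneg_left h6.le (by linarith)
      have h9 : 0 ≤ (1 + η) ^ s := by positivity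
      nlinarith [mul_nonneg (mul_nonneg hη.le hη.le) h9]
    nlinarith
  · refine h1.trans ?_
    have h5 : η / 2 ≤ Real.log (1 + η) := by
      have h6 := Real.one_sub_inv_le_log_of_pos (by linarith : 0 < 1 + η)
      refine le_trans ?_ h6
      have h7 : (1 : ℝ) - (1 + η)⁻¹ = η / (1 + η) := by field_simp; ring
      rw [h7]
      exact div_le_div_of_nonneg_left hη.le (by linarith) (by linarith)
    rw [div_le_iff₀ hl]
    have h6 : 0 ≤ Real.log e := Real.log_nonneg he1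
    calc Real.log e = 2 / η * Real.log e * (η / 2) := by field_simp
      _ ≤ 2 / η * Real.log e * Real.log (1 + η) :=
          mul_le_mul_of_nonneg_left h5 (by positivity)

theorem log_rad (n : ℕ) : Real.log (rad n : ℝ) = ∑ q ∈ n.primeFactors, Real.log (q : ℝ) := by
  rw [rad, Nat.cast_prod, Real.log_prod]
  intro p hp
  exact_mod_cast (Nat.prime_of_mem_primeFactors hp).ne_zero

theorem log_eq_sum {n : ℕ} (hn : n ≠ 0) : Real.log (n : ℝ) =
    ∑ q ∈ n.primeFactors, (n.factorization q : ℝ) * Real.log (q : ℝ) := by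
  conv_lhs => rw [← Nat.prod_factorization_pow_eq_self hn]
  rw [Finsupp.prod, Nat.cast_prod, Real.log_prod]
  · rw [Nat.support_factorization]
    refine Finset.sum_congr rfl fun q _ => ?_
    push_cast
    rw [Real.log_pow]
  · intro p hp
    rw [Nat.support_factorization] at hp
    exact_mod_cast pow_ne_zero _ (Nat.prime_of_mem_primeFactors hp).ne_zero

theorem rad_pos (n : ℕ) : 0 < rad n :=
  Finset.prod_pos fun _ hq => (Nat.prime_of_mem_primeFactors hq).pos

/-- the exponents of `abc` at the primes of a member -/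
theorem fact_abc {a b c q : ℕ} (ha : a ≠ 0) (hb : b ≠ 0) (hc : c ≠ 0) (hab : Nat.Coprime a b)
    (hac : Nat.Coprime a c) (hbc : Nat.Coprime b c) :
    (q ∈ a.primeFactors → (a * b * c).factorization q = a.factorization q) ∧
    (q ∈ b.primeFactors → (a * b * c).factorization q = b.factorization q) ∧
    (q ∈ c.primeFactors → (a * b * c).factorization q = c.factorization q) := by
  have key : (a * b * c).factorization q =
      a.factorization q + b.factorization q + c.factorization q := by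
    rw [Nat.factorization_mul (mul_ne_zero ha hb) hc, Nat.factorization_mul ha hb]
    rfl
  have hz : ∀ {x y : ℕ}, Nat.Coprime x y → q ∈ x.primeFactors → y.factorization q = 0 := by
    intro x y hxy hq
    refine Nat.factorization_eq_zero_of_not_dvd fun h => ?_
    exact Nat.not_coprime_of_dvd_of_dvd (Nat.prime_of_mem_primeFactors hq).one_lt
      (Nat.dvd_of_mem_primeFactors hq) h hxy
  refine ⟨fun h => ?_, fun h => ?_, fun h => ?_⟩
  · rw [key, hz hab h, hz hac h]; omega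
  · rw [key, hz hab.symm h, hz hbc h]; omega
  · rw [key, hz hac.symm h, hz hbc.symm h]; omega

/-- the data of a triple of the second kind -/
structure Data (a b : ℕ) (L κ δ θ : ℝ) : Prop where
  a0 : 0 < a
  ab : a ≤ b
  cop : Nat.Coprime a b
  /-- light divisors have small radical -/
  nd : ∀ D ⊆ (a * b * (a + b)).primeFactors,
    ∑ q ∈ D, ((a * b * (a + b)).factorization q : ℝ) * Real.log (q : ℝ) ≤
      (1 - κ) * Real.log ((a + b : ℕ) : ℝ) →
    ∑ q ∈ D, Real.log (q : ℝ) < (1 / 3 + δ) * Real.log (rad (a * b * (a + b)) : ℝ)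
  /-- the three radicals are not small -/
  nsa : (1 / 3 - δ) * Real.log (rad (a * b * (a + b)) : ℝ) ≤ Real.log (rad a : ℝ)
  nsb : (1 / 3 - δ) * Real.log (rad (a * b * (a + b)) : ℝ) ≤ Real.log (rad b : ℝ)
  nsc : (1 / 3 - δ) * Real.log (rad (a * b * (a + b)) : ℝ) ≤ Real.log (rad (a + b) : ℝ)
  radle : Real.log (rad (a * b * (a + b)) : ℝ) ≤ L
  radge : L / 2 ≤ Real.log (rad (a * b * (a + b)) : ℝ)

theorem log_low_le {n E : ℕ} {ℓ δ ε' : ℝ} (hn : 0 < n) (Q : Finset ℕ)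
    (hQ : ∀ q ∈ n.primeFactors, n.factorization q < E → q ∈ Q) (hQp : ∀ q ∈ Q, q.Prime)
    (h1 : (1 / 3 - δ) * ℓ ≤ Real.log (rad n : ℝ)) (h2 : ∑ q ∈ Q, Real.log (q : ℝ) ≤ ε' * ℓ) :
    (1 / 3 - δ - ε') * ℓ ≤ Real.log (top E n : ℝ) ∧
      Real.log (low E n : ℝ) ≤ Real.log n - E * ((1 / 3 - δ - ε') * ℓ) := by
  have h3 : (1 / 3 - δ - ε') * ℓ ≤ Real.log (top E n : ℝ) := by
    rw [log_top]
    rw [log_rad] at h1
    have h4 : ∑ q ∈ n.primeFactors, Real.log (q : ℝ) =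
        ∑ p ∈ n.primeFactors.filter (fun p => E ≤ n.factorization p), Real.log (p : ℝ) +
        ∑ p ∈ n.primeFactors.filter (fun p => ¬ E ≤ n.factorization p), Real.log (p : ℝ) :=
      (Finset.sum_filter_add_sum_filter_not _ _ _).symm
    have h5 : ∑ p ∈ n.primeFactors.filter (fun p => ¬ E ≤ n.factorization p), Real.log (p : ℝ) ≤
        ∑ q ∈ Q, Real.log (q : ℝ) := by
      refine Finset.sum_le_sum_of_subset_of_nonneg ?_ ?_
      · intro q hq
        rw [Finset.mem_filter, not_le] at hq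
        exact hQ q hq.1 hq.2
      · intro q hq _
        exact Real.log_nonneg (by exact_mod_cast (hQp q hq).one_lt.le)
    have h6 : (1 / 3 - δ - ε') * ℓ = (1 / 3 - δ) * ℓ - ε' * ℓ := by ring
    linarith
  refine ⟨h3, ?_⟩
  rw [log_low hn]
  have : (E : ℝ) * ((1 / 3 - δ - ε') * ℓ) ≤ E * Real.log (top E n : ℝ) :=
    mul_le_mul_of_nonneg_left h3 (Nat.cast_nonneg _)
  linarith

/-- **Structure of the triples of the second kind.** -/
theorem str_two {a b : ℕ} {L κ δ θ ε : ℝ} (T : Data a b L κ δ θ) (hL : 0 < L) (hκ : 0 ≤ κ)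
    (hδ : 0 ≤ δ) (hθ : 0 ≤ θ) (hε : 0 < ε) (hε1 : ε ≤ 1 / 100)
    (hc1 : κ + 3 * (δ + 2 * θ) < 2 * ε * ε)
    (hsm : ∀ q ∈ (a * b * (a + b)).primeFactors, Real.log (q : ℝ) ≤ θ * L)
    (hH : L ≤ ε * Real.log ((a + b : ℕ) : ℝ)) (hH1 : 1 < Real.log ((a + b : ℕ) : ℝ)) :
    ∃ s : ℕ, (s : ℝ) ≤ 2 / ε * Real.log (3 * Real.log ((a + b : ℕ) : ℝ)) + 2 / ε *
        |Real.log (2 / L)| ∧
      1 / ε ≤ grid ε s ∧
      Real.log (low (grid ε s) b : ℝ) ≤ 5 * ε * grid ε s * L ∧
      Real.log (low (grid ε s) (a + b) : ℝ) ≤ 5 * ε * grid ε s * L ∧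
      ∃ D : ℕ, D ^ grid ε s ∣ a ∧ L / 10 ≤ Real.log D ∧ Real.log D ≤ L / 10 + θ * L := by
  obtain ⟨c, hc⟩ : ∃ c, c = a + b := ⟨_, rfl⟩
  obtain ⟨ℓ, hℓ⟩ : ∃ ℓ, ℓ = Real.log (rad (a * b * (a + b)) : ℝ) := ⟨_, rfl⟩
  obtain ⟨H, hHd⟩ : ∃ H, H = Real.log ((a + b : ℕ) : ℝ) := ⟨_, rfl⟩
  have hnd := T.nd
  have hnsa := T.nsa
  have hnsb := T.nsb
  have hnsc := T.nsc
  have hℓL := T.radle
  have hLℓ := T.radge
  rw [← hℓ] at hnd hnsa hnsb hnsc hℓL hLℓ
  rw [← hHd] at hnd hH hH1 ⊢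
  rw [← hc] at hnd hnsc hℓ hHd ⊢ hsm
  have ha := T.a0
  have hb : 0 < b := lt_of_lt_of_le ha T.ab
  have hc0 : 0 < c := by omega
  have hab := T.cop
  have hac : Nat.Coprime a c := by rw [hc]; simpa using hab
  have hbc : Nat.Coprime b c := by rw [hc]; simpa using hab.symm
  have hℓ0 : 0 < ℓ := by linarith
  have hH0 : 0 < H := by linarith
  obtain ⟨P, hP⟩ : ∃ P, P = (a * b * c).primeFactors := ⟨_, rfl⟩
  have habc0 : a * b * c ≠ 0 := by positivity
  obtain ⟨v, hv⟩ : ∃ v : ℕ → ℕ, v = fun q => (a * b * c).factorization q := ⟨_, rfl⟩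
  have hvq : ∀ q, v q = (a * b * c).factorization q := fun q => by rw [hv]
  rw [← hP] at hnd hsm
  have hPp : ∀ q ∈ P, q.Prime := fun q hq => by rw [hP] at hq; exact Nat.prime_of_mem_primeFactors hq
  -- the exponent
  obtain ⟨e₀, he₀⟩ : ∃ e₀, e₀ = (1 - ε) * (3 * H / ℓ) := ⟨_, rfl⟩
  have hHℓ : 3 / ε ≤ 3 * H / ℓ := by
    rw [div_le_div_iff₀ hε hℓ0]
    nlinarith
  have he₀1 : 2 / ε ≤ e₀ := by
    rw [he₀]
    calc 2 / ε ≤ (1 - ε) * (3 / ε) := by
          rw [mul_div_assoc', div_le_div_iff_of_pos_right hε]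
          linarith
      _ ≤ _ := mul_le_mul_of_nonneg_left hHℓ (by linarith)
  have he₀2 : 1 ≤ ε * e₀ := by
    rw [div_le_iff₀ hε] at he₀1
    linarith
  obtain ⟨s, hs1, hs2, hs3⟩ := grid_spec hε (by linarith) he₀2
  obtain ⟨E, hE⟩ : ∃ E, E = grid ε s := ⟨_, rfl⟩
  rw [← hE] at hs1 hs2
  refine ⟨s, ?_, ?_, ?_⟩
  · refine hs3.trans ?_
    rw [← mul_add]
    apply mul_le_mul_of_nonneg_left _ (by positivity)
    have h1 : e₀ ≤ 3 * H * (2 / L) := by
      rw [he₀]
      calc (1 - ε) * (3 * H / ℓ) ≤ 1 * (3 * H / ℓ) :=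
            mul_le_mul_of_nonneg_right (by linarith) (by positivity)
        _ = 3 * H / ℓ := one_mul _
        _ ≤ 3 * H * (2 / L) := by
            rw [mul_div_assoc', div_le_div_iff₀ hℓ0 hL]
            nlinarith
    have h2 : 0 < e₀ := by
      have : 0 < 2 / ε := by positivity
      linarith
    calc Real.log e₀ ≤ Real.log (3 * H * (2 / L)) := Real.log_le_log h2 h1
      _ = Real.log (3 * H) + Real.log (2 / L) := Real.log_mul (by positivity) (by positivity)
      _ ≤ _ := by gcongr; exact le_abs_self _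
  · rw [← hE]
    have h1 : (1 - 2 * ε) * (2 / ε) ≤ (1 - 2 * ε) * e₀ :=
      mul_le_mul_of_nonneg_left he₀1 (by linarith)
    have h2 : 1 / ε ≤ (1 - 2 * ε) * (2 / ε) := by
      rw [mul_div_assoc', div_le_div_iff_of_pos_right hε]
      linarith
    linarith
  rw [← hE]
  -- the primes of small exponent
  obtain ⟨Q, hQ⟩ : ∃ Q, Q = P.filter fun q => v q < E := ⟨_, rfl⟩
  have hQP : Q ⊆ P := by rw [hQ]; exact Finset.filter_subset _ _
  have hlogq : ∀ q ∈ P, 0 ≤ Real.log (q : ℝ) := fun q hq =>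
    Real.log_nonneg (by exact_mod_cast (hPp q hq).one_lt.le)
  have hrP : ∑ q ∈ P, Real.log (q : ℝ) = ℓ := by rw [hℓ, log_rad, hP]
  have hwP : ∑ q ∈ P, (v q : ℝ) * Real.log (q : ℝ) = Real.log a + Real.log b + H := by
    have h1 := log_eq_sum habc0
    rw [← hP] at h1
    rw [hv]
    rw [← h1, hHd]
    push_cast
    rw [Real.log_mul (by positivity) (by positivity), Real.log_mul (by positivity) (by positivity)]
  have hla : Real.log (a : ℝ) ≤ H := by
    rw [hHd]
    exact Real.log_le_log (by exact_mod_cast ha) (by exact_mod_cast (by omega : a ≤ c))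
  have hlb : Real.log (b : ℝ) ≤ H := by
    rw [hHd]
    exact Real.log_le_log (by exact_mod_cast hb) (by exact_mod_cast (by omega : b ≤ c))
  have hla0 : 0 ≤ Real.log (a : ℝ) := Real.log_nonneg (by exact_mod_cast ha)
  have hlb2 : H - Real.log 2 ≤ Real.log (b : ℝ) := by
    have h1 : H ≤ Real.log (2 * (b : ℝ)) := by
      rw [hHd]
      have hab' := T.ab
      exact Real.log_le_log (by positivity) (by exact_mod_cast (by omega : c ≤ 2 * b))
    rw [Real.log_mul (by norm_num) (by positivity)] at h1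
    linarith
  have hl2 : Real.log 2 < 1 := by linarith [Real.log_two_lt_d9]
  have hrQ : ∑ q ∈ Q, Real.log (q : ℝ) ≤ ε * ℓ := by
    refine rigid (fun q : ℕ => Real.log (q : ℝ)) (fun q : ℕ => (v q : ℝ) * Real.log (q : ℝ)) P Q hQP
      (H := H) (ℓ := ℓ) (κ := κ) (δ := δ) (ε := ε) (ε' := ε) (θ := 2 * θ) hH0 hℓ0 hκ
      (by nlinarith) hδ (by linarith) hε (by linarith) hc1 (by nlinarith) ?_ hrP ?_ ?_ ?_ ?_
    · intro q hq
      refine ⟨hlogq q hq, ?_, mul_nonneg (Nat.cast_nonneg _) (hlogq q hq)⟩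
      have h1 := hsm q hq
      have h2 : θ * L ≤ 2 * θ * ℓ := by nlinarith
      exact h1.trans h2
    · rw [hwP]; linarith
    · rw [hwP]; linarith
    · intro D hD hDw
      refine hnd D hD ?_
      refine le_trans (le_of_eq ?_) hDw
      rw [hv]
    · have h1 : ∑ q ∈ Q, (v q : ℝ) * Real.log (q : ℝ) ≤ ∑ q ∈ Q, (E : ℝ) * Real.log (q : ℝ) := by
        refine Finset.sum_le_sum fun q hq => ?_
        apply mul_le_mul_of_nonneg_right _ (hlogq q (hQP hq))
        rw [hQ, Finset.mem_filter] at hq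
        exact_mod_cast hq.2.le
      rw [← Finset.mul_sum] at h1
      refine h1.trans ?_
      apply mul_le_mul_of_nonneg_right _ (Finset.sum_nonneg fun q hq => hlogq q (hQP hq))
      refine hs1.trans (le_of_eq ?_)
      rw [he₀]
      ring
  have hQp : ∀ q ∈ Q, q.Prime := fun q hq => hPp q (hQP hq)
  obtain ⟨memP⟩ : Nonempty (∀ x ∈ ({a, b, c} : Finset ℕ), x.primeFactors ⊆ P) := by
    refine ⟨fun x hx => ?_⟩
    rw [hP]
    refine Nat.primeFactors_mono ?_ habc0
    simp only [Finset.mem_insert, Finset.mem_singleton] at hx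
    rcases hx with rfl | rfl | rfl
    · exact (dvd_mul_right _ _).mul_right _
    · exact (dvd_mul_left _ _).mul_right _
    · exact dvd_mul_left _ _
  have hfa : ∀ q ∈ a.primeFactors, a.factorization q < E → q ∈ Q := by
    intro q hq h
    rw [hQ, Finset.mem_filter]
    refine ⟨memP a (by simp) hq, ?_⟩
    rw [hvq, (fact_abc ha.ne' hb.ne' hc0.ne' hab hac hbc).1 hq]
    exact h
  have hfb : ∀ q ∈ b.primeFactors, b.factorization q < E → q ∈ Q := by
    intro q hq h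
    rw [hQ, Finset.mem_filter]
    refine ⟨memP b (by simp) hq, ?_⟩
    rw [hvq, (fact_abc ha.ne' hb.ne' hc0.ne' hab hac hbc).2.1 hq]
    exact h
  have hfc : ∀ q ∈ c.primeFactors, c.factorization q < E → q ∈ Q := by
    intro q hq h
    rw [hQ, Finset.mem_filter]
    refine ⟨memP c (by simp) hq, ?_⟩
    rw [hvq, (fact_abc ha.ne' hb.ne' hc0.ne' hab hac hbc).2.2 hq]
    exact h
  obtain ⟨ta, -⟩ := log_low_le ha Q hfa hQp hnsa hrQ
  obtain ⟨-, lb⟩ := log_low_le hb Q hfb hQp hnsb hrQ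
  obtain ⟨-, lc⟩ := log_low_le hc0 Q hfc hQp hnsc hrQ
  -- `H` in terms of `E ℓ`
  have hδε : δ ≤ ε / 100 := by nlinarith
  have hHE : H * ((1 - 2 * ε) * ((1 - ε) * 3)) ≤ E * ℓ := by
    have h1 : (1 - 2 * ε) * e₀ * ℓ ≤ E * ℓ := mul_le_mul_of_nonneg_right hs2 hℓ0.le
    refine le_trans (le_of_eq ?_) h1
    rw [he₀]
    field_simp
  have hEℓ0 : 0 ≤ (E : ℝ) * ℓ := mul_nonneg (Nat.cast_nonneg _) hℓ0.le
  have hHle : H ≤ (1 + 4 * ε) / 3 * (E * ℓ) := by
    have h1 : 1 ≤ (1 + 4 * ε) * ((1 - 2 * ε) * (1 - ε)) := by nlinarith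
    have h2 : H * 3 ≤ (1 + 4 * ε) * (E * ℓ) := by
      calc H * 3 = 1 * (H * 3) := (one_mul _).symm
        _ ≤ ((1 + 4 * ε) * ((1 - 2 * ε) * (1 - ε))) * (H * 3) :=
            mul_le_mul_of_nonneg_right h1 (by positivity)
        _ = (1 + 4 * ε) * (H * ((1 - 2 * ε) * ((1 - ε) * 3))) := by ring
        _ ≤ (1 + 4 * ε) * (E * ℓ) := mul_le_mul_of_nonneg_left hHE (by linarith)
    linarith
  have hfin : ∀ x : ℝ, x ≤ H → x - E * ((1 / 3 - δ - ε) * ℓ) ≤ 5 * ε * E * L := by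
    intro x hx
    have h1 : x - E * ((1 / 3 - δ - ε) * ℓ) ≤ ((1 + 4 * ε) / 3 - (1 / 3 - δ - ε)) * (E * ℓ) := by
      linarith
    have h2 : ((1 + 4 * ε) / 3 - (1 / 3 - δ - ε)) * (E * ℓ) ≤ (5 * ε) * (E * ℓ) :=
      mul_le_mul_of_nonneg_right (by linarith) hEℓ0
    have h3 : (5 * ε) * (E * ℓ) ≤ (5 * ε) * (E * L) :=
      mul_le_mul_of_nonneg_left (mul_le_mul_of_nonneg_left hℓL (Nat.cast_nonneg _)) (by linarith)
    linarith
  refine ⟨lb.trans (hfin _ hlb), lc.trans (hfin _ (by rw [hHd, hc])), ?_⟩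
  -- the modulus
  obtain ⟨D', hD', hD1, hD2⟩ := exists_sum (fun q : ℕ => Real.log (q : ℝ)) (θ * L) (L / 10)
    (a.primeFactors.filter (fun p => E ≤ a.factorization p))
    (fun q hq => hsm q (memP a (by simp) (Finset.mem_filter.1 hq).1)) (by positivity) (by
      rw [← log_top]
      refine le_trans ?_ ta
      nlinarith) (by positivity)
  have hDp : ∀ q ∈ D', q.Prime ∧ E ≤ a.factorization q := fun q hq =>
    ⟨Nat.prime_of_mem_primeFactors (Finset.mem_filter.1 (hD' hq)).1,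
      (Finset.mem_filter.1 (hD' hq)).2⟩
  have hlogD : Real.log ((∏ q ∈ D', q : ℕ) : ℝ) = ∑ q ∈ D', Real.log (q : ℝ) := by
    rw [Nat.cast_prod, Real.log_prod]
    intro p hp
    exact_mod_cast (hDp p hp).1.ne_zero
  refine ⟨∏ q ∈ D', q, sub_pow_dvd hDp, ?_, ?_⟩
  · rw [hlogD]; exact hD1
  · rw [hlogD]; exact hD2

end Pool.Agent.Y911.AA
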