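import Pool.Agent.Y911.AA.Rep
import Pool.Agent.Y911.AA.StrTwo

/-! Triples with large primes the rest of which is light: the quotients are, up to small factors,
high powers of rational numbers with few prime factors. -/

set_option autoImplicit false

namespace Pool.Agent.Y911.AA

open Finset

/-- Dirichlet's theorem on simultaneous approximation -/
theorem dirichlet {ι : Type*} [DecidableEq ι] (S : Finset ι) (y : ι → ℝ) {m N : ℕ}
    (hS : S.card ≤ m) (hN : 1 ≤ N) :
    ∃ t : ℕ, 1 ≤ t ∧ t ≤ N ^ m ∧ ∀ i ∈ S, ∃ g : ℤ, |t * y i - g| ≤ 1 / N := by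
  classical
  have hN0 : (0 : ℝ) < N := by exact_mod_cast hN
  have hlt : ∀ x : ℝ, ⌊(N : ℝ) * Int.fract x⌋₊ < N := by
    intro x
    rw [Nat.floor_lt (mul_nonneg hN0.le (Int.fract_nonneg _))]
    calc (N : ℝ) * Int.fract x < N * 1 := mul_lt_mul_of_pos_left (Int.fract_lt_one _) hN0
      _ = N := mul_one _
  obtain ⟨i, hi, j, hj, hij, hf⟩ := Finset.exists_ne_map_eq_of_card_lt_of_maps_to
    (s := Finset.range (N ^ m + 1)) (t := (univ : Finset (S → Fin N)))
    (f := fun j i => (⟨⌊(N : ℝ) * Int.fract ((j : ℝ) * y i)⌋₊, hlt _⟩ : Fin N))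
    (by
      rw [Finset.card_univ, Fintype.card_fun, Fintype.card_fin, Fintype.card_coe,
        Finset.card_range]
      have := Nat.pow_le_pow_right hN hS
      omega) (fun _ _ => mem_univ _)
  rw [Finset.mem_range] at hi hj
  -- symmetric argument
  have key : ∀ i j : ℕ, i < j → j < N ^ m + 1 →
      (fun i_1 : S => (⟨⌊(N : ℝ) * Int.fract ((i : ℝ) * y i_1)⌋₊, hlt _⟩ : Fin N)) =
      (fun i_1 : S => (⟨⌊(N : ℝ) * Int.fract ((j : ℝ) * y i_1)⌋₊, hlt _⟩ : Fin N)) →
      ∃ t : ℕ, 1 ≤ t ∧ t ≤ N ^ m ∧ ∀ i ∈ S, ∃ g : ℤ, |t * y i - g| ≤ 1 / N := by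
    intro i j hij hj hf
    refine ⟨j - i, by omega, by omega, fun u hu => ?_⟩
    have h1 := congrFun hf ⟨u, hu⟩
    simp only [Fin.mk.injEq] at h1
    refine ⟨⌊(j : ℝ) * y u⌋ - ⌊(i : ℝ) * y u⌋, ?_⟩
    have h2 : ((j - i : ℕ) : ℝ) * y u - ((⌊(j : ℝ) * y u⌋ - ⌊(i : ℝ) * y u⌋ : ℤ) : ℝ) =
        Int.fract ((j : ℝ) * y u) - Int.fract ((i : ℝ) * y u) := by
      rw [Nat.cast_sub hij.le, Int.cast_sub]
      have e1 := Int.self_sub_floor ((j : ℝ) * y u)
      have e2 := Int.self_sub_floor ((i : ℝ) * y u)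
      rw [← e1, ← e2]
      ring
    rw [h2]
    have f1 := Nat.floor_le (mul_nonneg hN0.le (Int.fract_nonneg ((j : ℝ) * y u)))
    have f2 := Nat.lt_floor_add_one ((N : ℝ) * Int.fract ((j : ℝ) * y u))
    have f3 := Nat.floor_le (mul_nonneg hN0.le (Int.fract_nonneg ((i : ℝ) * y u)))
    have f4 := Nat.lt_floor_add_one ((N : ℝ) * Int.fract ((i : ℝ) * y u))
    rw [h1] at f3 f4
    rw [abs_le, ← neg_div, div_le_iff₀ hN0, le_div_iff₀ hN0]
    constructor <;> nlinarith
  rcases lt_or_gt_of_ne hij with h | h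
  · exact key i j h hj hf
  · exact key j i h hi hf.symm

/-- the version for nonnegative numbers -/
theorem dirichlet_nat {ι : Type*} [DecidableEq ι] (S : Finset ι) (y : ι → ℝ) {m N : ℕ}
    (hS : S.card ≤ m) (hN : 2 ≤ N) (hy : ∀ i ∈ S, 0 ≤ y i) :
    ∃ t : ℕ, 1 ≤ t ∧ t ≤ N ^ m ∧ ∃ g : ι → ℕ, ∀ i ∈ S, |t * y i - g i| ≤ 1 / N := by
  obtain ⟨t, h1, h2, h3⟩ := dirichlet S y hS (by omega : 1 ≤ N)
  have h4 : ∀ i ∈ S, ∃ g : ℕ, |(t : ℝ) * y i - g| ≤ 1 / N := by
    intro i hi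
    obtain ⟨g, hg⟩ := h3 i hi
    rcases lt_or_ge g 0 with h | h
    · exfalso
      have h5 : (g : ℝ) ≤ -1 := by exact_mod_cast (by omega : g ≤ -1)
      have h6 : 0 ≤ (t : ℝ) * y i := mul_nonneg (Nat.cast_nonneg _) (hy i hi)
      have h7 : (1 : ℝ) / N ≤ 1 / 2 :=
        div_le_div_of_nonneg_left (by norm_num) (by norm_num) (by exact_mod_cast hN)
      have h8 := le_abs_self ((t : ℝ) * y i - g)
      linarith
    · refine ⟨g.toNat, ?_⟩
      have h5 : ((g.toNat : ℕ) : ℝ) = (g : ℝ) := by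
        have : ((g.toNat : ℤ) : ℝ) = (g : ℝ) := by rw [Int.toNat_of_nonneg h]
        exact_mod_cast this
      rw [h5]
      exact hg
  choose! g hg using h4
  exact ⟨t, h1, h2, g, hg⟩

/-- the factors of the approximate representation of `n` as an `E`-th power -/
def mm (n : ℕ) (g : ℕ → ℕ) : ℕ := ∏ q ∈ n.primeFactors, q ^ g q
/-- numerator -/
def aa (n E : ℕ) (g : ℕ → ℕ) : ℕ := ∏ q ∈ n.primeFactors, q ^ (n.factorization q - E * g q)
/-- denominator -/
def bb (n E : ℕ) (g : ℕ → ℕ) : ℕ := ∏ q ∈ n.primeFactors, q ^ (E * g q - n.factorization q)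

theorem prod_pow_pos {n : ℕ} (f : ℕ → ℕ) : 0 < ∏ q ∈ n.primeFactors, q ^ f q :=
  Finset.prod_pos fun _ hq => pow_pos (Nat.prime_of_mem_primeFactors hq).pos _

theorem rep_eq {n E : ℕ} (hn : n ≠ 0) (g : ℕ → ℕ) : n * bb n E g = mm n g ^ E * aa n E g := by
  have h1 : n = ∏ q ∈ n.primeFactors, q ^ n.factorization q := by
    conv_lhs => rw [← Nat.prod_factorization_pow_eq_self hn]
    rw [Finsupp.prod, Nat.support_factorization]
  calc n * bb n E g = (∏ q ∈ n.primeFactors, q ^ n.factorization q) * bb n E g := by rw [← h1]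
    _ = ∏ q ∈ n.primeFactors, (q ^ n.factorization q * q ^ (E * g q - n.factorization q)) := by
        rw [bb, Finset.prod_mul_distrib]
    _ = ∏ q ∈ n.primeFactors, ((q ^ g q) ^ E * q ^ (n.factorization q - E * g q)) := by
        refine Finset.prod_congr rfl fun q _ => ?_
        rw [← pow_add, ← pow_mul, ← pow_add]
        congr 1
        have : g q * E = E * g q := mul_comm _ _
        omega
    _ = mm n g ^ E * aa n E g := by
        rw [mm, aa, ← Finset.prod_pow, ← Finset.prod_mul_distrib]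

theorem log_prod_pow (n : ℕ) (f : ℕ → ℕ) :
    Real.log ((∏ q ∈ n.primeFactors, q ^ f q : ℕ) : ℝ) =
      ∑ q ∈ n.primeFactors, (f q : ℝ) * Real.log (q : ℝ) := by
  rw [Nat.cast_prod, Real.log_prod]
  · refine Finset.sum_congr rfl fun q _ => ?_
    push_cast
    rw [Real.log_pow]
  · intro q hq
    exact_mod_cast pow_ne_zero _ (Nat.prime_of_mem_primeFactors hq).ne_zero

/-- the bound for `aa` and `bb` -/
theorem log_ab_le {n E : ℕ} (g : ℕ → ℕ) {T ρ lam W : ℝ}
    (hlight : ∀ q ∈ n.primeFactors, Real.log (q : ℝ) ≤ T → g q = 0)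
    (hl : ∑ q ∈ n.primeFactors.filter (fun q : ℕ => Real.log (q : ℝ) ≤ T),
      (n.factorization q : ℝ) * Real.log (q : ℝ) ≤ lam)
    (hmain : ∀ q ∈ n.primeFactors, T < Real.log (q : ℝ) →
      |(n.factorization q : ℝ) - E * g q| ≤ ρ)
    (hρ : 0 ≤ ρ)
    (hW : ∑ q ∈ n.primeFactors, Real.log (q : ℝ) ≤ W) :
    Real.log (aa n E g : ℝ) ≤ lam + ρ * W ∧ Real.log (bb n E g : ℝ) ≤ lam + ρ * W := by
  have hlog : ∀ q ∈ n.primeFactors, 0 ≤ Real.log (q : ℝ) := fun q hq =>
    Real.log_nonneg (by exact_mod_cast (Nat.prime_of_mem_primeFactors hq).one_lt.le)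
  have key : ∀ f : ℕ → ℕ, (∀ q ∈ n.primeFactors,
      (f q : ℝ) ≤ |(n.factorization q : ℝ) - E * g q|) →
      ∑ q ∈ n.primeFactors, (f q : ℝ) * Real.log (q : ℝ) ≤ lam + ρ * W := by
    intro f hf
    rw [← Finset.sum_filter_add_sum_filter_not n.primeFactors
      (fun q : ℕ => Real.log (q : ℝ) ≤ T)]
    apply add_le_add
    · refine le_trans (Finset.sum_le_sum fun q hq => ?_) hl
      rw [Finset.mem_filter] at hq
      apply mul_le_mul_of_nonneg_right _ (hlog q hq.1)
      have h1 := hf q hq.1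
      rw [hlight q hq.1 hq.2, Nat.cast_zero, mul_zero, sub_zero, abs_of_nonneg (Nat.cast_nonneg _)]
        at h1
      exact h1
    · calc ∑ q ∈ n.primeFactors.filter (fun q : ℕ => ¬ Real.log (q : ℝ) ≤ T),
            (f q : ℝ) * Real.log (q : ℝ) ≤
          ∑ q ∈ n.primeFactors.filter (fun q : ℕ => ¬ Real.log (q : ℝ) ≤ T),
            ρ * Real.log (q : ℝ) := by
            refine Finset.sum_le_sum fun q hq => ?_
            rw [Finset.mem_filter, not_le] at hq
            exact mul_le_mul_of_nonneg_right ((hf q hq.1).trans (hmain q hq.1 hq.2)) (hlog q hq.1)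
        _ = ρ * ∑ q ∈ n.primeFactors.filter (fun q : ℕ => ¬ Real.log (q : ℝ) ≤ T),
            Real.log (q : ℝ) := by rw [Finset.mul_sum]
        _ ≤ ρ * W := by
            apply mul_le_mul_of_nonneg_left _ hρ
            refine le_trans (Finset.sum_le_sum_of_subset_of_nonneg (Finset.filter_subset _ _) ?_) hW
            intro q hq _
            exact hlog q hq
  constructor
  · rw [aa, log_prod_pow]
    refine key _ fun q hq => ?_
    rcases le_or_gt (E * g q) (n.factorization q) with h | h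
    · rw [Nat.cast_sub h]
      push_cast
      exact le_abs_self _
    · rw [Nat.sub_eq_zero_of_le h.le, Nat.cast_zero]
      exact abs_nonneg _
  · rw [bb, log_prod_pow]
    refine key _ fun q hq => ?_
    rcases le_or_gt (n.factorization q) (E * g q) with h | h
    · rw [Nat.cast_sub h]
      push_cast
      rw [abs_sub_comm]
      exact le_abs_self _
    · rw [Nat.sub_eq_zero_of_le h.le, Nat.cast_zero]
      exact abs_nonneg _

/-- the data of a triple of the first kind -/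
structure DataI (a b : ℕ) (L θ κ : ℝ) : Prop where
  a0 : 0 < a
  ab : a ≤ b
  cop : Nat.Coprime a b
  radle : Real.log (rad (a * b * (a + b)) : ℝ) ≤ L
  /-- the primes up to `exp (θ L / 2)` carry little -/
  light : ∀ n ∈ ({a, b, a + b} : Finset ℕ),
    ∑ q ∈ n.primeFactors.filter (fun q : ℕ => Real.log (q : ℝ) ≤ θ / 2 * L),
      (n.factorization q : ℝ) * Real.log (q : ℝ) ≤ κ * Real.log ((a + b : ℕ) : ℝ)
  nsb : ∀ q ∈ b.primeFactors, Real.log (q : ℝ) ≤ 2 / 5 * L

end Pool.Agent.Y911.AA
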