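import Pool.Agent.Y911.AA.StrOneB

/-! The number of triples of the first kind in a class. -/

set_option autoImplicit false

namespace Pool.Agent.Y911.AA

open Finset

theorem lt_choose {p k : ℕ} (hk : 1 ≤ k) (hp : 1 ≤ p) :
    p < (k + ⌊(k : ℝ) * Real.exp (Real.log p / k)⌋₊ + 1 - 1).choose k := by
  obtain ⟨u, hu⟩ : ∃ u, u = ⌊(k : ℝ) * Real.exp (Real.log p / k)⌋₊ := ⟨_, rfl⟩
  rw [← hu]
  have hk0 : (0 : ℝ) < k := by exact_mod_cast hk
  have h1 : (k : ℝ) * Real.exp (Real.log p / k) < u + 1 := by rw [hu]; exact Nat.lt_floor_add_one _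
  have h2 : (k : ℝ) ^ k * p < (u + 1 : ℝ) ^ k := by
    have h3 : (k : ℝ) ^ k * p = (k * Real.exp (Real.log p / k)) ^ k := by
      rw [mul_pow, ← Real.exp_nat_mul]
      congr 1
      have : (k : ℝ) * (Real.log p / k) = Real.log p := by field_simp
      rw [this, Real.exp_log (by exact_mod_cast hp)]
    rw [h3]
    exact pow_lt_pow_left₀ h1 (by positivity) (by omega)
  have h4 : k ^ k * p < (u + 1) ^ k := by exact_mod_cast h2
  have h5 : (u + 1) ^ k ≤ k.factorial * (k + u).choose k := by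
    have h6 := Nat.pow_sub_le_descFactorial (k + u) k
    rw [Nat.descFactorial_eq_factorial_mul_choose] at h6
    have : k + u + 1 - k = u + 1 := by omega
    rwa [this] at h6
  have h7 : k.factorial ≤ k ^ k := Nat.factorial_le_pow k
  have h8 : k.factorial * p < k.factorial * (k + u).choose k :=
    lt_of_le_of_lt (Nat.mul_le_mul_right _ h7) (lt_of_lt_of_le h4 h5)
  have h9 := Nat.lt_of_mul_lt_mul_left h8
  simpa using h9

/-- **The number of triples of the first kind in a class.** -/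
theorem class_one {θ L : ℝ} {m0 k N G t E p : ℕ} (hθ : 0 < θ) (hθ1 : θ ≤ 1) (hm0 : 1 ≤ m0)
    (hk : 1 ≤ k) (hN1 : 16400 * (k : ℝ) ≤ θ * N) (hN2 : 2 * 10 ^ 8 * (k : ℝ) ^ 2 * m0 ≤ θ ^ 2 * N)
    (ht : 1 ≤ t) (hEN : N ≤ E) (hEm : 2 * m0 ≤ E) (hp : p.Prime)
    (hp1 : θ / 2 * L < Real.log p) (hp2 : Real.log p ≤ 2 / 5 * L) (hL1 : 8 * N ≤ θ * L)
    (hL2 : 100 ≤ θ * L) (F : Finset (ℕ × ℕ))
    (hF0 : ∀ x ∈ F, 0 < x.1 ∧ 0 < x.2 ∧ Nat.Coprime x.1 x.2)
    (hF : ∀ x ∈ F, ∃ m₁ m₂ A B, Rep p ⌊E * t * L / (2 * m0 * Real.log p)⌋₊ E m0 G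
        (3 * t / θ * L) (10 / N * E * L) x m₁ m₂ A B) :
    F.card ≤ ((k + ⌊(k : ℝ) * Real.exp (Real.log p / k)⌋₊ + 1) ^ m0 * m0.factorial) *
      ((G + 1) ^ m0) ^ 2 := by
  have hl2 : Real.log 2 < 0.6931471808 := Real.log_two_lt_d9
  have hl2' : 0.6931471803 < Real.log 2 := Real.log_two_gt_d9
  obtain ⟨l2, hl⟩ : ∃ l2, l2 = Real.log 2 := ⟨_, rfl⟩
  rw [← hl] at hl2 hl2'
  have hl0 : 0 < l2 := by linarith
  obtain ⟨lp, hlp⟩ : ∃ lp, lp = Real.log p := ⟨_, rfl⟩
  have hL0 : 0 < L := (mul_pos_iff_of_pos_left hθ).1 (by linarith)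
  have hL100 : 100 ≤ L := by
    have := mul_le_mul_of_nonneg_right hθ1 hL0.le
    linarith
  have hk1 : (1 : ℝ) ≤ k := by exact_mod_cast hk
  have hm1 : (1 : ℝ) ≤ m0 := by exact_mod_cast hm0
  have ht1 : (1 : ℝ) ≤ t := by exact_mod_cast ht
  have hN0 : (0 : ℝ) < N := (mul_pos_iff_of_pos_left hθ).1 (by linarith)
  have hENr : (N : ℝ) ≤ E := by exact_mod_cast hEN
  have hEmr : 2 * (m0 : ℝ) ≤ E := by exact_mod_cast hEm
  have hE0 : (0 : ℝ) < E := by linarith
  rw [← hlp] at hp1 hp2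
  have hlp50 : 50 < lp := by linarith
  -- `g`
  obtain ⟨g, hg⟩ : ∃ g, g = ⌊lp / l2⌋₊ := ⟨_, rfl⟩
  have hg1 : (g : ℝ) ≤ lp / l2 := by rw [hg]; exact Nat.floor_le (by positivity)
  have hg2 : lp / l2 < g + 1 := by rw [hg]; exact Nat.lt_floor_add_one _
  rw [le_div_iff₀ hl0] at hg1
  rw [div_lt_iff₀ hl0] at hg2
  have hg3 : lp ≤ g := by
    have := mul_le_mul_of_nonneg_left hl2.le (by positivity : 0 ≤ (g : ℝ) + 1)
    linarith
  have hg4 : (g : ℝ) ≤ 3 / 5 * L := by
    have := mul_le_mul_of_nonneg_left hl2'.le (Nat.cast_nonneg (α := ℝ) g)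
    linarith
  have hgp : 2 ^ g ≤ p := by
    have h1 : ((2 : ℝ) ^ g) ≤ p := by
      rw [← Real.log_le_log_iff (by positivity) (by exact_mod_cast hp.pos), Real.log_pow, ← hlp,
        ← hl]
      exact hg1
    exact_mod_cast h1
  have hg8 : 8 ≤ g := by
    have : (8 : ℝ) ≤ g := by linarith
    exact_mod_cast this
  -- `h`
  obtain ⟨μ, hμ⟩ : ∃ μ, μ = 3 * t / θ * L := ⟨_, rfl⟩
  have hμ1 : 3 * L ≤ μ := by
    rw [hμ]
    apply mul_le_mul_of_nonneg_right _ hL0.le
    rw [le_div_iff₀ hθ]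
    linarith
  have hμ0 : 0 < μ := by linarith
  obtain ⟨h, hh⟩ : ∃ h, h = ⌊2 * k * μ / l2⌋₊ + 1 := ⟨_, rfl⟩
  have hh1 : 2 * k * μ / l2 < h := by
    rw [hh]
    push_cast
    exact Nat.lt_floor_add_one _
  have hh2 : (h : ℝ) ≤ 2 * k * μ / l2 + 1 := by
    rw [hh]
    push_cast
    have := Nat.floor_le (show 0 ≤ 2 * k * μ / l2 by positivity)
    linarith
  have hkμ : 3 * L ≤ k * μ := by
    have := mul_le_mul_of_nonneg_right hk1 hμ0.le
    linarith
  have hkμ0 : 0 < k * μ := by linarith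
  have hh3 : 6 * L ≤ 2 * k * μ / l2 := by
    rw [le_div_iff₀ hl0]
    have := mul_le_mul_of_nonneg_left (by linarith : l2 ≤ 1) (by positivity : 0 ≤ 6 * L)
    linarith
  have hh4 : (h : ℝ) ≤ 6 * (k * μ) := by
    have h1 : (h : ℝ) ≤ 2 * (2 * k * μ / l2) := by linarith
    refine h1.trans ?_
    have h2 : 2 * (2 * k * μ / l2) = 4 * (k * μ) / l2 := by ring
    rw [h2, div_le_iff₀ hl0]
    have := mul_le_mul_of_nonneg_left hl2'.le (by positivity : 0 ≤ 6 * (k * μ))
    linarith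
  -- `ν`
  obtain ⟨α, hα⟩ : ∃ α, α = 10 / N * E * L := ⟨_, rfl⟩
  have hα0 : 0 < α := by rw [hα]; positivity
  have hα1 : 10 * L ≤ α := by
    rw [hα]
    apply mul_le_mul_of_nonneg_right _ hL0.le
    rw [div_mul_eq_mul_div, le_div_iff₀ hN0]
    linarith
  obtain ⟨ν, hν⟩ : ∃ ν, ν = ⌊2 * k * α / l2⌋₊ + 1 := ⟨_, rfl⟩
  have hν1 : 2 * k * α / l2 < ν := by
    rw [hν]
    push_cast
    exact Nat.lt_floor_add_one _
  have hν2 : (ν : ℝ) ≤ 2 * k * α / l2 + 1 := by
    rw [hν]
    push_cast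
    have := Nat.floor_le (show 0 ≤ 2 * k * α / l2 by positivity)
    linarith
  have hkα : 10 * L ≤ k * α := by
    have := mul_le_mul_of_nonneg_right hk1 hα0.le
    linarith
  have hkα0 : 0 < k * α := by linarith
  have hν3 : 2 * (k * α) ≤ 2 * k * α / l2 := by
    rw [le_div_iff₀ hl0]
    have := mul_le_mul_of_nonneg_left (by linarith : l2 ≤ 1) (by positivity : 0 ≤ 2 * (k * α))
    linarith
  have hν4 : (ν : ℝ) ≤ 2.8854 * (k * α) + 1 := by
    refine hν2.trans (add_le_add ?_ le_rfl)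
    rw [div_le_iff₀ hl0]
    have := mul_le_mul_of_nonneg_left hl2'.le (by positivity : 0 ≤ 2.8854 * (k * α))
    linarith
  have hν5 : (ν : ℝ) ≤ 2.9 * (k * α) := by linarith
  have hkαE : N * (k * α) = 10 * (k * (E * L)) := by
    rw [hα]
    field_simp
  have hEL : 0 < (E : ℝ) * L := by positivity
  -- `V`
  obtain ⟨x, hx⟩ : ∃ x, x = (E : ℝ) * t * L / (2 * m0 * lp) := ⟨_, rfl⟩
  obtain ⟨V, hV⟩ : ∃ V, V = ⌊x⌋₊ := ⟨_, rfl⟩
  have hlp0 : 0 < lp := by linarith
  have hx2 : 2 ≤ x := by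
    rw [hx, le_div_iff₀ (by positivity)]
    have h1 : 2 * (m0 : ℝ) * L ≤ E * t * L := by
      apply mul_le_mul_of_nonneg_right _ hL0.le
      have := mul_le_mul_of_nonneg_left ht1 hE0.le
      linarith
    have h2 := mul_le_mul_of_nonneg_left hp2 (by positivity : 0 ≤ 4 * (m0 : ℝ))
    have h3 : 0 ≤ (m0 : ℝ) * L := by positivity
    linarith
  have hVx : x / 2 ≤ V := by
    have : x < V + 1 := by rw [hV]; exact Nat.lt_floor_add_one _
    linarith
  have hxlp : x * lp = E * t * L / (2 * m0) := by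
    rw [hx]
    field_simp
  -- the conditions
  have hgh : g ≤ h := by
    have : (g : ℝ) ≤ h := by linarith
    exact_mod_cast this
  have hgν : g ≤ ν := by
    have : (g : ℝ) ≤ ν := by linarith
    exact_mod_cast this
  have e1 : 141 * ν ≤ g * E := by
    have h1 : (141 : ℝ) * ν ≤ g * E := by
      have h2 : N * (141 * (ν : ℝ)) ≤ N * (g * E) := by
        calc N * (141 * (ν : ℝ)) ≤ N * (141 * (2.9 * (k * α))) := by
              apply mul_le_mul_of_nonneg_left _ hN0.le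
              linarith
          _ = 408.9 * (N * (k * α)) := by ring
          _ = 4089 * k * (E * L) := by rw [hkαE]; ring
          _ ≤ (θ * N / 2) * (E * L) := by
              apply mul_le_mul_of_nonneg_right _ hEL.le
              linarith
          _ = N * E * (θ / 2 * L) := by ring
          _ ≤ N * E * g := by
              apply mul_le_mul_of_nonneg_left _ (by positivity)
              linarith
          _ = _ := by ring
      exact le_of_mul_le_mul_left h2 hN0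
    exact_mod_cast h1
  have e2 : E * g ≤ 2 ^ (g / 4) * ν := by
    have h1 : N ≤ 2 ^ (g / 4) := by
      have h2 : 4 * N ≤ g := by
        have : (4 : ℝ) * N ≤ g := by linarith
        exact_mod_cast this
      have h3 : N ≤ g / 4 := by omega
      exact h3.trans Nat.lt_two_pow_self.le
    have h2 : (E : ℝ) * g ≤ N * ν := by
      calc (E : ℝ) * g ≤ E * (3 / 5 * L) := mul_le_mul_of_nonneg_left hg4 hE0.le
        _ ≤ 20 * (k * (E * L)) := by
            have := mul_le_mul_of_nonneg_right hk1 hEL.le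
            linarith
        _ = N * (2 * (k * α)) := by
            rw [show (N : ℝ) * (2 * (k * α)) = 2 * (N * (k * α)) by ring, hkαE]; ring
        _ ≤ N * ν := mul_le_mul_of_nonneg_left (hν3.trans hν1.le) hN0.le
    have h3 : E * g ≤ N * ν := by exact_mod_cast h2
    exact h3.trans (Nat.mul_le_mul_right _ h1)
  have e3 : 20000 * h * ν ≤ V * g ^ 2 := by
    have h1 : (20000 : ℝ) * h * ν ≤ V * g ^ 2 := by
      have h2 : (20000 : ℝ) * h * ν ≤ 20000 * (6 * (k * μ)) * (2.9 * (k * α)) := by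
        apply mul_le_mul _ hν5 (Nat.cast_nonneg _) (by positivity)
        exact mul_le_mul_of_nonneg_left hh4 (by norm_num)
      have h3 : θ * N * (20000 * (6 * (k * μ)) * (2.9 * (k * α))) =
          10440000 * (k ^ 2 * t * E * L ^ 2) := by
        rw [hμ, hα]
        field_simp
        ring
      have h4 : (E : ℝ) * t * θ * L ^ 2 / (8 * m0) ≤ V * g ^ 2 := by
        calc (E : ℝ) * t * θ * L ^ 2 / (8 * m0) = (E * t * L / (2 * m0)) / 2 * (θ / 2 * L) := by
              field_simp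
              ring
          _ = x / 2 * lp * (θ / 2 * L) := by rw [← hxlp]; ring
          _ ≤ V * g * g := by
              apply mul_le_mul (mul_le_mul hVx hg3 hlp0.le (Nat.cast_nonneg _)) _ (by positivity)
                (by positivity)
              linarith
          _ = _ := by ring
      refine h2.trans (le_trans ?_ h4)
      have h5 : θ * N * (20000 * (6 * (k * μ)) * (2.9 * (k * α))) ≤
          θ * N * ((E : ℝ) * t * θ * L ^ 2 / (8 * m0)) := by
        rw [h3]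
        have h6 : θ * N * ((E : ℝ) * t * θ * L ^ 2 / (8 * m0)) =
            (θ ^ 2 * N) / (8 * m0) * (t * E * L ^ 2) := by
          field_simp
        have h7 : 10440000 * ((k : ℝ) ^ 2 * t * E * L ^ 2) =
            10440000 * (k : ℝ) ^ 2 * (t * E * L ^ 2) := by ring
        rw [h6, h7]
        apply mul_le_mul_of_nonneg_right _ (by positivity)
        rw [le_div_iff₀ (by positivity)]
        refine le_trans ?_ hN2
        have : 0 ≤ (k : ℝ) ^ 2 * m0 := by positivity
        linarith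
      exact le_of_mul_le_mul_left h5 (by positivity)
    exact_mod_cast h1
  rw [← hlp, ← hx, ← hμ, ← hα, ← hV] at hF
  refine card_rep (p := p) (V := V) (E := E) (m0 := m0) (G := G) (k := k) (g := g) (h := h)
    (ν := ν) (μ := μ) (α := α) hp hk (by omega) (lt_choose hk hp.one_lt.le) hgp hg8 hgh hgν
    hμ0.le hα0.le ?_ ?_ e1 e2 e3 F hF0 hF
  · rw [← hl]
    rwa [div_lt_iff₀ hl0] at hh1
  · rw [← hl]
    rwa [div_lt_iff₀ hl0] at hν1

end Pool.Agent.Y911.AA
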