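import Pool.Agent.Y911.AA.StrTwo

/-! The number of triples of the second kind. -/

set_option autoImplicit false

namespace Pool.Agent.Y911.AA

open Finset

/-- numerical conditions -/
theorem num_two {L : ℝ} (hL : 1000 ≤ L) {E D : ℕ} (hE : (1000000000 : ℝ) ≤ E)
    (hD : L / 10 ≤ Real.log D) :
    8 ≤ ⌊L / 8⌋₊ ∧ 2 ^ ⌊L / 8⌋₊ ≤ D ∧ ⌊L / 8⌋₊ ≤ ⌈3 * L⌉₊ ∧
      ⌊L / 8⌋₊ ≤ ⌈15 / 1000000000 * E * L⌉₊ ∧
      141 * ⌈15 / 1000000000 * E * L⌉₊ ≤ ⌊L / 8⌋₊ * E ∧
      E * ⌊L / 8⌋₊ ≤ 2 ^ (⌊L / 8⌋₊ / 4) * ⌈15 / 1000000000 * E * L⌉₊ ∧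
      20000 * ⌈3 * L⌉₊ * ⌈15 / 1000000000 * E * L⌉₊ ≤ E * ⌊L / 8⌋₊ ^ 2 := by
  obtain ⟨g, hg⟩ : ∃ g, g = ⌊L / 8⌋₊ := ⟨_, rfl⟩
  obtain ⟨ν, hν⟩ : ∃ ν, ν = ⌈15 / 1000000000 * (E : ℝ) * L⌉₊ := ⟨_, rfl⟩
  obtain ⟨h, hh⟩ : ∃ h, h = ⌈3 * L⌉₊ := ⟨_, rfl⟩
  rw [← hg, ← hν, ← hh]
  have hL0 : 0 < L := by linarith
  have hE0 : (0 : ℝ) < E := by linarith
  have g1 : (g : ℝ) ≤ L / 8 := by rw [hg]; exact Nat.floor_le (by positivity)
  have g2 : L / 8 < g + 1 := by rw [hg]; exact Nat.lt_floor_add_one _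
  have h1 : 3 * L ≤ h := by rw [hh]; exact Nat.le_ceil _
  have h2 : (h : ℝ) < 3 * L + 1 := by rw [hh]; exact Nat.ceil_lt_add_one (by positivity)
  have n1 : 15 / 1000000000 * E * L ≤ ν := by rw [hν]; exact Nat.le_ceil _
  have n2 : (ν : ℝ) < 15 / 1000000000 * E * L + 1 := by
    rw [hν]; exact Nat.ceil_lt_add_one (by positivity)
  have hEL : (1000000000 : ℝ) * L ≤ E * L := mul_le_mul_of_nonneg_right hE hL0.le
  have hgL : 0.12 * L ≤ g := by linarith
  have hg96 : 96 ≤ g := by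
    have : (96 : ℝ) ≤ g := by linarith
    exact_mod_cast this
  refine ⟨by omega, ?_, ?_, ?_, ?_, ?_, ?_⟩
  · have hD0 : (0 : ℝ) < D := by
      rcases Nat.eq_zero_or_pos D with h0 | h0
      · rw [h0, Nat.cast_zero, Real.log_zero] at hD
        linarith
      · exact_mod_cast h0
    have : ((2 : ℝ) ^ g) ≤ D := by
      rw [← Real.log_le_log_iff (by positivity) hD0, Real.log_pow]
      have h3 := Real.log_two_lt_d9
      have h4 : (g : ℝ) * Real.log 2 ≤ L / 8 * 0.7 :=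
        mul_le_mul g1 (by linarith) (Real.log_nonneg (by norm_num)) (by positivity)
      linarith
    exact_mod_cast this
  · have : (g : ℝ) ≤ h := by linarith
    exact_mod_cast this
  · have : (g : ℝ) ≤ ν := by linarith
    exact_mod_cast this
  · have h3 : (141 : ℝ) * ν ≤ g * E := by
      have h4 : 0.12 * L * E ≤ g * E := mul_le_mul_of_nonneg_right hgL hE0.le
      linarith
    exact_mod_cast h3
  · have h3 : (2 : ℝ) ^ 24 ≤ 2 ^ (g / 4) := pow_le_pow_right₀ (by norm_num) (by omega)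
    have h4 : (E : ℝ) * g ≤ 2 ^ (g / 4) * ν := by
      calc (E : ℝ) * g ≤ E * (L / 8) := mul_le_mul_of_nonneg_left g1 hE0.le
        _ ≤ 2 ^ 24 * (15 / 1000000000 * E * L) := by nlinarith
        _ ≤ 2 ^ (g / 4) * ν := mul_le_mul h3 n1 (by positivity) (by positivity)
    exact_mod_cast h4
  · have h3 : (20000 : ℝ) * h * ν ≤ E * (g : ℝ) ^ 2 := by
      have h4 : (h : ℝ) ≤ 4 * L := by linarith
      have h5 : (ν : ℝ) ≤ 16 / 1000000000 * (E * L) := by linarith
      have h6 : (0.12 * L) ^ 2 ≤ (g : ℝ) ^ 2 := pow_le_pow_left₀ (by positivity) hgL 2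
      calc (20000 : ℝ) * h * ν ≤ 20000 * (4 * L) * (16 / 1000000000 * (E * L)) := by gcongr
        _ = 0.00128 * (E * L ^ 2) := by ring
        _ ≤ 0.0144 * (E * L ^ 2) := by
            apply mul_le_mul_of_nonneg_right (by norm_num) (by positivity)
        _ = E * (0.12 * L) ^ 2 := by ring
        _ ≤ E * (g : ℝ) ^ 2 := mul_le_mul_of_nonneg_left h6 hE0.le
    exact_mod_cast h3

theorem log_top_le {E n m : ℕ} (hm : m ≠ 0) (h : n ∣ m) :
    Real.log (top E n : ℝ) ≤ Real.log (rad m : ℝ) := by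
  rw [log_top, log_rad]
  refine Finset.sum_le_sum_of_subset_of_nonneg ?_ ?_
  · exact (Finset.filter_subset _ _).trans (Nat.primeFactors_mono h hm)
  · intro q hq _
    exact Real.log_nonneg (by exact_mod_cast (Nat.prime_of_mem_primeFactors hq).one_lt.le)

theorem sq_lt_pow {x N : ℕ} {y : ℝ} (hx : 0 < x) (h : Real.log (x : ℝ) ≤ y)
    (hy : 2 * y < N * Real.log 2) : x ^ 2 < 2 ^ N := by
  have h0 : (0 : ℝ) < x := by exact_mod_cast hx
  have : ((x : ℝ) ^ 2) < 2 ^ N := by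
    rw [← Real.log_lt_log_iff (by positivity) (by positivity), Real.log_pow, Real.log_pow]
    push_cast
    linarith
  exact_mod_cast this

/-- **The number of triples of the second kind.** -/
theorem count_two : ∃ C : ℝ, 0 < C ∧ ∀ L : ℝ, 1000 ≤ L → ∀ F : Finset (ℕ × ℕ),
    (∀ p ∈ F, Data p.1 p.2 L (1 / 10 ^ 20) (1 / 10 ^ 20) (1 / 10 ^ 20) ∧
      (∀ q ∈ (p.1 * p.2 * (p.1 + p.2)).primeFactors, Real.log (q : ℝ) ≤ 1 / 10 ^ 20 * L) ∧
      L ≤ 1 / 1000000000 * Real.log ((p.1 + p.2 : ℕ) : ℝ) ∧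
      Real.log ((p.1 + p.2 : ℕ) : ℝ) ≤ Real.exp (3000 * (1 + L) ^ 6)) →
    (F.card : ℝ) ≤ C * (1 + L) ^ 6 * Real.exp (L / 2) := by
  classical
  refine ⟨10 ^ 16, by norm_num, fun L hL F hF => ?_⟩
  have hL0 : 0 < L := by linarith
  obtain ⟨S, hS⟩ : ∃ S : ℕ, S = ⌊(10 : ℝ) ^ 14 * (1 + L) ^ 6⌋₊ := ⟨_, rfl⟩
  obtain ⟨M, hM⟩ : ∃ M : ℕ, M = ⌊Real.exp (L / 4)⌋₊ := ⟨_, rfl⟩
  obtain ⟨ε, hε⟩ : ∃ ε : ℝ, ε = 1 / 1000000000 := ⟨_, rfl⟩
  have hε0 : 0 < ε := by rw [hε]; norm_num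
  -- the classes
  have hcls : ∀ p ∈ F, ∃ s ∈ Finset.range (S + 1), ∃ D ∈ Finset.range (M + 1),
      (1000000000 : ℝ) ≤ grid ε s ∧ L / 10 ≤ Real.log (D : ℝ) ∧
      Cls D (grid ε s) ⌈3 * L⌉₊ ⌈15 / 1000000000 * (grid ε s : ℝ) * L⌉₊ p := by
    intro p hp
    obtain ⟨T, hsm, hH, hH2⟩ := hF p hp
    rw [← hε] at hH
    have hH1 : 1 < Real.log ((p.1 + p.2 : ℕ) : ℝ) := by
      rw [hε] at hH
      linarith
    obtain ⟨s, h1, h2, h3, h4, D, h5, h6, h7⟩ := str_two (ε := ε) T hL0 (by positivity)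
      (by positivity) (by positivity) hε0 (by rw [hε]; norm_num) (by rw [hε]; norm_num) hsm hH hH1
    have ha := T.a0
    have hb : 0 < p.2 := lt_of_lt_of_le ha T.ab
    have hE : (1000000000 : ℝ) ≤ grid ε s := by
      refine le_trans (le_of_eq ?_) h2
      rw [hε]; norm_num
    have hD0 : (0 : ℝ) < D := by
      rcases Nat.eq_zero_or_pos D with h0 | h0
      · rw [h0, Nat.cast_zero, Real.log_zero] at h6
        linarith
      · exact_mod_cast h0
    refine ⟨s, ?_, D, ?_, hE, h6, ?_⟩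
    · rw [Finset.mem_range, Nat.lt_succ_iff, hS]
      refine Nat.le_floor (h1.trans ?_)
      have h8 : Real.log (3 * Real.log ((p.1 + p.2 : ℕ) : ℝ)) ≤ Real.log 3 + 3000 * (1 + L) ^ 6 := by
        rw [Real.log_mul (by norm_num) (by linarith)]
        have h9 : Real.log (Real.log ((p.1 + p.2 : ℕ) : ℝ)) ≤ 3000 * (1 + L) ^ 6 := by
          rw [Real.log_le_iff_le_exp (by linarith)]
          exact hH2
        linarith
      have h9 : Real.log 3 ≤ 2 := by
        have := Real.log_le_sub_one_of_pos (by norm_num : (0 : ℝ) < 3)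
        linarith
      have h10 : |Real.log (2 / L)| ≤ L + 1 := by
        rw [Real.log_div (by norm_num) (by positivity)]
        have e1 : Real.log L ≤ L - 1 := Real.log_le_sub_one_of_pos hL0
        have e2 : 0 ≤ Real.log L := Real.log_nonneg (by linarith)
        have e3 : 0 ≤ Real.log 2 := Real.log_nonneg (by norm_num)
        have e4 : Real.log 2 ≤ 1 := by linarith [Real.log_two_lt_d9]
        rw [abs_le]
        constructor <;> linarith
      have h11 : (1 : ℝ) + L ≤ (1 + L) ^ 6 := le_self_pow₀ (by linarith) (by norm_num)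
      have h12 : (1 : ℝ) ≤ (1 + L) ^ 6 := one_le_pow₀ (by linarith)
      have h13 : 2 / ε = 2000000000 := by rw [hε]; norm_num
      rw [h13]
      have h14 : (2000000000 : ℝ) * Real.log (3 * Real.log ((p.1 + p.2 : ℕ) : ℝ)) ≤
          2000000000 * (3002 * (1 + L) ^ 6) := by
        apply mul_le_mul_of_nonneg_left _ (by norm_num)
        linarith
      have h15 : (2000000000 : ℝ) * |Real.log (2 / L)| ≤ 2000000000 * (1 * (1 + L) ^ 6) := by
        apply mul_le_mul_of_nonneg_left _ (by norm_num)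
        linarith
      linarith
    · rw [Finset.mem_range, Nat.lt_succ_iff, hM]
      refine Nat.le_floor ?_
      rw [← Real.log_le_iff_le_exp hD0]
      refine h7.trans ?_
      linarith
    · have hl2 := Real.log_two_gt_d9
      have hh : 3 * L ≤ (⌈3 * L⌉₊ : ℝ) := Nat.le_ceil _
      have hν : 15 / 1000000000 * (grid ε s : ℝ) * L ≤
          (⌈15 / 1000000000 * (grid ε s : ℝ) * L⌉₊ : ℝ) := Nat.le_ceil _
      have hh2 : 2 * L < (⌈3 * L⌉₊ : ℝ) * Real.log 2 := by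
        calc 2 * L < 3 * L * Real.log 2 := by nlinarith
          _ ≤ _ := mul_le_mul_of_nonneg_right hh (by linarith)
      have hgL : 0 < (grid ε s : ℝ) * L := mul_pos (by linarith) hL0
      have hν2 : 2 * (5 * ε * grid ε s * L) <
          (⌈15 / 1000000000 * (grid ε s : ℝ) * L⌉₊ : ℝ) * Real.log 2 := by
        calc 2 * (5 * ε * grid ε s * L) = 10 / 1000000000 * ((grid ε s : ℝ) * L) := by
              conv_lhs => rw [show (5 : ℝ) * ε = 5 / 1000000000 by rw [hε]; norm_num]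
              ring
          _ < 15 / 1000000000 * (grid ε s : ℝ) * L * Real.log 2 := by nlinarith
          _ ≤ _ := mul_le_mul_of_nonneg_right hν (by linarith)
      have habc : p.1 * p.2 * (p.1 + p.2) ≠ 0 := by positivity
      exact
        { a0 := ha
          b0 := hb
          cop := T.cop
          dvd := h5
          tb := sq_lt_pow (top_pos _ _) ((log_top_le habc ((dvd_mul_left _ _).mul_right _)).trans
            T.radle) hh2
          tc := sq_lt_pow (top_pos _ _) ((log_top_le habc (dvd_mul_left _ _)).trans T.radle) hh2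
          lb := sq_lt_pow (low_pos hb) h3 hν2
          lc := sq_lt_pow (low_pos (by omega)) h4 hν2 }
  -- the count
  have hcard : F.card ≤ (S + 1) * ((M + 1) * M) := by
    obtain ⟨U, hU⟩ : ∃ U : ℕ × ℕ → Finset (ℕ × ℕ), U = fun sD => F.filter fun p =>
        (1000000000 : ℝ) ≤ grid ε sD.1 ∧ L / 10 ≤ Real.log (sD.2 : ℝ) ∧
        Cls sD.2 (grid ε sD.1) ⌈3 * L⌉₊ ⌈15 / 1000000000 * (grid ε sD.1 : ℝ) * L⌉₊ p := ⟨_, rfl⟩
    have h1 : F ⊆ ((Finset.range (S + 1)) ×ˢ (Finset.range (M + 1))).biUnion U := by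
      intro p hp
      obtain ⟨s, hs, D, hD, h2⟩ := hcls p hp
      rw [Finset.mem_biUnion]
      refine ⟨(s, D), Finset.mem_product.2 ⟨hs, hD⟩, ?_⟩
      rw [hU, Finset.mem_filter]
      exact ⟨hp, h2⟩
    have h2 : ∀ sD ∈ (Finset.range (S + 1)) ×ˢ (Finset.range (M + 1)), (U sD).card ≤ M := by
      intro sD hsD
      rcases (U sD).eq_empty_or_nonempty with h0 | ⟨p, hp⟩
      · rw [h0, Finset.card_empty]; exact Nat.zero_le _
      · rw [hU, Finset.mem_filter] at hp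
        obtain ⟨-, hE, hD, -⟩ := hp
        obtain ⟨n1, n2, n3, n4, n5, n6, n7⟩ := num_two hL hE hD
        have hE0 : grid ε sD.1 ≠ 0 := by
          intro h0
          rw [h0, Nat.cast_zero] at hE
          norm_num at hE
        have h3 := card_cls n1 n2 n3 n4 hE0 n5 n6 n7 (U sD) (fun p hp => by
          rw [hU, Finset.mem_filter] at hp
          exact hp.2.2.2)
        rw [Finset.mem_product, Finset.mem_range, Finset.mem_range] at hsD
        omega
    refine (Finset.card_le_card h1).trans (Finset.card_biUnion_le.trans ?_)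
    refine (Finset.sum_le_sum h2).trans ?_
    rw [Finset.sum_const, Finset.card_product, Finset.card_range, Finset.card_range, smul_eq_mul,
      mul_assoc]
  have hMr : (M : ℝ) ≤ Real.exp (L / 4) := by rw [hM]; exact Nat.floor_le (Real.exp_pos _).le
  have hSr : (S : ℝ) ≤ 10 ^ 14 * (1 + L) ^ 6 := by rw [hS]; exact Nat.floor_le (by positivity)
  have he1 : 1 ≤ Real.exp (L / 4) := Real.one_le_exp (by positivity)
  have hL6 : (1 : ℝ) ≤ (1 + L) ^ 6 := one_le_pow₀ (by linarith)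
  calc (F.card : ℝ) ≤ (((S + 1) * ((M + 1) * M) : ℕ) : ℝ) := by exact_mod_cast hcard
    _ = ((S : ℝ) + 1) * ((M + 1) * M) := by push_cast; ring
    _ ≤ (2 * 10 ^ 14 * (1 + L) ^ 6) * ((2 * Real.exp (L / 4)) * Real.exp (L / 4)) := by
        have e1 : (S : ℝ) + 1 ≤ 2 * 10 ^ 14 * (1 + L) ^ 6 := by linarith
        have e2 : (M : ℝ) + 1 ≤ 2 * Real.exp (L / 4) := by linarith
        gcongr
    _ = 4 * 10 ^ 14 * (1 + L) ^ 6 * Real.exp (L / 2) := by
        have : Real.exp (L / 2) = Real.exp (L / 4) * Real.exp (L / 4) := by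
          rw [← Real.exp_add]; congr 1; ring
        rw [this]; ring
    _ ≤ 10 ^ 16 * (1 + L) ^ 6 * Real.exp (L / 2) := by
        have : 0 ≤ (1 + L) ^ 6 * Real.exp (L / 2) := by positivity
        nlinarith

end Pool.Agent.Y911.AA
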