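import Pool.Agent.Y911.AA.ClsOne

/-! The number of triples of the first kind. -/

set_option autoImplicit false

namespace Pool.Agent.Y911.AA

open Finset

/-- the bound of `class_one` -/
theorem class_bound {k m0 G : ℕ} {lp L : ℝ} (hm0 : 1 ≤ m0) (hk : k = 4 * m0) (hlp0 : 0 ≤ lp)
    (hlp : lp ≤ 2 / 5 * L) :
    ((((k + ⌊(k : ℝ) * Real.exp (lp / k)⌋₊ + 1) ^ m0 * m0.factorial) *
      ((G + 1) ^ m0) ^ 2 : ℕ) : ℝ) ≤
      ((2 * k + 1) ^ m0 * m0.factorial * ((G + 1) ^ m0) ^ 2) * Real.exp (L / 10) := by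
  have hm : (0 : ℝ) < m0 := by exact_mod_cast hm0
  have hkr : (k : ℝ) = 4 * m0 := by rw [hk]; push_cast; ring
  have hk0 : (0 : ℝ) < k := by rw [hkr]; positivity
  have h1 : (1 : ℝ) ≤ Real.exp (lp / k) := Real.one_le_exp (by positivity)
  have h2 : ((⌊(k : ℝ) * Real.exp (lp / k)⌋₊ : ℕ) : ℝ) ≤ k * Real.exp (lp / k) :=
    Nat.floor_le (by positivity)
  have h3 : (k : ℝ) + (⌊(k : ℝ) * Real.exp (lp / k)⌋₊ : ℕ) + 1 ≤ (2 * k + 1) * Real.exp (lp / k) := by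
    have := mul_le_mul_of_nonneg_left h1 (by positivity : 0 ≤ (k : ℝ) + 1)
    linarith
  have h4 : ((k : ℝ) + (⌊(k : ℝ) * Real.exp (lp / k)⌋₊ : ℕ) + 1) ^ m0 ≤
      (2 * k + 1) ^ m0 * Real.exp (L / 10) := by
    calc ((k : ℝ) + (⌊(k : ℝ) * Real.exp (lp / k)⌋₊ : ℕ) + 1) ^ m0 ≤
          ((2 * k + 1) * Real.exp (lp / k)) ^ m0 := pow_le_pow_left₀ (by positivity) h3 _
      _ = (2 * k + 1) ^ m0 * Real.exp (m0 * (lp / k)) := by rw [mul_pow, ← Real.exp_nat_mul]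
      _ ≤ (2 * k + 1) ^ m0 * Real.exp (L / 10) := by
          apply mul_le_mul_of_nonneg_left _ (by positivity)
          apply Real.exp_le_exp.2
          rw [hkr]
          have : (m0 : ℝ) * (lp / (4 * m0)) = lp / 4 := by field_simp
          rw [this]
          linarith
  push_cast
  calc ((k : ℝ) + (⌊(k : ℝ) * Real.exp (lp / k)⌋₊ : ℕ) + 1) ^ m0 * (m0.factorial : ℝ) *
        (((G : ℝ) + 1) ^ m0) ^ 2 ≤
        ((2 * k + 1) ^ m0 * Real.exp (L / 10)) * (m0.factorial : ℝ) * (((G : ℝ) + 1) ^ m0) ^ 2 := by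
        apply mul_le_mul_of_nonneg_right _ (by positivity)
        exact mul_le_mul_of_nonneg_right h4 (by positivity)
    _ = _ := by ring

theorem exists_par (θ : ℝ) (hθ : 0 < θ) :
    ∃ (m0 k N G : ℕ) (η κ K : ℝ), 1 ≤ m0 ∧ 2 ≤ θ * m0 ∧ k = 4 * m0 ∧ 1 ≤ k ∧ 2 ≤ N ∧
      16400 * (k : ℝ) ≤ θ * N ∧ 2 * 10 ^ 8 * (k : ℝ) ^ 2 * m0 ≤ θ ^ 2 * N ∧
      0 < η ∧ η ≤ 1 / 4 ∧ 6 * η * N ^ m0 / θ ≤ 1 / N ∧ 0 < κ ∧ 2 * κ * N ^ m0 ≤ 1 / N ∧
      3 * (N : ℝ) ^ m0 / θ ≤ G ∧ 4 ≤ K ∧ (N : ℝ) ^ m0 / η ≤ K ∧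
      2 * (N : ℝ) ^ m0 * (N + 2 * m0) ≤ K := by
  obtain ⟨m0, hm0⟩ : ∃ m0 : ℕ, 2 / θ ≤ m0 := exists_nat_ge _
  have hm0' : 2 ≤ θ * m0 := by
    rw [div_le_iff₀ hθ] at hm0
    linarith
  have hm1 : 1 ≤ m0 := by
    rcases Nat.eq_zero_or_pos m0 with h | h
    · rw [h, Nat.cast_zero, mul_zero] at hm0'
      norm_num at hm0'
    · exact h
  obtain ⟨N, hN⟩ : ∃ N : ℕ, 2 + 16400 * ((4 * m0 : ℕ) : ℝ) / θ +
      2 * 10 ^ 8 * ((4 * m0 : ℕ) : ℝ) ^ 2 * m0 / θ ^ 2 ≤ N := exists_nat_ge _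
  have hp1 : 0 ≤ 16400 * ((4 * m0 : ℕ) : ℝ) / θ := by positivity
  have hp2 : 0 ≤ 2 * 10 ^ 8 * ((4 * m0 : ℕ) : ℝ) ^ 2 * m0 / θ ^ 2 := by positivity
  have hN2 : (2 : ℝ) ≤ N := by linarith
  have hN0 : (0 : ℝ) < N := by linarith
  obtain ⟨G, hG⟩ : ∃ G : ℕ, 3 * (N : ℝ) ^ m0 / θ ≤ G := exists_nat_ge _
  obtain ⟨η, hη⟩ : ∃ η : ℝ, η = min (1 / 4) (θ / (6 * N ^ (m0 + 1))) := ⟨_, rfl⟩
  have hη0 : 0 < η := by rw [hη]; exact lt_min (by norm_num) (by positivity)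
  refine ⟨m0, 4 * m0, N, G, η, 1 / (2 * N ^ (m0 + 1)),
    4 + (N : ℝ) ^ m0 / η + 2 * (N : ℝ) ^ m0 * (N + 2 * m0), hm1, hm0', rfl, by omega,
    by exact_mod_cast hN2, ?_, ?_, hη0, ?_, ?_, by positivity, ?_, hG, ?_, ?_, ?_⟩
  · have h1 : 16400 * ((4 * m0 : ℕ) : ℝ) / θ ≤ N := by linarith
    rw [div_le_iff₀ hθ] at h1
    linarith
  · have h1 : 2 * 10 ^ 8 * ((4 * m0 : ℕ) : ℝ) ^ 2 * m0 / θ ^ 2 ≤ N := by linarith
    rw [div_le_iff₀ (by positivity)] at h1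
    linarith
  · rw [hη]; exact min_le_left _ _
  · have h1 : η ≤ θ / (6 * N ^ (m0 + 1)) := by rw [hη]; exact min_le_right _ _
    calc 6 * η * N ^ m0 / θ ≤ 6 * (θ / (6 * N ^ (m0 + 1))) * N ^ m0 / θ := by
          rw [div_le_div_iff_of_pos_right hθ]
          apply mul_le_mul_of_nonneg_right _ (by positivity)
          linarith
      _ = 1 / N := by
          rw [pow_succ]
          field_simp
  · refine le_of_eq ?_
    rw [pow_succ]
    field_simp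
  · have h1 : 0 ≤ (N : ℝ) ^ m0 / η := by positivity
    have h2 : 0 ≤ 2 * (N : ℝ) ^ m0 * (N + 2 * m0) := by positivity
    linarith
  · have h2 : 0 ≤ 2 * (N : ℝ) ^ m0 * (N + 2 * m0) := by positivity
    linarith
  · have h1 : 0 ≤ (N : ℝ) ^ m0 / η := by positivity
    linarith

/-- **The number of triples of the first kind.** -/
theorem count_one (θ : ℝ) (hθ : 0 < θ) (hθ1 : θ ≤ 1) : ∃ κ K L₀ C : ℝ, 0 < κ ∧ 0 < C ∧
    ∀ L : ℝ, L₀ ≤ L → ∀ F : Finset (ℕ × ℕ), (∀ x ∈ F, DataI x.1 x.2 L θ κ ∧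
      K * L ≤ Real.log ((x.1 + x.2 : ℕ) : ℝ) ∧
      Real.log ((x.1 + x.2 : ℕ) : ℝ) ≤ Real.exp (3000 * (1 + L) ^ 6)) →
    (F.card : ℝ) ≤ C * (1 + L) ^ 6 * Real.exp (L / 2) := by
  classical
  obtain ⟨m0, k, N, G, η, κ, K, hm1, hm0, hk, hk1, hN2, hN3, hN4, hη, hη4, hη2, hκ, hκ2, hG, hK4,
    hK1, hK2⟩ := exists_par θ hθ
  obtain ⟨B, hB⟩ : ∃ B : ℝ, B = (2 * k + 1) ^ m0 * m0.factorial * ((G + 1) ^ m0) ^ 2 := ⟨_, rfl⟩
  have hB0 : 0 < B := by rw [hB]; positivity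
  have hN0 : (0 : ℝ) < N := by exact_mod_cast (by omega : 0 < N)
  have hNm : (1 : ℝ) ≤ (N : ℝ) ^ m0 := one_le_pow₀ (by exact_mod_cast (by omega : 1 ≤ N))
  refine ⟨κ, K, 1 + 8 * N / θ + 100 / θ, (N : ℝ) ^ m0 * (6000 / η + 1) * B, hκ, by positivity,
    fun L hL F hF => ?_⟩
  have hq1 : 0 ≤ 8 * (N : ℝ) / θ := by positivity
  have hq2 : 0 ≤ 100 / θ := by positivity
  have hL1 : 1 ≤ L := by linarith
  have hL0 : 0 < L := by linarith
  have hLa : 8 * N ≤ θ * L := by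
    have : 8 * N / θ ≤ L := by linarith
    rw [div_le_iff₀ hθ] at this
    linarith
  have hLb : 100 ≤ θ * L := by
    have : 100 / θ ≤ L := by linarith
    rw [div_le_iff₀ hθ] at this
    linarith
  obtain ⟨S, hS⟩ : ∃ S, S = ⌊6000 / η * (1 + L) ^ 6⌋₊ := ⟨_, rfl⟩
  obtain ⟨M, hM⟩ : ∃ M, M = ⌊Real.exp (2 / 5 * L)⌋₊ := ⟨_, rfl⟩
  obtain ⟨U, hU⟩ : ∃ U : ℕ × ℕ × ℕ → Finset (ℕ × ℕ), U = fun y => F.filter fun x =>
      1 ≤ y.1 ∧ y.2.2.Prime ∧ θ / 2 * L < Real.log y.2.2 ∧ Real.log y.2.2 ≤ 2 / 5 * L ∧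
      N ≤ grid η y.2.1 ∧ 2 * m0 ≤ grid η y.2.1 ∧
      ∃ m₁ m₂ A B, Rep y.2.2 ⌊grid η y.2.1 * y.1 * L / (2 * m0 * Real.log y.2.2)⌋₊
        (grid η y.2.1) m0 G (3 * y.1 / θ * L) (10 / N * grid η y.2.1 * L) x m₁ m₂ A B := ⟨_, rfl⟩
  obtain ⟨Y, hY⟩ : ∃ Y, Y = (Finset.Icc 1 (N ^ m0)) ×ˢ ((Finset.range (S + 1)) ×ˢ
      (Finset.Icc 1 M)) := ⟨_, rfl⟩
  have h1 : F ⊆ Y.biUnion U := by
    intro x hx
    obtain ⟨T, hx1, hx2⟩ := hF x hx
    obtain ⟨H, hH⟩ : ∃ H, H = Real.log ((x.1 + x.2 : ℕ) : ℝ) := ⟨_, rfl⟩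
    rw [← hH] at hx1 hx2
    have hHL : K ≤ H / L := by rw [le_div_iff₀ hL0]; exact hx1
    have hH4 : 4 ≤ H := by nlinarith
    obtain ⟨t, s, p, ht1, ht2, hs, hp, hp1, hp2, hZ, hR⟩ := str_one T hL0 hθ hθ1 hm0 hN2 hη hη4 hη2
      hκ2 hκ.le hG (by rw [← hH]; exact hK1.trans hHL) (by rw [← hH]; exact hH4)
    rw [← hH] at hs hZ
    have hgE : (N : ℝ) + 2 * m0 ≤ grid η s := by
      have e1 : (t : ℝ) ≤ (N : ℝ) ^ m0 := by exact_mod_cast ht2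
      have e2 : 2 * (t : ℝ) * grid η s ≤ 2 * (N : ℝ) ^ m0 * grid η s :=
        mul_le_mul_of_nonneg_right (by linarith) (Nat.cast_nonneg _)
      have e3 : 2 * (N : ℝ) ^ m0 * (N + 2 * m0) ≤ 2 * (N : ℝ) ^ m0 * grid η s := by linarith
      exact le_of_mul_le_mul_left e3 (by positivity)
    have hm00 : (0 : ℝ) ≤ m0 := Nat.cast_nonneg _
    rw [Finset.mem_biUnion]
    refine ⟨(t, s, p), ?_, ?_⟩
    · rw [hY, Finset.mem_product, Finset.mem_product, Finset.mem_Icc, Finset.mem_range,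
        Finset.mem_Icc, Nat.lt_succ_iff]
      refine ⟨⟨ht1, ht2⟩, ?_, hp.one_lt.le, ?_⟩
      · rw [hS]
        refine Nat.le_floor (hs.trans ?_)
        have e1 : Real.log (H / L) ≤ 3000 * (1 + L) ^ 6 := by
          calc Real.log (H / L) ≤ Real.log H := by
                apply Real.log_le_log (by positivity)
                exact div_le_self (by linarith) hL1
            _ ≤ 3000 * (1 + L) ^ 6 := by
                rw [Real.log_le_iff_le_exp (by linarith)]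
                exact hx2
        calc 2 / η * Real.log (H / L) ≤ 2 / η * (3000 * (1 + L) ^ 6) :=
              mul_le_mul_of_nonneg_left e1 (by positivity)
          _ = 6000 / η * (1 + L) ^ 6 := by ring
      · rw [hM]
        refine Nat.le_floor ?_
        rw [← Real.log_le_iff_le_exp (by exact_mod_cast hp.pos)]
        exact hp2
    · rw [hU, Finset.mem_filter]
      refine ⟨hx, ht1, hp, hp1, hp2, ?_, ?_, hR⟩
      · have : (N : ℝ) ≤ grid η s := by linarith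
        exact_mod_cast this
      · have : 2 * (m0 : ℝ) ≤ grid η s := by linarith
        exact_mod_cast this
  have h2 : ∀ y ∈ Y, ((U y).card : ℝ) ≤ B * Real.exp (L / 10) := by
    intro y hy
    rcases (U y).eq_empty_or_nonempty with h0 | ⟨x, hx⟩
    · rw [h0, Finset.card_empty, Nat.cast_zero]; positivity
    · rw [hU, Finset.mem_filter] at hx
      obtain ⟨-, ht1, hp, hp1, hp2, hg1, hg2, -⟩ := hx
      have h3 := class_one (G := G) hθ hθ1 hm1 hk1 hN3 hN4 ht1 hg1 hg2 hp hp1 hp2 hLa hLb (U y)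
        (fun x hx => by
          rw [hU, Finset.mem_filter] at hx
          have T := (hF x hx.1).1
          exact ⟨T.a0, lt_of_lt_of_le T.a0 T.ab, T.cop⟩)
        (fun x hx => by
          rw [hU, Finset.mem_filter] at hx
          exact hx.2.2.2.2.2.2.2)
      have h4 := class_bound (k := k) (m0 := m0) (G := G) (lp := Real.log y.2.2) (L := L) hm1 hk
        (Real.log_nonneg (by exact_mod_cast hp.one_lt.le)) hp2
      rw [hB]
      exact le_trans (by exact_mod_cast h3) h4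
  have h3 : (F.card : ℝ) ≤ Y.card * (B * Real.exp (L / 10)) := by
    calc (F.card : ℝ) ≤ ((Y.biUnion U).card : ℝ) := by exact_mod_cast Finset.card_le_card h1
      _ ≤ ((∑ y ∈ Y, (U y).card : ℕ) : ℝ) := by exact_mod_cast Finset.card_biUnion_le
      _ = ∑ y ∈ Y, ((U y).card : ℝ) := by push_cast; rfl
      _ ≤ ∑ _y ∈ Y, B * Real.exp (L / 10) := Finset.sum_le_sum h2
      _ = _ := by rw [Finset.sum_const, nsmul_eq_mul]
  have hMr : (M : ℝ) ≤ Real.exp (2 / 5 * L) := by rw [hM]; exact Nat.floor_le (Real.exp_pos _).le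
  have hSr : (S : ℝ) ≤ 6000 / η * (1 + L) ^ 6 := by rw [hS]; exact Nat.floor_le (by positivity)
  have hL6 : (1 : ℝ) ≤ (1 + L) ^ 6 := one_le_pow₀ (by linarith)
  have hYc : (Y.card : ℝ) ≤ N ^ m0 * (((6000 / η + 1) * (1 + L) ^ 6) * Real.exp (2 / 5 * L)) := by
    rw [hY, Finset.card_product, Finset.card_product, Nat.card_Icc, Finset.card_range,
      Nat.card_Icc]
    rw [Nat.add_sub_cancel, Nat.add_sub_cancel]
    push_cast
    apply mul_le_mul_of_nonneg_left _ (by positivity)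
    apply mul_le_mul _ hMr (Nat.cast_nonneg _) (by positivity)
    linarith
  calc (F.card : ℝ) ≤ Y.card * (B * Real.exp (L / 10)) := h3
    _ ≤ N ^ m0 * (((6000 / η + 1) * (1 + L) ^ 6) * Real.exp (2 / 5 * L)) *
        (B * Real.exp (L / 10)) := mul_le_mul_of_nonneg_right hYc (by positivity)
    _ = (N : ℝ) ^ m0 * (6000 / η + 1) * B * (1 + L) ^ 6 *
        (Real.exp (2 / 5 * L) * Real.exp (L / 10)) := by ring
    _ = _ := by
        rw [← Real.exp_add]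
        congr 2
        ring

end Pool.Agent.Y911.AA
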