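import Pool.Agent.Y911.AA.Bridge
import Pool.Agent.TH498.AR.Fin

/-! Almost all abc triples of all heights, ordered by radical, satisfy `c < rad (abc) ^ (1/3 + ε)`:
the bound for the number of the others. -/

set_option autoImplicit false

namespace Pool.Agent.Y911.AA

open Finset Pool.Agent.Results.MP_1ea25c_nt.AlmostAllTriples

/-- the triples of radical at most `X` and of any height with `c ≥ rad (abc) ^ M` -/
def viol (M X : ℝ) : Set (ℕ × ℕ) :=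
  {p | p ∈ triples X ∧ (rad3 p : ℝ) ^ M ≤ ((p.1 + p.2 : ℕ) : ℝ)}

theorem DataI.mono {a b : ℕ} {L θ κ κ' : ℝ} (h : DataI a b L θ κ) (hκ : κ ≤ κ') :
    DataI a b L θ κ' := by
  refine ⟨h.a0, h.ab, h.cop, h.radle, fun n hn => (h.light n hn).trans ?_, h.nsb⟩
  apply mul_le_mul_of_nonneg_right hκ
  have ha := h.a0
  exact Real.log_nonneg (by exact_mod_cast (by omega : 1 ≤ a + b))

theorem poly_le {L : ℝ} (hL : 0 ≤ L) :
    (1 + L) ^ 6 ≤ (12 ^ 6 * 720 * Real.exp 1) * Real.exp (L / 12) := by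
  have h1 := Real.pow_div_factorial_le_exp ((1 + L) / 12) (by positivity) 6
  have h2 : ((Nat.factorial 6 : ℕ) : ℝ) = 720 := by norm_num [Nat.factorial]
  rw [h2, div_pow, div_div, div_le_iff₀ (by positivity)] at h1
  have h3 : Real.exp ((1 + L) / 12) ≤ Real.exp 1 * Real.exp (L / 12) := by
    rw [← Real.exp_add]
    exact Real.exp_le_exp.2 (by linarith)
  calc (1 + L) ^ 6 ≤ Real.exp ((1 + L) / 12) * (12 ^ 6 * 720) := h1
    _ ≤ (Real.exp 1 * Real.exp (L / 12)) * (12 ^ 6 * 720) :=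
        mul_le_mul_of_nonneg_right h3 (by norm_num)
    _ = _ := by ring

theorem rad3_one {p : ℕ × ℕ} : (1 : ℝ) ≤ rad3 p := by exact_mod_cast rad3_pos p

theorem small_mono {δ δ' : ℝ} (h : δ' ≤ δ) {p : ℕ × ℕ} (hs : HasSmall δ p) : HasSmall δ' p := by
  obtain ⟨i, hi⟩ := hs
  exact ⟨i, hi.trans (Real.rpow_le_rpow_of_exponent_le rad3_one (by linarith))⟩

/-- **The bound for the violators.** -/
theorem saving {ε : ℝ} (hε : 0 < ε) : ∃ ν C : ℝ, 0 < ν ∧ ν < 2 / 3 ∧ 0 < C ∧ ∀ X : ℝ, 1 ≤ X →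
    ((viol (1 / 3 + ε) X).ncard : ℝ) ≤ C * X ^ (2 / 3 - ν) := by
  classical
  obtain ⟨e, he⟩ : ∃ e : ℝ, e = min ε 1 := ⟨_, rfl⟩
  have he0 : 0 < e := by rw [he]; exact lt_min hε one_pos
  have he1 : e ≤ 1 := by rw [he]; exact min_le_right _ _
  have heε : e ≤ ε := by rw [he]; exact min_le_left _ _
  obtain ⟨τ, hτ⟩ : ∃ τ : ℝ, τ = 3 * e / 8 := ⟨_, rfl⟩
  have hτ0 : 0 < τ := by rw [hτ]; positivity
  have hτ1 : τ ≤ 3 / 8 := by rw [hτ]; linarith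
  obtain ⟨η, hη⟩ : ∃ η : ℝ, η = min (e / 2) (2 / 21) := ⟨_, rfl⟩
  have hη0 : 0 < η := by rw [hη]; exact lt_min (by positivity) (by norm_num)
  have hη1 : η ≤ 2 / 21 := by rw [hη]; exact min_le_right _ _
  have hηe : η ≤ e / 2 := by rw [hη]; exact min_le_left _ _
  obtain ⟨θ, hθ⟩ : ∃ θ : ℝ, θ = 1 / 10 ^ 20 := ⟨_, rfl⟩
  have hθ0 : 0 < θ := by rw [hθ]; positivity
  have hθ1 : θ ≤ 1 / 30 := by rw [hθ]; norm_num
  obtain ⟨κI, KI, LI, C6, hκI, hC6, hone⟩ := count_one θ hθ0 (by linarith)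
  obtain ⟨C5, hC5, htwo⟩ := count_two
  obtain ⟨κ', hκ'⟩ : ∃ κ' : ℝ, κ' = min κI (1 / 2) := ⟨_, rfl⟩
  have hκ0 : 0 < κ' := by rw [hκ']; exact lt_min hκI (by norm_num)
  have hκ1 : κ' ≤ κI := by rw [hκ']; exact min_le_left _ _
  have hκ2 : κ' ≤ 1 / 2 := by rw [hκ']; exact min_le_right _ _
  obtain ⟨K, hK⟩ : ∃ K : ℝ, K = max KI 1000000000 := ⟨_, rfl⟩
  have hK1 : KI ≤ K := by rw [hK]; exact le_max_left _ _
  have hK2 : 1000000000 ≤ K := by rw [hK]; exact le_max_right _ _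
  obtain ⟨ν3, C3, hν3, hC3, h3⟩ := upper (θ / 4) κ' e (by positivity) hκ0 he0
  obtain ⟨ν2, C2, hν2, hC2, h2⟩ := upper2 θ θ hθ0 (by linarith) hθ0
  obtain ⟨C1, hC1, h1⟩ := Pool.Agent.TH867.SB.all_heights (τ / 3) (by positivity)
  obtain ⟨C4, hC4, h4⟩ := Pool.Agent.TH498.AR.large_set K η hη0 hη1
  obtain ⟨ν, hν⟩ : ∃ ν : ℝ, ν = min (min (τ / 3) (η / 2)) (min (min ν2 ν3) (1 / 12)) := ⟨_, rfl⟩
  have hν0 : 0 < ν := by
    rw [hν]
    exact lt_min (lt_min (by positivity) (by positivity)) (lt_min (lt_min hν2 hν3) (by norm_num))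
  have v1 : ν ≤ τ / 3 := by rw [hν]; exact (min_le_left _ _).trans (min_le_left _ _)
  have v4 : ν ≤ η / 2 := by rw [hν]; exact (min_le_left _ _).trans (min_le_right _ _)
  have v2 : ν ≤ ν2 := by
    rw [hν]; exact (min_le_right _ _).trans ((min_le_left _ _).trans (min_le_left _ _))
  have v3 : ν ≤ ν3 := by
    rw [hν]; exact (min_le_right _ _).trans ((min_le_left _ _).trans (min_le_right _ _))
  have v5 : ν ≤ 1 / 12 := by rw [hν]; exact (min_le_right _ _).trans (min_le_right _ _)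
  obtain ⟨L1, hL1⟩ : ∃ L1 : ℝ, L1 = max 1000 LI := ⟨_, rfl⟩
  have hL11 : 1000 ≤ L1 := by rw [hL1]; exact le_max_left _ _
  have hL12 : LI ≤ L1 := by rw [hL1]; exact le_max_right _ _
  obtain ⟨B, hB⟩ : ∃ B : ℝ, B = 12 ^ 6 * 720 * Real.exp 1 := ⟨_, rfl⟩
  have hB0 : 0 < B := by rw [hB]; positivity
  obtain ⟨C8, hC8⟩ : ∃ C8 : ℝ, C8 = ((triples (Real.exp L1)).ncard : ℝ) := ⟨_, rfl⟩
  have hC80 : 0 ≤ C8 := by rw [hC8]; exact Nat.cast_nonneg _
  refine ⟨ν, C8 + (C1 + C2 + C3 + C4 + C5 * B + C6 * B), hν0, by linarith, by positivity,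
    fun X hX => ?_⟩
  have hX0 : 0 < X := by linarith
  have hXp : 0 ≤ X ^ (2 / 3 - ν) := by positivity
  have hXp1 : 1 ≤ X ^ (2 / 3 - ν) := Real.one_le_rpow hX (by linarith)
  have hCs : 0 ≤ C1 + C2 + C3 + C4 + C5 * B + C6 * B := by positivity
  rcases lt_or_ge X (Real.exp L1) with hXs | hXL
  · -- small `X`
    have hsub : viol (1 / 3 + ε) X ⊆ triples (Real.exp L1) := fun p hp =>
      ⟨hp.1.1, hp.1.2.1, hp.1.2.2.1, hp.1.2.2.2.trans hXs.le⟩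
    have h5 : ((viol (1 / 3 + ε) X).ncard : ℝ) ≤ C8 := by
      rw [hC8]
      exact_mod_cast Set.ncard_le_ncard hsub (triples_finite (Real.one_le_exp (by linarith)))
    calc ((viol (1 / 3 + ε) X).ncard : ℝ) ≤ C8 := h5
      _ ≤ (C8 + (C1 + C2 + C3 + C4 + C5 * B + C6 * B)) * 1 := by linarith
      _ ≤ _ := mul_le_mul_of_nonneg_left hXp1 (by linarith)
  obtain ⟨L, hL⟩ : ∃ L, L = Real.log X := ⟨_, rfl⟩
  have hLL1 : L1 ≤ L := by
    rw [hL, Real.le_log_iff_exp_le hX0]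
    exact hXL
  have hL1000 : 1000 ≤ L := by linarith
  have hfin : (viol (1 / 3 + ε) X).Finite := (triples_finite hX).subset fun p hp => hp.1
  rw [Set.ncard_eq_toFinset_card _ hfin]
  obtain ⟨F, hF⟩ : ∃ F, F = hfin.toFinset := ⟨_, rfl⟩
  rw [← hF]
  have hFm : ∀ p ∈ F, p ∈ viol (1 / 3 + ε) X := fun p hp => by
    rw [hF, Set.Finite.mem_toFinset] at hp
    exact hp
  obtain ⟨Z, hZ⟩ : ∃ Z : ℝ, Z = X ^ (1 - τ) := ⟨_, rfl⟩
  have hZ0 : 0 < Z := by rw [hZ]; positivity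
  have hZ1 : 1 ≤ Z := by rw [hZ]; exact Real.one_le_rpow hX (by linarith)
  have hlogZ : Real.log Z = (1 - τ) * L := by rw [hZ, Real.log_rpow hX0, ← hL]
  -- the facts on a member of `F`
  have hfact : ∀ p ∈ F, Real.log (rad3 p : ℝ) ≤ L ∧
      Real.log ((p.1 + p.2 : ℕ) : ℝ) ≤ Real.exp (3000 * (1 + L) ^ 6) ∧
      (rad3 p : ℝ) ^ (1 / 3 + e) ≤ ((p.1 + p.2 : ℕ) : ℝ) ∧ (0 : ℝ) < ((p.1 + p.2 : ℕ) : ℝ) := by
    intro p hp
    have hv := hFm p hp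
    have ht := hv.1
    refine ⟨?_, ?_, ?_, ?_⟩
    · rw [hL]
      exact Real.log_le_log (by exact_mod_cast rad3_pos p) ht.2.2.2
    · rw [hL]
      exact Pool.Agent.TH867.SM.height_le (toT_tr ht).1 hX (toT_le ht)
    · exact (Real.rpow_le_rpow_of_exponent_le rad3_one (by linarith)).trans hv.2
    · have := ht.1
      exact_mod_cast (by omega : 0 < p.1 + p.2)
  have hlarge : ∀ p ∈ F, Z < (rad3 p : ℝ) → X ^ (1 / 3 + η) ≤ ((p.1 + p.2 : ℕ) : ℝ) := by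
    intro p hp hZp
    refine le_trans ?_ (hfact p hp).2.2.1
    calc X ^ (1 / 3 + η) ≤ X ^ ((1 - τ) * (1 / 3 + e)) := by
          refine Real.rpow_le_rpow_of_exponent_le hX ?_
          rw [hτ]
          have : e * e ≤ e * 1 := mul_le_mul_of_nonneg_left he1 he0.le
          linarith
      _ = Z ^ (1 / 3 + e) := by rw [hZ, ← Real.rpow_mul hX0.le]
      _ ≤ _ := Real.rpow_le_rpow hZ0.le hZp.le (by linarith)
  -- the six parts
  obtain ⟨F1, hF1⟩ : ∃ F1, F1 = F.filter fun p : ℕ × ℕ => (rad3 p : ℝ) ≤ Z := ⟨_, rfl⟩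
  obtain ⟨F4, hF4⟩ : ∃ F4, F4 = F.filter fun p : ℕ × ℕ => Z < (rad3 p : ℝ) ∧
    ((p.1 + p.2 : ℕ) : ℝ) ≤ X ^ K := ⟨_, rfl⟩
  obtain ⟨F2, hF2⟩ : ∃ F2, F2 = F.filter fun p : ℕ × ℕ => HasSmall θ p ∨ HasDivisor θ θ p :=
    ⟨_, rfl⟩
  obtain ⟨F3, hF3⟩ : ∃ F3, F3 = F.filter fun p : ℕ × ℕ => Unequal (θ / 4) κ' p := ⟨_, rfl⟩
  obtain ⟨F5, hF5⟩ : ∃ F5, F5 = F.filter fun p : ℕ × ℕ => Z < (rad3 p : ℝ) ∧
    X ^ K < ((p.1 + p.2 : ℕ) : ℝ) ∧ ¬ (HasSmall θ p ∨ HasDivisor θ θ p) ∧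
    ∀ q ∈ (p.1 * p.2 * (p.1 + p.2)).primeFactors, Real.log (q : ℝ) ≤ θ * L := ⟨_, rfl⟩
  obtain ⟨F6, hF6⟩ : ∃ F6, F6 = F.filter fun p : ℕ × ℕ =>
    X ^ K < ((p.1 + p.2 : ℕ) : ℝ) ∧ ¬ HasSmall θ p ∧ ¬ Unequal (θ / 4) κ' p ∧
    ∃ q ∈ (p.1 * p.2 * (p.1 + p.2)).primeFactors, θ * L < Real.log (q : ℝ) := ⟨_, rfl⟩
  have hcov : F ⊆ F1 ∪ F4 ∪ F2 ∪ F3 ∪ F5 ∪ F6 := by
    intro p hp
    simp only [Finset.mem_union]
    by_cases c1 : (rad3 p : ℝ) ≤ Z
    · exact Or.inl (Or.inl (Or.inl (Or.inl (Or.inl (by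
        rw [hF1]; exact Finset.mem_filter.2 ⟨hp, c1⟩)))))
    have c1' : Z < (rad3 p : ℝ) := not_le.1 c1
    by_cases c4 : ((p.1 + p.2 : ℕ) : ℝ) ≤ X ^ K
    · exact Or.inl (Or.inl (Or.inl (Or.inl (Or.inr (by
        rw [hF4]; exact Finset.mem_filter.2 ⟨hp, c1', c4⟩)))))
    have c4' : X ^ K < ((p.1 + p.2 : ℕ) : ℝ) := not_le.1 c4
    by_cases c2 : HasSmall θ p ∨ HasDivisor θ θ p
    · exact Or.inl (Or.inl (Or.inl (Or.inr (by
        rw [hF2]; exact Finset.mem_filter.2 ⟨hp, c2⟩))))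
    by_cases c3 : Unequal (θ / 4) κ' p
    · exact Or.inl (Or.inl (Or.inr (by
        rw [hF3]; exact Finset.mem_filter.2 ⟨hp, c3⟩)))
    by_cases c5 : ∀ q ∈ (p.1 * p.2 * (p.1 + p.2)).primeFactors, Real.log (q : ℝ) ≤ θ * L
    · exact Or.inl (Or.inr (by
        rw [hF5]; exact Finset.mem_filter.2 ⟨hp, c1', c4', c2, c5⟩))
    · refine Or.inr ?_
      rw [hF6]
      refine Finset.mem_filter.2 ⟨hp, c4', fun h => c2 (Or.inl h), c3, ?_⟩
      by_contra hcon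
      refine c5 fun q hq => ?_
      by_contra h
      exact hcon ⟨q, hq, not_le.1 h⟩
  have hcard : (F.card : ℝ) ≤ F1.card + F4.card + F2.card + F3.card + F5.card + F6.card := by
    have a0 := Finset.card_le_card hcov
    have a1 := Finset.card_union_le (F1 ∪ F4 ∪ F2 ∪ F3 ∪ F5) F6
    have a2 := Finset.card_union_le (F1 ∪ F4 ∪ F2 ∪ F3) F5
    have a3 := Finset.card_union_le (F1 ∪ F4 ∪ F2) F3
    have a4 := Finset.card_union_le (F1 ∪ F4) F2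
    have a5 := Finset.card_union_le F1 F4
    have : F.card ≤ F1.card + F4.card + F2.card + F3.card + F5.card + F6.card := by omega
    exact_mod_cast this
  have b1 : (F1.card : ℝ) ≤ C1 * X ^ (2 / 3 - ν) := by
    have h5 := h1 Z hZ1 (F1.image toT) (fun t ht => by
      obtain ⟨p, hp, rfl⟩ := Finset.mem_image.1 ht
      rw [hF1, Finset.mem_filter] at hp
      have h6 := toT_tr (hFm p hp.1).1
      refine ⟨h6.1, ?_⟩
      rw [h6.2]
      exact Real.log_le_log (by exact_mod_cast rad3_pos p) hp.2)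
    rw [Finset.card_image_of_injective _ toT_inj] at h5
    refine h5.trans (mul_le_mul_of_nonneg_left ?_ hC1.le)
    rw [hZ, ← Real.rpow_mul hX0.le]
    refine Real.rpow_le_rpow_of_exponent_le hX ?_
    have : 0 ≤ τ * τ := mul_self_nonneg τ
    linarith
  have b4 : (F4.card : ℝ) ≤ C4 * X ^ (2 / 3 - ν) := by
    have hsub : (F4 : Set (ℕ × ℕ)) ⊆ {p | p ∈ Pool.Agent.TH498.AR.TT X (X ^ K) ∧
        X ^ (1 / 3 + η) ≤ ((p.1 + p.2 : ℕ) : ℝ)} := by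
      intro p hp
      rw [Finset.mem_coe, hF4, Finset.mem_filter] at hp
      obtain ⟨hp1, hp2, hp3⟩ := hp
      have ht := (hFm p hp1).1
      exact ⟨⟨ht.1, ht.2.1, ht.2.2.1, ht.2.2.2, hp3⟩, hlarge p hp1 hp2⟩
    have h5 := Set.ncard_le_ncard hsub
      ((Pool.Agent.TH498.AR.TT_finite X (X ^ K)).subset fun p hp => hp.1)
    rw [Set.ncard_coe_finset] at h5
    calc (F4.card : ℝ) ≤ _ := by exact_mod_cast h5
      _ ≤ _ := h4 X hX
      _ ≤ C4 * X ^ (2 / 3 - ν) := by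
          apply mul_le_mul_of_nonneg_left _ hC4.le
          exact Real.rpow_le_rpow_of_exponent_le hX (by linarith)
  have b2 : (F2.card : ℝ) ≤ C2 * X ^ (2 / 3 - ν) := by
    have hsub : (F2 : Set (ℕ × ℕ)) ⊆ special θ θ X := by
      intro p hp
      rw [Finset.mem_coe, hF2, Finset.mem_filter] at hp
      exact ⟨(hFm p hp.1).1, hp.2⟩
    have h5 := Set.ncard_le_ncard hsub ((triples_finite hX).subset fun p hp => hp.1)
    rw [Set.ncard_coe_finset] at h5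
    calc (F2.card : ℝ) ≤ _ := by exact_mod_cast h5
      _ ≤ _ := h2 X hX
      _ ≤ C2 * X ^ (2 / 3 - ν) := by
          apply mul_le_mul_of_nonneg_left _ hC2.le
          exact Real.rpow_le_rpow_of_exponent_le hX (by linarith)
  have b3 : (F3.card : ℝ) ≤ C3 * X ^ (2 / 3 - ν) := by
    have hsub : (F3 : Set (ℕ × ℕ)) ⊆ violators (θ / 4) κ' (1 / 3 + e) X := by
      intro p hp
      rw [Finset.mem_coe, hF3, Finset.mem_filter] at hp
      exact ⟨⟨(hFm p hp.1).1, hp.2⟩, (hfact p hp.1).2.2.1⟩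
    have h5 := Set.ncard_le_ncard hsub ((triples_finite hX).subset fun p hp => hp.1.1)
    rw [Set.ncard_coe_finset] at h5
    calc (F3.card : ℝ) ≤ _ := by exact_mod_cast h5
      _ ≤ _ := h3 X hX
      _ ≤ C3 * X ^ (2 / 3 - ν) := by
          apply mul_le_mul_of_nonneg_left _ hC3.le
          exact Real.rpow_le_rpow_of_exponent_le hX (by linarith)
  have hKlog : ∀ p ∈ F, X ^ K < ((p.1 + p.2 : ℕ) : ℝ) →
      K * L ≤ Real.log ((p.1 + p.2 : ℕ) : ℝ) := by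
    intro p hp h
    rw [hL, ← Real.log_rpow hX0]
    exact Real.log_le_log (by positivity) h.le
  have hpoly : ∀ C : ℝ, 0 ≤ C → C * (1 + L) ^ 6 * Real.exp (L / 2) ≤ (C * B) * X ^ (2 / 3 - ν) := by
    intro C hC
    have h5 := poly_le (L := L) (by linarith)
    rw [← hB] at h5
    have h6 : Real.exp (L / 12) * Real.exp (L / 2) ≤ X ^ (2 / 3 - ν) := by
      rw [← Real.exp_add, Real.rpow_def_of_pos hX0, ← hL]
      apply Real.exp_le_exp.2
      have : 0 ≤ L * (1 / 12 - ν) := mul_nonneg (by linarith) (by linarith)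
      linarith
    calc C * (1 + L) ^ 6 * Real.exp (L / 2) ≤ C * (B * Real.exp (L / 12)) * Real.exp (L / 2) := by
          apply mul_le_mul_of_nonneg_right _ (Real.exp_pos _).le
          exact mul_le_mul_of_nonneg_left h5 hC
      _ = (C * B) * (Real.exp (L / 12) * Real.exp (L / 2)) := by ring
      _ ≤ _ := mul_le_mul_of_nonneg_left h6 (by positivity)
  have b5 : (F5.card : ℝ) ≤ C5 * B * X ^ (2 / 3 - ν) := by
    refine (htwo L hL1000 F5 fun p hp => ?_).trans (hpoly C5 hC5.le)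
    rw [hF5, Finset.mem_filter] at hp
    obtain ⟨hp1, hp2, hp3, hp4, hp5⟩ := hp
    have ht := (hFm p hp1).1
    obtain ⟨f1, f2, f3, f4⟩ := hfact p hp1
    have hKL := hKlog p hp1 hp3
    have hR : (1 - τ) * L ≤ Real.log (rad3 p : ℝ) := by
      rw [← hlogZ]
      exact Real.log_le_log hZ0 hp2.le
    refine ⟨?_, ?_, ?_, f2⟩
    · rw [← hθ]
      refine data_of ht.1 ht.2.1 ht.2.2.1 f1 ?_ (fun h => hp4 (Or.inl h)) (fun h => hp4 (Or.inr h))
      have : 0 ≤ (1 / 2 - τ) * L := mul_nonneg (by linarith) (by linarith)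
      linarith
    · rw [← hθ]
      exact hp5
    · have : 1000000000 * L ≤ K * L := mul_le_mul_of_nonneg_right hK2 (by linarith)
      linarith
  have b6 : (F6.card : ℝ) ≤ C6 * B * X ^ (2 / 3 - ν) := by
    refine (hone L (by linarith) F6 fun p hp => ?_).trans (hpoly C6 hC6.le)
    rw [hF6, Finset.mem_filter] at hp
    obtain ⟨hp1, hp3, hp4, hp5, hp6⟩ := hp
    have ht := (hFm p hp1).1
    obtain ⟨f1, f2, f3, f4⟩ := hfact p hp1
    have hKL := hKlog p hp1 hp3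
    have hL0 : 0 ≤ L := by linarith
    have hK' : 1000000000 * L ≤ K * L := mul_le_mul_of_nonneg_right hK2 hL0
    have hc4 : 4 ≤ p.1 + p.2 := by
      have h5 : Real.log (4 : ℝ) ≤ Real.log ((p.1 + p.2 : ℕ) : ℝ) := by
        have := Real.log_le_sub_one_of_pos (by norm_num : (0 : ℝ) < 4)
        linarith
      have h6 : (4 : ℝ) ≤ ((p.1 + p.2 : ℕ) : ℝ) := (Real.log_le_log_iff (by norm_num) f4).1 h5
      exact_mod_cast h6
    refine ⟨DataI.mono (dataI_of hθ0 hL0 rfl hκ2 ht.1 ht.2.1 hc4 ht.2.2.1 f1 hp5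
      (fun h => hp4 (small_mono hθ1 h)) hp6) hκ1, ?_, f2⟩
    exact (mul_le_mul_of_nonneg_right hK1 hL0).trans hKL
  calc (F.card : ℝ) ≤ F1.card + F4.card + F2.card + F3.card + F5.card + F6.card := hcard
    _ ≤ C1 * X ^ (2 / 3 - ν) + C4 * X ^ (2 / 3 - ν) + C2 * X ^ (2 / 3 - ν) +
        C3 * X ^ (2 / 3 - ν) + C5 * B * X ^ (2 / 3 - ν) + C6 * B * X ^ (2 / 3 - ν) := by
        linarith
    _ = (C1 + C2 + C3 + C4 + C5 * B + C6 * B) * X ^ (2 / 3 - ν) := by ring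
    _ ≤ _ := mul_le_mul_of_nonneg_right (by linarith) hXp

end Pool.Agent.Y911.AA
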