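import Pool.Agent.Y911.AA.Two

/-! Two triples with a common modulus: they are equal. -/

set_option autoImplicit false

namespace Pool.Agent.Y911.AA

open Finset

/-- a relation modulo a high power of `D`: `m₁ ^ E B ≡ m₂ ^ E A` -/
structure Rel (D V E m₁ m₂ A B : ℕ) : Prop where
  m₁0 : 0 < m₁
  m₂0 : 0 < m₂
  A0 : 0 < A
  B0 : 0 < B
  cm₁ : Nat.Coprime m₁ D
  cm₂ : Nat.Coprime m₂ D
  cA : Nat.Coprime A D
  cB : Nat.Coprime B D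
  rel : m₁ ^ E * B ≡ m₂ ^ E * A [MOD D ^ V]

theorem Rel.one {D V E : ℕ} : Rel D V E 1 1 1 1 :=
  ⟨one_pos, one_pos, one_pos, one_pos, Nat.coprime_one_left _, Nat.coprime_one_left _,
    Nat.coprime_one_left _, Nat.coprime_one_left _, Nat.ModEq.refl _⟩

theorem Rel.mul {D V E m₁ m₂ A B m₁' m₂' A' B' : ℕ} (h : Rel D V E m₁ m₂ A B)
    (h' : Rel D V E m₁' m₂' A' B') : Rel D V E (m₁ * m₁') (m₂ * m₂') (A * A') (B * B') := by
  refine ⟨Nat.mul_pos h.m₁0 h'.m₁0, Nat.mul_pos h.m₂0 h'.m₂0, Nat.mul_pos h.A0 h'.A0,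
    Nat.mul_pos h.B0 h'.B0, h.cm₁.mul_left h'.cm₁, h.cm₂.mul_left h'.cm₂,
    h.cA.mul_left h'.cA, h.cB.mul_left h'.cB, ?_⟩
  have := h.rel.mul h'.rel
  have e1 : (m₁ * m₁') ^ E * (B * B') = m₁ ^ E * B * (m₁' ^ E * B') := by rw [mul_pow]; ring
  have e2 : (m₂ * m₂') ^ E * (A * A') = m₂ ^ E * A * (m₂' ^ E * A') := by rw [mul_pow]; ring
  rw [e1, e2]
  exact this

theorem Rel.swap {D V E m₁ m₂ A B : ℕ} (h : Rel D V E m₁ m₂ A B) : Rel D V E m₂ m₁ B A :=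
  ⟨h.m₂0, h.m₁0, h.B0, h.A0, h.cm₂, h.cm₁, h.cB, h.cA, h.rel.symm⟩

/-- **Rigidity of relations.** -/
theorem Rel.core {D V E m₁ m₂ A B g h ν : ℕ} (H : Rel D V E m₁ m₂ A B) (hD : 2 ^ g ≤ D)
    (hg : 8 ≤ g) (hgh : g ≤ h) (hgν : g ≤ ν) (h1 : m₁ < 2 ^ h) (h2 : m₂ < 2 ^ h)
    (h3 : A < 2 ^ ν) (h4 : B < 2 ^ ν) (hm : m₁ ≡ m₂ [MOD D])
    (e1 : 141 * ν ≤ g * E) (e2 : E * g ≤ 2 ^ (g / 4) * ν) (e3 : 20000 * h * ν ≤ V * g ^ 2) :
    m₁ = m₂ ∧ A = B :=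
  Pool.Agent.Y911.AA.core hD hg hgh hgν H.m₁0 H.m₂0 H.A0 H.B0 h1 h2 h3 h4 H.cm₁ H.cm₂ H.cA H.cB
    hm H.rel e1 e2 e3

/-- a triple `a + b = c` with `D ^ V ∣ a`, `b = m₁ ^ E n₁`, `c = m₂ ^ E n₂` gives a relation -/
theorem Rel.of_zero {D V E a b c m₁ m₂ n₁ n₂ : ℕ} (habc : a + b = c) (hab : Nat.Coprime a b)
    (hb0 : 0 < b) (hV : V ≠ 0) (hD : D ^ V ∣ a) (hb : b = m₁ ^ E * n₁) (hc : c = m₂ ^ E * n₂)
    (hE : E ≠ 0) : Rel D V E m₁ m₂ n₂ n₁ := by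
  have hbD : Nat.Coprime b D := by
    have h1 : Nat.Coprime (D ^ V) b := Nat.Coprime.coprime_dvd_left hD hab
    exact ((Nat.coprime_pow_left_iff (Nat.pos_of_ne_zero hV) _ _).1 h1).symm
  have hcD : Nat.Coprime c D := by
    have h1 : Nat.Coprime a c := by rw [← habc]; simpa using hab
    have h2 : Nat.Coprime (D ^ V) c := Nat.Coprime.coprime_dvd_left hD h1
    exact ((Nat.coprime_pow_left_iff (Nat.pos_of_ne_zero hV) _ _).1 h2).symm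
  have hc0 : 0 < c := by omega
  have pos_l : ∀ {x m n : ℕ}, 0 < x → x = m ^ E * n → 0 < m := by
    intro x m n hx h
    rcases Nat.eq_zero_or_pos m with h0 | h0
    · rw [h, h0, zero_pow hE, zero_mul] at hx
      omega
    · exact h0
  have pos_r : ∀ {x m n : ℕ}, 0 < x → x = m ^ E * n → 0 < n := by
    intro x m n hx h
    rcases Nat.eq_zero_or_pos n with h0 | h0
    · rw [h, h0, mul_zero] at hx
      omega
    · exact h0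
  refine ⟨pos_l hb0 hb, pos_l hc0 hc, pos_r hc0 hc, pos_r hb0 hb, ?_, ?_, ?_, ?_, ?_⟩
  · exact Nat.Coprime.coprime_dvd_left ((dvd_pow_self m₁ hE).trans (hb ▸ Dvd.intro _ rfl)) hbD
  · exact Nat.Coprime.coprime_dvd_left ((dvd_pow_self m₂ hE).trans (hc ▸ Dvd.intro _ rfl)) hcD
  · exact Nat.Coprime.coprime_dvd_left (hc ▸ Dvd.intro_left _ rfl) hcD
  · exact Nat.Coprime.coprime_dvd_left (hb ▸ Dvd.intro_left _ rfl) hbD
  · rw [← hb, ← hc, ← habc]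
    obtain ⟨u, hu⟩ := hD
    rw [hu]
    exact (Nat.modEq_iff_dvd.2 (by push_cast; exact ⟨u, by ring⟩))

/-- two triples with the same modulus `D` and congruent quotients are equal -/
theorem pair_eq {D E g h ν a b c a' b' c' m₁ m₂ n₁ n₂ m₁' m₂' n₁' n₂' : ℕ}
    (habc : a + b = c) (hab : Nat.Coprime a b) (hb0 : 0 < b) (hD : D ^ E ∣ a)
    (hb : b = m₁ ^ E * n₁) (hc : c = m₂ ^ E * n₂)
    (habc' : a' + b' = c') (hab' : Nat.Coprime a' b') (hb0' : 0 < b') (hD' : D ^ E ∣ a')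
    (hb' : b' = m₁' ^ E * n₁') (hc' : c' = m₂' ^ E * n₂')
    (hg : 8 ≤ g) (hgD : 2 ^ g ≤ D) (hgh : g ≤ h) (hgν : g ≤ ν)
    (s1 : m₁ * m₂' < 2 ^ h) (s2 : m₂ * m₁' < 2 ^ h) (s3 : n₂ * n₁' < 2 ^ ν)
    (s4 : n₁ * n₂' < 2 ^ ν) (hm : m₁ * m₂' ≡ m₂ * m₁' [MOD D]) (hE : E ≠ 0)
    (e1 : 141 * ν ≤ g * E) (e2 : E * g ≤ 2 ^ (g / 4) * ν) (e3 : 20000 * h * ν ≤ E * g ^ 2) :
    a = a' ∧ b = b' := by
  have R := Rel.of_zero habc hab hb0 hE hD hb hc hE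
  have R' := Rel.of_zero habc' hab' hb0' hE hD' hb' hc' hE
  obtain ⟨h1, h2⟩ := (R.mul R'.swap).core hgD hg hgh hgν s1 s2 s3 s4 hm e1 e2 e3
  -- `b c' = b' c`
  have h3 : b * c' = b' * c := by
    rw [hb, hc', hb', hc]
    calc m₁ ^ E * n₁ * (m₂' ^ E * n₂') = (m₁ * m₂') ^ E * (n₁ * n₂') := by rw [mul_pow]; ring
      _ = (m₂ * m₁') ^ E * (n₂ * n₁') := by rw [h1, h2]
      _ = _ := by rw [mul_pow]; ring
  have h4 : b * a' = b' * a := by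
    rw [← habc, ← habc', mul_add, mul_add] at h3
    have : b * b' = b' * b := mul_comm _ _
    omega
  have hd1 : b ∣ b' := by
    have : b ∣ b' * a := ⟨a', h4.symm⟩
    exact (hab.symm.dvd_of_dvd_mul_right this)
  have hd2 : b' ∣ b := by
    have : b' ∣ b * a' := ⟨a, h4⟩
    exact (hab'.symm.dvd_of_dvd_mul_right this)
  have hbb : b = b' := Nat.dvd_antisymm hd1 hd2
  refine ⟨?_, hbb⟩
  rw [← hbb] at h4
  exact (Nat.eq_of_mul_eq_mul_left hb0 h4).symm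

end Pool.Agent.Y911.AA
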