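import Pool.Agent.Y911.AA.Top
import Pool.Agent.H520R2.Sun

/-! The number of triples with a common modulus `p ^ V` whose quotient is, up to a small factor, an
`E`-th power of a rational number with few prime factors. -/

set_option autoImplicit false

namespace Pool.Agent.Y911.AA

open Finset

theorem Rel.prod {ι : Type*} {D V E : ℕ} (I : Finset ι) (m₁ m₂ A B : ι → ℕ)
    (h : ∀ i ∈ I, Rel D V E (m₁ i) (m₂ i) (A i) (B i)) :
    Rel D V E (∏ i ∈ I, m₁ i) (∏ i ∈ I, m₂ i) (∏ i ∈ I, A i) (∏ i ∈ I, B i) := by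
  classical
  induction I using Finset.induction_on with
  | empty => simpa using Rel.one
  | insert i I hi ih =>
    rw [Finset.prod_insert hi, Finset.prod_insert hi, Finset.prod_insert hi, Finset.prod_insert hi]
    exact (h i (Finset.mem_insert_self _ _)).mul (ih fun j hj => h j (Finset.mem_insert_of_mem hj))

/-- the quotient `(a + b) / a` is `(m₁ / m₂) ^ E (B / A)` -/
structure Rep (p V E m0 G : ℕ) (μ α : ℝ) (x : ℕ × ℕ) (m₁ m₂ A B : ℕ) : Prop where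
  rel : Rel p V E m₁ m₂ A B
  eq : (x.1 + x.2) * (m₂ ^ E * A) = x.1 * (m₁ ^ E * B)
  cop : Nat.Coprime m₁ m₂
  card : (m₁ * m₂).primeFactors.card ≤ m0
  ex₁ : ∀ q, m₁.factorization q ≤ G
  ex₂ : ∀ q, m₂.factorization q ≤ G
  l₁ : Real.log m₁ ≤ μ
  l₂ : Real.log m₂ ≤ μ
  lA : Real.log A ≤ α
  lB : Real.log B ≤ α

theorem lt_two_pow {x N : ℕ} {y : ℝ} (hx : 0 < x) (h : Real.log (x : ℝ) ≤ y)
    (hy : y < N * Real.log 2) : x < 2 ^ N := by
  have h0 : (0 : ℝ) < x := by exact_mod_cast hx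
  have : (x : ℝ) < 2 ^ N := by
    rw [← Real.log_lt_log_iff h0 (by positivity), Real.log_pow]
    linarith
  exact_mod_cast this

theorem log_prod_le {ι : Type*} (I : Finset ι) (f : ι → ℕ) (μ : ℝ) (hf : ∀ i ∈ I, 0 < f i)
    (h : ∀ i ∈ I, Real.log (f i : ℝ) ≤ μ) :
    Real.log ((∏ i ∈ I, f i : ℕ) : ℝ) ≤ I.card * μ := by
  rw [Nat.cast_prod, Real.log_prod (fun i hi => by exact_mod_cast (hf i hi).ne')]
  refine (Finset.sum_le_sum h).trans (le_of_eq ?_)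
  rw [Finset.sum_const, nsmul_eq_mul]

/-- two triples with the same data -/
theorem rep_inj {p V E m0 G : ℕ} {μ α : ℝ} {x y : ℕ × ℕ} {m₁ m₂ A B A' B' : ℕ}
    (hx : 0 < x.1 ∧ 0 < x.2 ∧ Nat.Coprime x.1 x.2) (hy : 0 < y.1 ∧ 0 < y.2 ∧ Nat.Coprime y.1 y.2)
    (R : Rep p V E m0 G μ α x m₁ m₂ A B) (R' : Rep p V E m0 G μ α y m₁ m₂ A' B')
    (h : A * B' = B * A') : x = y := by
  obtain ⟨hx1, hx2, hxc⟩ := hx
  obtain ⟨hy1, hy2, hyc⟩ := hy
  have h1 := R.eq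
  have h2 := R'.eq
  -- `(a + b) a' = (a' + b') a`
  have h3 : (x.1 + x.2) * y.1 = (y.1 + y.2) * x.1 := by
    have hpos : 0 < m₁ ^ E * m₂ ^ E * (A * B') := by
      have := R.rel.m₁0
      have := R.rel.m₂0
      have := R.rel.A0
      have := R'.rel.B0
      positivity
    apply Nat.eq_of_mul_eq_mul_right hpos
    calc (x.1 + x.2) * y.1 * (m₁ ^ E * m₂ ^ E * (A * B')) =
        ((x.1 + x.2) * (m₂ ^ E * A)) * (y.1 * (m₁ ^ E * B')) := by ring
      _ = (x.1 * (m₁ ^ E * B)) * ((y.1 + y.2) * (m₂ ^ E * A')) := by rw [h1, h2]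
      _ = (y.1 + y.2) * x.1 * (m₁ ^ E * m₂ ^ E * (B * A')) := by ring
      _ = _ := by rw [h]
  have h4 : x.2 * y.1 = y.2 * x.1 := by
    rw [add_mul, add_mul] at h3
    have : x.1 * y.1 = y.1 * x.1 := mul_comm _ _
    omega
  have d1 : x.1 ∣ y.1 := by
    have : x.1 ∣ x.2 * y.1 := ⟨y.2, by rw [h4]; ring⟩
    exact hxc.dvd_of_dvd_mul_left this
  have d2 : y.1 ∣ x.1 := by
    have : y.1 ∣ y.2 * x.1 := ⟨x.2, by rw [← h4]; ring⟩
    exact hyc.dvd_of_dvd_mul_left this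
  have e1 : x.1 = y.1 := Nat.dvd_antisymm d1 d2
  rw [e1] at h4
  exact Prod.ext e1 (Nat.eq_of_mul_eq_mul_right hy1 h4)

/-- the number of pairs `(m₁, m₂)` with given support and bounded exponents -/
theorem card_supp {ι : Type*} [DecidableEq ι] (F : Finset ι) (m₁ m₂ : ι → ℕ) (S : Finset ℕ)
    (G m0 : ℕ) (hS : S.card ≤ m0) (h0 : ∀ x ∈ F, m₁ x ≠ 0 ∧ m₂ x ≠ 0)
    (hsup : ∀ x ∈ F, (m₁ x).primeFactors ⊆ S ∧ (m₂ x).primeFactors ⊆ S)
    (hG : ∀ x ∈ F, ∀ q, (m₁ x).factorization q ≤ G ∧ (m₂ x).factorization q ≤ G)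
    (hinj : ∀ x ∈ F, ∀ y ∈ F, m₁ x = m₁ y → m₂ x = m₂ y → x = y) :
    F.card ≤ ((G + 1) ^ m0) ^ 2 := by
  classical
  obtain ⟨f, hf⟩ : ∃ f : ι → (S → Fin (G + 1)) × (S → Fin (G + 1)), f = fun x =>
      (fun q => ⟨min ((m₁ x).factorization q) G, by omega⟩,
        fun q => ⟨min ((m₂ x).factorization q) G, by omega⟩) := ⟨_, rfl⟩
  have hfinj : Set.InjOn f F := by
    intro x hx y hy hxy
    rw [hf] at hxy
    simp only [Prod.mk.injEq, funext_iff, Fin.mk.injEq] at hxy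
    obtain ⟨e1, e2⟩ := hxy
    have key : ∀ {u v : ℕ}, u ≠ 0 → v ≠ 0 → u.primeFactors ⊆ S → v.primeFactors ⊆ S →
        (∀ q, u.factorization q ≤ G) → (∀ q, v.factorization q ≤ G) →
        (∀ q : S, min (u.factorization q) G = min (v.factorization q) G) → u = v := by
      intro u v hu hv hu1 hv1 hu2 hv2 huv
      refine Nat.eq_of_factorization_eq hu hv fun q => ?_
      by_cases hq : q ∈ S
      · have := huv ⟨q, hq⟩
        rw [min_eq_left (hu2 q), min_eq_left (hv2 q)] at this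
        exact this
      · have z1 : u.factorization q = 0 := by
          by_contra hcon
          exact hq (hu1 (by rw [← Nat.support_factorization]; exact Finsupp.mem_support_iff.2 hcon))
        have z2 : v.factorization q = 0 := by
          by_contra hcon
          exact hq (hv1 (by rw [← Nat.support_factorization]; exact Finsupp.mem_support_iff.2 hcon))
        rw [z1, z2]
    refine hinj x hx y hy ?_ ?_
    · exact key (h0 x hx).1 (h0 y hy).1 (hsup x hx).1 (hsup y hy).1 (fun q => (hG x hx q).1)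
        (fun q => (hG y hy q).1) e1
    · exact key (h0 x hx).2 (h0 y hy).2 (hsup x hx).2 (hsup y hy).2 (fun q => (hG x hx q).2)
        (fun q => (hG y hy q).2) e2
  have h1 : F.card ≤ (univ : Finset ((S → Fin (G + 1)) × (S → Fin (G + 1)))).card :=
    Finset.card_le_card_of_injOn f (fun _ _ => mem_univ _) hfinj
  refine h1.trans ?_
  rw [Finset.card_univ, Fintype.card_prod, Fintype.card_fun, Fintype.card_fin, Fintype.card_coe,
    pow_two]
  exact Nat.mul_le_mul (Nat.pow_le_pow_right (by omega) hS) (Nat.pow_le_pow_right (by omega) hS)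

/-- **The number of triples of a class.** -/
theorem card_rep {p V E m0 G k s g h ν : ℕ} {μ α : ℝ} (hp : p.Prime) (hk : 1 ≤ k) (hs : 1 ≤ s)
    (hsk : p < (s - 1).choose k) (hgp : 2 ^ g ≤ p) (hg : 8 ≤ g) (hgh : g ≤ h) (hgν : g ≤ ν)
    (hμ0 : 0 ≤ μ) (hα0 : 0 ≤ α)
    (hμ : 2 * k * μ < h * Real.log 2) (hα : 2 * k * α < ν * Real.log 2)
    (e1 : 141 * ν ≤ g * E) (e2 : E * g ≤ 2 ^ (g / 4) * ν) (e3 : 20000 * h * ν ≤ V * g ^ 2)
    (F : Finset (ℕ × ℕ)) (hF0 : ∀ x ∈ F, 0 < x.1 ∧ 0 < x.2 ∧ Nat.Coprime x.1 x.2)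
    (hF : ∀ x ∈ F, ∃ m₁ m₂ A B, Rep p V E m0 G μ α x m₁ m₂ A B) :
    F.card ≤ (s ^ m0 * m0.factorial) * ((G + 1) ^ m0) ^ 2 := by
  classical
  choose! m₁ m₂ A B HR using hF
  have hfact : Fact p.Prime := ⟨hp⟩
  have hl2 : 0 < Real.log 2 := Real.log_pos (by norm_num)
  have hk1 : (1 : ℝ) ≤ k := by exact_mod_cast hk
  -- injectivity
  have hinj : ∀ x ∈ F, ∀ y ∈ F, m₁ x = m₁ y → m₂ x = m₂ y → x = y := by
    intro x hx y hy h1 h2
    have R := HR x hx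
    have R' := HR y hy
    rw [← h1, ← h2] at R'
    have hc := (R.rel.mul R'.rel.swap).core hgp hg hgh hgν
      (lt_two_pow (y := μ + μ) (Nat.mul_pos R.rel.m₁0 R.rel.m₂0) (by
        rw [Nat.cast_mul, Real.log_mul (by exact_mod_cast R.rel.m₁0.ne')
          (by exact_mod_cast R.rel.m₂0.ne')]
        exact add_le_add R.l₁ R.l₂) (by nlinarith))
      (lt_two_pow (y := μ + μ) (Nat.mul_pos R.rel.m₂0 R.rel.m₁0) (by
        rw [Nat.cast_mul, Real.log_mul (by exact_mod_cast R.rel.m₂0.ne')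
          (by exact_mod_cast R.rel.m₁0.ne')]
        exact add_le_add R.l₂ R.l₁) (by nlinarith))
      (lt_two_pow (y := α + α) (Nat.mul_pos R.rel.A0 R'.rel.B0) (by
        rw [Nat.cast_mul, Real.log_mul (by exact_mod_cast R.rel.A0.ne')
          (by exact_mod_cast R'.rel.B0.ne')]
        exact add_le_add R.lA R'.lB) (by nlinarith))
      (lt_two_pow (y := α + α) (Nat.mul_pos R.rel.B0 R'.rel.A0) (by
        rw [Nat.cast_mul, Real.log_mul (by exact_mod_cast R.rel.B0.ne')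
          (by exact_mod_cast R'.rel.A0.ne')]
        exact add_le_add R.lB R'.lA) (by nlinarith))
      (by rw [mul_comm]) e1 e2 e3
    exact rep_inj (hF0 x hx) (hF0 y hy) R R' hc.2
  -- supports
  obtain ⟨sup, hsup⟩ : ∃ sup : ℕ × ℕ → Finset ℕ, sup = fun x => (m₁ x * m₂ x).primeFactors :=
    ⟨_, rfl⟩
  have hfib : ∀ S ∈ F.image sup, (F.filter fun x => sup x = S).card ≤ ((G + 1) ^ m0) ^ 2 := by
    intro S hS
    obtain ⟨x0, hx0, hx0S⟩ := Finset.mem_image.1 hS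
    refine card_supp _ m₁ m₂ S G m0 ?_ ?_ ?_ ?_ ?_
    · rw [← hx0S, hsup]; exact (HR x0 hx0).card
    · intro x hx
      have R := HR x (Finset.mem_filter.1 hx).1
      exact ⟨R.rel.m₁0.ne', R.rel.m₂0.ne'⟩
    · intro x hx
      rw [Finset.mem_filter] at hx
      have R := HR x hx.1
      have hne : m₁ x * m₂ x ≠ 0 := Nat.mul_ne_zero R.rel.m₁0.ne' R.rel.m₂0.ne'
      rw [← hx.2, hsup]
      exact ⟨Nat.primeFactors_mono (dvd_mul_right _ _) hne,
        Nat.primeFactors_mono (dvd_mul_left _ _) hne⟩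
    · intro x hx q
      have R := HR x (Finset.mem_filter.1 hx).1
      exact ⟨R.ex₁ q, R.ex₂ q⟩
    · intro x hx y hy
      exact hinj x (Finset.mem_filter.1 hx).1 y (Finset.mem_filter.1 hy).1
  have hcardF : F.card ≤ (F.image sup).card * ((G + 1) ^ m0) ^ 2 := by
    rw [Finset.card_eq_sum_card_image sup F]
    refine (Finset.sum_le_sum hfib).trans (le_of_eq ?_)
    rw [Finset.sum_const, smul_eq_mul]
  refine hcardF.trans (Nat.mul_le_mul_right _ ?_)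
  -- the sunflower
  by_contra hcon
  rw [not_le] at hcon
  obtain ⟨P, hPsub, hPcard, Z, hZ, hZ'⟩ := Pool.Agent.H520R2.sunflower s hs m0 (F.image sup)
    (by
      intro S hS
      obtain ⟨x, hx, hxS⟩ := Finset.mem_image.1 hS
      rw [← hxS, hsup]
      exact (HR x hx).card) hcon
  -- a triple for each petal
  have hch : ∀ S ∈ P, ∃ x ∈ F, sup x = S := fun S hS => by
    obtain ⟨x, hx, hxS⟩ := Finset.mem_image.1 (hPsub hS)
    exact ⟨x, hx, hxS⟩
  choose! τ hτF hτS using hch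
  obtain ⟨P', hP'⟩ : ∃ P', P' = P.erase Z := ⟨_, rfl⟩
  have hP'c : s - 1 ≤ P'.card := by
    rw [hP', ← hPcard]
    exact Finset.pred_card_le_card_erase
  have hP'P : ∀ S ∈ P', S ∈ P := fun S hS => by
    rw [hP'] at hS
    exact Finset.mem_of_mem_erase hS
  -- pigeonhole
  obtain ⟨K, hK⟩ : ∃ K, K = P'.powersetCard k := ⟨_, rfl⟩
  have hKc : Fintype.card (ZMod p) < K.card := by
    rw [ZMod.card, hK, Finset.card_powersetCard]
    exact lt_of_lt_of_le hsk (Nat.choose_le_choose k hP'c)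
  obtain ⟨M₁, hM₁⟩ : ∃ M₁ : Finset (Finset ℕ) → ℕ, M₁ = fun I => ∏ S ∈ I, m₁ (τ S) := ⟨_, rfl⟩
  obtain ⟨M₂, hM₂⟩ : ∃ M₂ : Finset (Finset ℕ) → ℕ, M₂ = fun I => ∏ S ∈ I, m₂ (τ S) := ⟨_, rfl⟩
  obtain ⟨I, hI, I', hI', hne, heq⟩ := Finset.exists_ne_map_eq_of_card_lt_of_maps_to
    (s := K) (t := (univ : Finset (ZMod p)))
    (f := fun I => (M₁ I : ZMod p) * (M₂ I : ZMod p)⁻¹)
    (by rw [Finset.card_univ]; exact hKc) (fun _ _ => mem_univ _)
  rw [hK, Finset.mem_powersetCard] at hI hI'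
  have hR : ∀ I : Finset (Finset ℕ), I ⊆ P' → Rel p V E (M₁ I) (M₂ I)
      (∏ S ∈ I, A (τ S)) (∏ S ∈ I, B (τ S)) := by
    intro I hI
    rw [hM₁, hM₂]
    exact Rel.prod I _ _ _ _ fun S hS => (HR (τ S) (hτF S (hP'P S (hI hS)))).rel
  have RI := hR I hI.1
  have RI' := hR I' hI'.1
  have hmod : M₁ I * M₂ I' ≡ M₂ I * M₁ I' [MOD p] := by
    rw [← ZMod.natCast_eq_natCast_iff]
    push_cast
    have i1 := ZMod.coe_mul_inv_eq_one _ RI.cm₂
    have i2 := ZMod.coe_mul_inv_eq_one _ RI'.cm₂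
    calc (M₁ I : ZMod p) * (M₂ I' : ZMod p) =
        ((M₁ I : ZMod p) * (M₂ I : ZMod p)⁻¹) * ((M₂ I : ZMod p) * (M₂ I' : ZMod p)) := by
          calc _ = (M₁ I : ZMod p) * (M₂ I' : ZMod p) *
                ((M₂ I : ZMod p) * (M₂ I : ZMod p)⁻¹) := by rw [i1, mul_one]
            _ = _ := by ring
      _ = ((M₁ I' : ZMod p) * (M₂ I' : ZMod p)⁻¹) * ((M₂ I : ZMod p) * (M₂ I' : ZMod p)) := by
          rw [heq]
      _ = (M₂ I : ZMod p) * (M₁ I' : ZMod p) * ((M₂ I' : ZMod p) * (M₂ I' : ZMod p)⁻¹) := by ring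
      _ = _ := by rw [i2, mul_one]
  -- sizes
  have hsz : ∀ (f : ℕ × ℕ → ℕ) (u : ℝ), (∀ x ∈ F, 0 < f x ∧ Real.log (f x : ℝ) ≤ u) →
      ∀ J ⊆ P', J.card = k → Real.log ((∏ S ∈ J, f (τ S) : ℕ) : ℝ) ≤ k * u ∧
        0 < ∏ S ∈ J, f (τ S) := by
    intro f u hf J hJ hJc
    refine ⟨?_, Finset.prod_pos fun S hS => (hf _ (hτF S (hP'P S (hJ hS)))).1⟩
    rw [← hJc]
    exact log_prod_le J (fun S => f (τ S)) u
      (fun S hS => (hf _ (hτF S (hP'P S (hJ hS)))).1) (fun S hS => (hf _ (hτF S (hP'P S (hJ hS)))).2)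
  have hlt : ∀ {u v N : ℕ} {y : ℝ}, 0 < u → 0 < v → Real.log (u : ℝ) ≤ k * y →
      Real.log (v : ℝ) ≤ k * y → 2 * k * y < N * Real.log 2 → u * v < 2 ^ N := by
    intro u v N y hu hv h1 h2 h3
    refine lt_two_pow (y := k * y + k * y) (Nat.mul_pos hu hv) ?_ (by linarith)
    rw [Nat.cast_mul, Real.log_mul (by exact_mod_cast hu.ne') (by exact_mod_cast hv.ne')]
    exact add_le_add h1 h2
  obtain ⟨a1, a1'⟩ := hsz m₁ μ (fun x hx => ⟨(HR x hx).rel.m₁0, (HR x hx).l₁⟩) I hI.1 hI.2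
  obtain ⟨a2, a2'⟩ := hsz m₂ μ (fun x hx => ⟨(HR x hx).rel.m₂0, (HR x hx).l₂⟩) I hI.1 hI.2
  obtain ⟨a3, a3'⟩ := hsz A α (fun x hx => ⟨(HR x hx).rel.A0, (HR x hx).lA⟩) I hI.1 hI.2
  obtain ⟨a4, a4'⟩ := hsz B α (fun x hx => ⟨(HR x hx).rel.B0, (HR x hx).lB⟩) I hI.1 hI.2
  obtain ⟨b1, b1'⟩ := hsz m₁ μ (fun x hx => ⟨(HR x hx).rel.m₁0, (HR x hx).l₁⟩) I' hI'.1 hI'.2
  obtain ⟨b2, b2'⟩ := hsz m₂ μ (fun x hx => ⟨(HR x hx).rel.m₂0, (HR x hx).l₂⟩) I' hI'.1 hI'.2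
  obtain ⟨b3, b3'⟩ := hsz A α (fun x hx => ⟨(HR x hx).rel.A0, (HR x hx).lA⟩) I' hI'.1 hI'.2
  obtain ⟨b4, b4'⟩ := hsz B α (fun x hx => ⟨(HR x hx).rel.B0, (HR x hx).lB⟩) I' hI'.1 hI'.2
  have hcore := (RI.mul RI'.swap).core hgp hg hgh hgν
    (by rw [hM₁, hM₂]; exact hlt a1' b2' a1 b2 hμ) (by rw [hM₁, hM₂]; exact hlt a2' b1' a2 b1 hμ)
    (hlt a3' b4' a3 b4 hα) (hlt a4' b3' a4 b3 hα) hmod e1 e2 e3
  have hfin := hcore.1
  -- a private prime
  obtain ⟨S, hSI, hSI'⟩ : ∃ S ∈ I, S ∉ I' := by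
    by_contra hcon
    push Not at hcon
    exact hne (Finset.eq_of_subset_of_card_le hcon (by rw [hI.2, hI'.2]))
  have hSP' := hI.1 hSI
  have hSZ : S ≠ Z := by
    rw [hP', Finset.mem_erase] at hSP'
    exact hSP'.1
  obtain ⟨q, hqS, hqZ⟩ : ∃ q ∈ S, q ∉ Z := by
    by_contra hcon
    push Not at hcon
    exact hSZ (Finset.Subset.antisymm hcon (hZ S (hP'P S hSP')))
  have hother : ∀ S' ∈ P', S' ≠ S → (m₁ (τ S')).factorization q = 0 ∧
      (m₂ (τ S')).factorization q = 0 := by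
    intro S' hS' hne'
    have hq' : q ∉ S' := fun hq => hqZ (hZ' S (hP'P S hSP') S' (hP'P S' hS') hne'.symm
      (Finset.mem_inter.2 ⟨hqS, hq⟩))
    have R := HR (τ S') (hτF S' (hP'P S' hS'))
    have hs' := hτS S' (hP'P S' hS')
    rw [hsup] at hs'
    simp only at hs'
    rw [← hs'] at hq'
    have hne2 : m₁ (τ S') * m₂ (τ S') ≠ 0 := Nat.mul_ne_zero R.rel.m₁0.ne' R.rel.m₂0.ne'
    have hz : (m₁ (τ S') * m₂ (τ S')).factorization q = 0 := by
      by_contra hcon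
      exact hq' (by rw [← Nat.support_factorization]; exact Finsupp.mem_support_iff.2 hcon)
    rw [Nat.factorization_mul R.rel.m₁0.ne' R.rel.m₂0.ne'] at hz
    have : (m₁ (τ S')).factorization q + (m₂ (τ S')).factorization q = 0 := hz
    omega
  have hval : ∀ (f : ℕ × ℕ → ℕ), (∀ x ∈ F, f x ≠ 0) → (∀ S' ∈ P', S' ≠ S →
      (f (τ S')).factorization q = 0) → ∀ J ⊆ P', (∏ S' ∈ J, f (τ S')).factorization q =
        if S ∈ J then (f (τ S)).factorization q else 0 := by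
    intro f hf0 hf J hJ
    rw [Nat.factorization_prod (fun S' hS' => hf0 _ (hτF S' (hP'P S' (hJ hS')))),
      Finset.sum_apply']
    split_ifs with h1
    · exact Finset.sum_eq_single_of_mem S h1 fun S' hS' hne' => hf S' (hJ hS') hne'
    · exact Finset.sum_eq_zero fun S' hS' => hf S' (hJ hS') (by rintro rfl; exact h1 hS')
  have v1 := hval m₁ (fun x hx => (HR x hx).rel.m₁0.ne') (fun S' h h' => (hother S' h h').1)
  have v2 := hval m₂ (fun x hx => (HR x hx).rel.m₂0.ne') (fun S' h h' => (hother S' h h').2)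
  have hv : (M₁ I * M₂ I').factorization q = (M₂ I * M₁ I').factorization q := by rw [hfin]
  rw [Nat.factorization_mul RI.m₁0.ne' RI'.m₂0.ne', Nat.factorization_mul RI.m₂0.ne' RI'.m₁0.ne',
    Finsupp.add_apply, Finsupp.add_apply, hM₁, hM₂] at hv
  simp only at hv
  rw [v1 I hI.1, v2 I' hI'.1, v2 I hI.1, v1 I' hI'.1, if_pos hSI, if_neg hSI', if_pos hSI,
    if_neg hSI', add_zero, add_zero] at hv
  -- contradiction
  have R := HR (τ S) (hτF S (hP'P S hSP'))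
  have hs' := hτS S (hP'P S hSP')
  rw [hsup] at hs'
  simp only at hs'
  rw [← hs'] at hqS
  have hqp := Nat.prime_of_mem_primeFactors hqS
  have hqd := Nat.dvd_of_mem_primeFactors hqS
  rcases (Nat.Prime.dvd_mul hqp).1 hqd with h1 | h1
  · have p1 := hqp.factorization_pos_of_dvd R.rel.m₁0.ne' h1
    have h2 : ¬ q ∣ m₂ (τ S) := fun h2 => Nat.not_coprime_of_dvd_of_dvd hqp.one_lt h1 h2 R.cop
    have p2 := Nat.factorization_eq_zero_of_not_dvd h2
    omega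
  · have p1 := hqp.factorization_pos_of_dvd R.rel.m₂0.ne' h1
    have h2 : ¬ q ∣ m₁ (τ S) := fun h2 => Nat.not_coprime_of_dvd_of_dvd hqp.one_lt h2 h1 R.cop
    have p2 := Nat.factorization_eq_zero_of_not_dvd h2
    omega

end Pool.Agent.Y911.AA
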