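import Pool.Agent.Y911.AA.StrOne

/-! The structure of the triples of the first kind. -/

set_option autoImplicit false

namespace Pool.Agent.Y911.AA

open Finset

theorem card_main {P : Finset ℕ} {L θ : ℝ} {m0 : ℕ} (hL : 0 < L) (hθ : 0 < θ)
    (hm0 : 2 ≤ θ * m0) (hP : ∑ q ∈ P, Real.log (q : ℝ) ≤ L)
    (hP0 : ∀ q ∈ P, θ / 2 * L < Real.log (q : ℝ)) : P.card ≤ m0 := by
  have h1 : (P.card : ℝ) * (θ / 2 * L) ≤ L := by
    calc (P.card : ℝ) * (θ / 2 * L) = ∑ _q ∈ P, θ / 2 * L := by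
          rw [Finset.sum_const, nsmul_eq_mul]
      _ ≤ ∑ q ∈ P, Real.log (q : ℝ) := Finset.sum_le_sum fun q hq => (hP0 q hq).le
      _ ≤ L := hP
  have h2 : (P.card : ℝ) ≤ m0 := by
    by_contra hcon
    rw [not_le] at hcon
    have h3 : (m0 : ℝ) * (θ / 2 * L) < P.card * (θ / 2 * L) :=
      mul_lt_mul_of_pos_right hcon (by positivity)
    have h4 : 2 * L ≤ θ * m0 * L := mul_le_mul_of_nonneg_right hm0 hL.le
    linarith
  exact_mod_cast h2

theorem mm_ne {n : ℕ} (g : ℕ → ℕ) : mm n g ≠ 0 := (prod_pow_pos (n := n) g).ne'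

theorem mm_factorization (n : ℕ) (g : ℕ → ℕ) (q : ℕ) :
    (mm n g).factorization q = if q ∈ n.primeFactors then g q else 0 := by
  classical
  have hpos : ∀ p ∈ n.primeFactors, p ^ g p ≠ 0 := fun p hp =>
    pow_ne_zero _ (Nat.prime_of_mem_primeFactors hp).ne_zero
  rw [mm, Nat.factorization_prod hpos, Finset.sum_apply']
  have h1 : ∀ p ∈ n.primeFactors, (p ^ g p).factorization q = if p = q then g q else 0 := by
    intro p hp
    rw [(Nat.prime_of_mem_primeFactors hp).factorization_pow, Finsupp.single_apply]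
    split_ifs with h
    · rw [h]
    · rfl
  rw [Finset.sum_congr rfl h1, Finset.sum_ite_eq']

theorem mm_primeFactors_subset {n : ℕ} {g : ℕ → ℕ} {q : ℕ} (h : q ∈ (mm n g).primeFactors) :
    q ∈ n.primeFactors ∧ g q ≠ 0 := by
  have h1 : (mm n g).factorization q ≠ 0 := by
    rw [← Nat.support_factorization] at h
    exact Finsupp.mem_support_iff.1 h
  rw [mm_factorization] at h1
  by_cases h2 : q ∈ n.primeFactors
  · rw [if_pos h2] at h1
    exact ⟨h2, h1⟩
  · rw [if_neg h2] at h1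
    exact absurd rfl h1

theorem cop_prod {n p : ℕ} (f : ℕ → ℕ) (h : Nat.Coprime n p) :
    Nat.Coprime (∏ q ∈ n.primeFactors, q ^ f q) p := by
  refine Nat.Coprime.prod_left fun q hq => ?_
  exact Nat.Coprime.pow_left _ (Nat.Coprime.coprime_dvd_left (Nat.dvd_of_mem_primeFactors hq) h)

/-- **Structure of the triples of the first kind.** -/
theorem str_one {a b : ℕ} {L θ κ η : ℝ} {m0 N G : ℕ} (T : DataI a b L θ κ) (hL : 0 < L)
    (hθ : 0 < θ) (hθ1 : θ ≤ 1) (hm0 : 2 ≤ θ * m0) (hN : 2 ≤ N) (hη : 0 < η) (hη4 : η ≤ 1 / 4)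
    (hη2 : 6 * η * N ^ m0 / θ ≤ 1 / N) (hκ : 2 * κ * N ^ m0 ≤ 1 / N) (hκ0 : 0 ≤ κ)
    (hG : 3 * (N : ℝ) ^ m0 / θ ≤ G) (hH : (N : ℝ) ^ m0 / η ≤ Real.log ((a + b : ℕ) : ℝ) / L)
    (hH4 : 4 ≤ Real.log ((a + b : ℕ) : ℝ)) :
    ∃ t s p : ℕ, 1 ≤ t ∧ t ≤ N ^ m0 ∧ (s : ℝ) ≤ 2 / η * Real.log (Real.log ((a + b : ℕ) : ℝ) / L) ∧
      p.Prime ∧ θ / 2 * L < Real.log p ∧ Real.log p ≤ 2 / 5 * L ∧
      Real.log ((a + b : ℕ) : ℝ) / L ≤ 2 * t * grid η s ∧
      ∃ m₁ m₂ A B, Rep p ⌊grid η s * t * L / (2 * m0 * Real.log p)⌋₊ (grid η s) m0 G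
        (3 * t / θ * L) (10 / N * grid η s * L) (a, b) m₁ m₂ A B := by
  obtain ⟨c, hc⟩ : ∃ c, c = a + b := ⟨_, rfl⟩
  obtain ⟨H, hHd⟩ : ∃ H, H = Real.log ((a + b : ℕ) : ℝ) := ⟨_, rfl⟩
  have hlight := T.light
  have hrad := T.radle
  have hnsb := T.nsb
  have ha := T.a0
  have hab := T.ab
  have hcop := T.cop
  rw [← hHd] at hH hH4 hlight ⊢
  rw [← hc] at hHd hlight hrad
  have hb : 0 < b := lt_of_lt_of_le ha hab
  have hc0 : 0 < c := by omega
  have hac : Nat.Coprime a c := by rw [hc]; simpa using hcop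
  have hbc : Nat.Coprime b c := by rw [hc]; simpa using hcop.symm
  have hH0 : 0 < H := by linarith
  obtain ⟨Z, hZ⟩ : ∃ Z, Z = H / L := ⟨_, rfl⟩
  have hZ0 : 0 < Z := by rw [hZ]; positivity
  have hHZ : H = Z * L := by rw [hZ]; field_simp
  rw [← hZ] at hH ⊢
  have hN0 : (0 : ℝ) < N := by exact_mod_cast (by omega : 0 < N)
  have hN2 : (1 : ℝ) / N ≤ 1 / 2 :=
    div_le_div_of_nonneg_left (by norm_num) (by norm_num) (by exact_mod_cast hN)
  have hNm : (1 : ℝ) ≤ (N : ℝ) ^ m0 := one_le_pow₀ (by exact_mod_cast (by omega : 1 ≤ N))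
  -- the main primes
  obtain ⟨P, hP⟩ : ∃ P, P = (a * b * c).primeFactors := ⟨_, rfl⟩
  have habc0 : a * b * c ≠ 0 := by positivity
  have hPsum : ∑ q ∈ P, Real.log (q : ℝ) ≤ L := by rw [hP, ← log_rad]; exact hrad
  have hPp : ∀ q ∈ P, q.Prime := fun q hq => by
    rw [hP] at hq; exact Nat.prime_of_mem_primeFactors hq
  have hlog0 : ∀ q ∈ P, 0 ≤ Real.log (q : ℝ) := fun q hq =>
    Real.log_nonneg (by exact_mod_cast (hPp q hq).one_lt.le)
  obtain ⟨S, hS⟩ : ∃ S, S = P.filter (fun q : ℕ => θ / 2 * L < Real.log (q : ℝ)) := ⟨_, rfl⟩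
  have hSP : S ⊆ P := by rw [hS]; exact Finset.filter_subset _ _
  have hScard : S.card ≤ m0 := by
    refine card_main hL hθ hm0 ?_ ?_
    · exact (Finset.sum_le_sum_of_subset_of_nonneg hSP fun q hq _ => hlog0 q hq).trans hPsum
    · intro q hq
      rw [hS, Finset.mem_filter] at hq
      exact hq.2
  have hnP : ∀ n ∈ ({a, b, c} : Finset ℕ), n ≠ 0 ∧ n.primeFactors ⊆ P ∧ Real.log (n : ℝ) ≤ H := by
    intro n hn
    have hn1 : n ≠ 0 ∧ n ∣ a * b * c ∧ n ≤ c := by
      simp only [Finset.mem_insert, Finset.mem_singleton] at hn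
      rcases hn with rfl | rfl | rfl
      · exact ⟨ha.ne', ⟨b * c, by ring⟩, by omega⟩
      · exact ⟨hb.ne', ⟨a * c, by ring⟩, by omega⟩
      · exact ⟨hc0.ne', ⟨a * b, by ring⟩, le_rfl⟩
    refine ⟨hn1.1, ?_, ?_⟩
    · rw [hP]
      exact Nat.primeFactors_mono hn1.2.1 habc0
    · rw [hHd]
      exact Real.log_le_log (by exact_mod_cast Nat.pos_of_ne_zero hn1.1) (by exact_mod_cast hn1.2.2)
  have hWn : ∀ n ∈ ({a, b, c} : Finset ℕ), ∑ q ∈ n.primeFactors, Real.log (q : ℝ) ≤ L := by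
    intro n hn
    exact (Finset.sum_le_sum_of_subset_of_nonneg (hnP n hn).2.1 fun q hq _ => hlog0 q hq).trans
      hPsum
  -- the exponents of the main primes
  have hvle : ∀ n ∈ ({a, b, c} : Finset ℕ), ∀ q ∈ n.primeFactors,
      (n.factorization q : ℝ) * Real.log (q : ℝ) ≤ H := by
    intro n hn q hq
    refine le_trans ?_ (hnP n hn).2.2
    rw [log_eq_sum (hnP n hn).1]
    refine Finset.single_le_sum (f := fun q : ℕ => (n.factorization q : ℝ) * Real.log (q : ℝ))
      (fun r hr => ?_) hq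
    exact mul_nonneg (Nat.cast_nonneg _) (hlog0 r ((hnP n hn).2.1 hr))
  obtain ⟨v, hv⟩ : ∃ v : ℕ → ℕ, v = fun q => (a * b * c).factorization q := ⟨_, rfl⟩
  have hvn : ∀ n ∈ ({a, b, c} : Finset ℕ), ∀ q ∈ n.primeFactors, n.factorization q = v q := by
    intro n hn q hq
    rw [hv]
    have := fact_abc (q := q) ha.ne' hb.ne' hc0.ne' hcop hac hbc
    simp only [Finset.mem_insert, Finset.mem_singleton] at hn
    rcases hn with rfl | rfl | rfl
    · exact (this.1 hq).symm
    · exact (this.2.1 hq).symm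
    · exact (this.2.2 hq).symm
  have hPn : ∀ q ∈ P, ∃ n ∈ ({a, b, c} : Finset ℕ), q ∈ n.primeFactors := by
    intro q hq
    have hqp := hPp q hq
    rw [hP] at hq
    have h1 := Nat.dvd_of_mem_primeFactors hq
    rcases (hqp.dvd_mul).1 h1 with h | h
    · rcases (hqp.dvd_mul).1 h with h | h
      · exact ⟨a, by simp, Nat.mem_primeFactors.2 ⟨hqp, h, ha.ne'⟩⟩
      · exact ⟨b, by simp, Nat.mem_primeFactors.2 ⟨hqp, h, hb.ne'⟩⟩
    · exact ⟨c, by simp, Nat.mem_primeFactors.2 ⟨hqp, h, hc0.ne'⟩⟩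
  have hvS : ∀ q ∈ S, (v q : ℝ) / Z ≤ 2 / θ := by
    intro q hq
    have hqP := hSP hq
    rw [hS, Finset.mem_filter] at hq
    obtain ⟨n, hn, hqn⟩ := hPn q hqP
    have h1 := hvle n hn q hqn
    rw [hvn n hn q hqn] at h1
    rw [div_le_div_iff₀ hZ0 hθ]
    have h2 : (v q : ℝ) * (θ / 2 * L) ≤ Z * L := by
      rw [← hHZ]
      exact (mul_le_mul_of_nonneg_left hq.2.le (Nat.cast_nonneg _)).trans h1
    have h3 : (v q : ℝ) * θ * L ≤ 2 * Z * L := by linarith
    exact le_of_mul_le_mul_right h3 hL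
  obtain ⟨t, ht1, htN, g', hg'⟩ := dirichlet_nat S (fun q => (v q : ℝ) / Z) hScard hN
    (fun q _ => by positivity)
  obtain ⟨g, hg⟩ : ∃ g : ℕ → ℕ, g = fun q : ℕ => if θ / 2 * L < Real.log (q : ℝ) then g' q else 0 :=
    ⟨_, rfl⟩
  have hglight : ∀ q : ℕ, Real.log (q : ℝ) ≤ θ / 2 * L → g q = 0 := by
    intro q hq
    rw [hg]
    exact if_neg (not_lt.2 hq)
  have hgmain : ∀ q : ℕ, θ / 2 * L < Real.log (q : ℝ) → g q = g' q := by
    intro q hq
    rw [hg]
    exact if_pos hq
  have ht0 : (1 : ℝ) ≤ t := by exact_mod_cast ht1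
  have htN' : (t : ℝ) ≤ (N : ℝ) ^ m0 := by exact_mod_cast htN
  have htpos : (0 : ℝ) < t := by linarith
  -- the exponent
  obtain ⟨e, he⟩ : ∃ e, e = Z / t := ⟨_, rfl⟩
  have he0 : 0 < e := by rw [he]; positivity
  have hZe : Z = e * t := by rw [he]; field_simp
  have he1 : 1 ≤ η * e := by
    rw [he, ← mul_div_assoc, le_div_iff₀ htpos]
    rw [div_le_iff₀ hη] at hH
    linarith
  obtain ⟨s, hs1, hs2, hs3⟩ := grid_spec hη (by linarith) he1
  obtain ⟨E, hE⟩ : ∃ E, E = grid η s := ⟨_, rfl⟩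
  rw [← hE] at hs1 hs2
  have hE2 : e ≤ 2 * E := by
    have := mul_le_mul_of_nonneg_right hη4 he0.le
    linarith
  have hE0 : (0 : ℝ) < E := by linarith
  have hEN : 0 < E := by exact_mod_cast hE0
  have hgS : ∀ q ∈ S, (g q : ℝ) ≤ 3 * t / θ ∧ |(v q : ℝ) - E * g q| ≤ 4 / N * E := by
    intro q hq
    have h1 := hg' q hq
    have h2 := hvS q hq
    have hq' := hq
    rw [hS, Finset.mem_filter] at hq'
    rw [← hgmain q hq'.2] at h1
    have h3 := (abs_le.1 h1)
    have h4 : (g q : ℝ) ≤ 3 * t / θ := by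
      have h5 : (t : ℝ) * ((v q : ℝ) / Z) ≤ t * (2 / θ) := mul_le_mul_of_nonneg_left h2 htpos.le
      have h6 : (1 : ℝ) / 2 ≤ t / θ := by
        rw [div_le_div_iff₀ (by norm_num) hθ]
        linarith
      have h7 : 3 * (t : ℝ) / θ = t * (2 / θ) + t / θ := by ring
      rw [h7]
      linarith [h3.1]
    refine ⟨h4, ?_⟩
    have h8 : |(v q : ℝ) - e * g q| ≤ e / N := by
      have : (v q : ℝ) - e * g q = e * (t * ((v q : ℝ) / Z) - g q) := by
        rw [hZe]
        field_simp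
      rw [this, abs_mul, abs_of_pos he0, div_eq_mul_one_div e]
      exact mul_le_mul_of_nonneg_left h1 he0.le
    have h9 : |(e : ℝ) * g q - E * g q| ≤ e / N := by
      rw [← sub_mul, abs_mul, abs_of_nonneg (by linarith : 0 ≤ e - E),
        abs_of_nonneg (Nat.cast_nonneg (g q))]
      have h10 : e - E ≤ 2 * η * e := by linarith
      calc (e - E) * (g q : ℝ) ≤ (2 * η * e) * (3 * t / θ) :=
            mul_le_mul h10 h4 (Nat.cast_nonneg _) (by positivity)
        _ = e * (6 * η * t / θ) := by ring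
        _ ≤ e * (6 * η * N ^ m0 / θ) := by
            apply mul_le_mul_of_nonneg_left _ he0.le
            rw [div_le_div_iff_of_pos_right hθ]
            exact mul_le_mul_of_nonneg_left htN' (by positivity)
        _ ≤ e * (1 / N) := mul_le_mul_of_nonneg_left hη2 he0.le
        _ = e / N := by ring
    calc |(v q : ℝ) - E * g q| = |((v q : ℝ) - e * g q) + (e * g q - E * g q)| := by congr 1; ring
      _ ≤ |(v q : ℝ) - e * g q| + |(e : ℝ) * g q - E * g q| := abs_add_le _ _
      _ ≤ e / N + e / N := add_le_add h8 h9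
      _ = 2 * e / N := by ring
      _ ≤ 2 * (2 * E) / N := by
          rw [div_le_div_iff_of_pos_right hN0]
          linarith
      _ = 4 / N * E := by ring
  have hnS : ∀ n ∈ ({a, b, c} : Finset ℕ), ∀ q ∈ n.primeFactors, θ / 2 * L < Real.log (q : ℝ) →
      q ∈ S := by
    intro n hn q hq h
    rw [hS, Finset.mem_filter]
    exact ⟨(hnP n hn).2.1 hq, h⟩
  have hκH : κ * H ≤ 1 / N * E * L := by
    calc κ * H = (κ * t) * (e * L) := by rw [hHZ, hZe]; ring
      _ ≤ (κ * N ^ m0) * ((2 * E) * L) := by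
          apply mul_le_mul (mul_le_mul_of_nonneg_left htN' hκ0)
            (mul_le_mul_of_nonneg_right hE2 hL.le) (by positivity) (by positivity)
      _ = (2 * κ * N ^ m0) * (E * L) := by ring
      _ ≤ 1 / N * (E * L) := mul_le_mul_of_nonneg_right hκ (by positivity)
      _ = _ := by ring
  have hAB : ∀ n ∈ ({a, b, c} : Finset ℕ), Real.log (aa n E g : ℝ) ≤ 5 / N * E * L ∧
      Real.log (bb n E g : ℝ) ≤ 5 / N * E * L := by
    intro n hn
    have h1 := log_ab_le (n := n) (E := E) g (T := θ / 2 * L) (ρ := 4 / N * E) (lam := κ * H)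
      (W := L) (fun q _ hq => hglight q hq) (hlight n hn)
      (fun q hq h => by rw [hvn n hn q hq]; exact (hgS q (hnS n hn q hq h)).2) (by positivity)
      (hWn n hn)
    have h2 : κ * H + 4 / N * E * L ≤ 5 / N * E * L := by
      have : 5 / (N : ℝ) * E * L = 1 / N * E * L + 4 / N * E * L := by ring
      rw [this]
      linarith
    exact ⟨h1.1.trans h2, h1.2.trans h2⟩
  have hmm : ∀ n ∈ ({a, b, c} : Finset ℕ), Real.log (mm n g : ℝ) ≤ 3 * t / θ * L := by
    intro n hn
    rw [mm, log_prod_pow]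
    calc ∑ q ∈ n.primeFactors, (g q : ℝ) * Real.log (q : ℝ) ≤
          ∑ q ∈ n.primeFactors, 3 * t / θ * Real.log (q : ℝ) := by
          refine Finset.sum_le_sum fun q hq => ?_
          apply mul_le_mul_of_nonneg_right _ (hlog0 q ((hnP n hn).2.1 hq))
          rcases le_or_gt (Real.log (q : ℝ)) (θ / 2 * L) with h | h
          · rw [hglight q h, Nat.cast_zero]
            positivity
          · exact (hgS q (hnS n hn q hq h)).1
      _ = 3 * t / θ * ∑ q ∈ n.primeFactors, Real.log (q : ℝ) := by rw [Finset.mul_sum]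
      _ ≤ 3 * t / θ * L := mul_le_mul_of_nonneg_left (hWn n hn) (by positivity)
  have hgG : ∀ n ∈ ({a, b, c} : Finset ℕ), ∀ q, (mm n g).factorization q ≤ G := by
    intro n hn q
    rw [mm_factorization]
    split_ifs with h
    · rcases le_or_gt (Real.log (q : ℝ)) (θ / 2 * L) with h1 | h1
      · rw [hglight q h1]
        exact Nat.zero_le _
      · have h2 := (hgS q (hnS n hn q h h1)).1
        have h3 : 3 * (t : ℝ) / θ ≤ G := by
          refine le_trans ?_ hG
          rw [div_le_div_iff_of_pos_right hθ]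
          linarith
        exact_mod_cast h2.trans h3
    · exact Nat.zero_le _
  -- the modulus
  have hbmem : b ∈ ({a, b, c} : Finset ℕ) := by simp
  have hamem : a ∈ ({a, b, c} : Finset ℕ) := by simp
  have hcmem : c ∈ ({a, b, c} : Finset ℕ) := by simp
  have hκ1 : κ ≤ 1 / 4 := by
    have h1 : 2 * κ * 1 ≤ 2 * κ * (N : ℝ) ^ m0 := mul_le_mul_of_nonneg_left hNm (by positivity)
    linarith
  have hlogb : H - Real.log 2 ≤ Real.log (b : ℝ) := by
    rw [hHd, ← Real.log_div (by exact_mod_cast hc0.ne') (by norm_num)]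
    apply Real.log_le_log (div_pos (by exact_mod_cast hc0) (by norm_num))
    rw [div_le_iff₀ (by norm_num)]
    exact_mod_cast (by omega : c ≤ b * 2)
  have hl2 : Real.log 2 < 0.6931471808 := Real.log_two_lt_d9
  have hl2' : 0.6931471803 < Real.log 2 := Real.log_two_gt_d9
  have hbmain : H / 2 ≤ ∑ q ∈ b.primeFactors.filter (fun q : ℕ => ¬ Real.log (q : ℝ) ≤ θ / 2 * L),
      (b.factorization q : ℝ) * Real.log (q : ℝ) := by
    have h1 := hlight b hbmem
    have h2 := log_eq_sum hb.ne'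
    rw [← Finset.sum_filter_add_sum_filter_not b.primeFactors
      (fun q : ℕ => Real.log (q : ℝ) ≤ θ / 2 * L)] at h2
    have h3 : κ * H ≤ 1 / 4 * H := mul_le_mul_of_nonneg_right hκ1 hH0.le
    linarith
  obtain ⟨p, hpF, hpH⟩ : ∃ p ∈ b.primeFactors.filter (fun q : ℕ => ¬ Real.log (q : ℝ) ≤ θ / 2 * L),
      H / (2 * m0) ≤ (b.factorization p : ℝ) * Real.log (p : ℝ) := by
    by_contra hcon0
    have hcon : ∀ p ∈ b.primeFactors.filter (fun q : ℕ => ¬ Real.log (q : ℝ) ≤ θ / 2 * L),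
        (b.factorization p : ℝ) * Real.log (p : ℝ) < H / (2 * m0) := by
      intro p hp
      by_contra h
      exact hcon0 ⟨p, hp, not_lt.1 h⟩
    have hm0' : (0 : ℝ) < m0 := (mul_pos_iff_of_pos_left hθ).1 (by linarith)
    have hcard : (b.primeFactors.filter
        (fun q : ℕ => ¬ Real.log (q : ℝ) ≤ θ / 2 * L)).card ≤ m0 := by
      refine le_trans (Finset.card_le_card ?_) hScard
      intro q hq
      rw [Finset.mem_filter, not_le] at hq
      exact hnS b hbmem q hq.1 hq.2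
    rcases (b.primeFactors.filter
        (fun q : ℕ => ¬ Real.log (q : ℝ) ≤ θ / 2 * L)).eq_empty_or_nonempty with h0 | h0
    · rw [h0, Finset.sum_empty] at hbmain
      linarith
    · have h1 := Finset.sum_lt_sum_of_nonempty h0 hcon
      rw [Finset.sum_const, nsmul_eq_mul] at h1
      have h2 : ((b.primeFactors.filter
        (fun q : ℕ => ¬ Real.log (q : ℝ) ≤ θ / 2 * L)).card : ℝ) * (H / (2 * m0)) ≤
          m0 * (H / (2 * m0)) :=
        mul_le_mul_of_nonneg_right (by exact_mod_cast hcard) (by positivity)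
      have h3 : (m0 : ℝ) * (H / (2 * m0)) = H / 2 := by field_simp
      linarith
  rw [Finset.mem_filter, not_le] at hpF
  have hpp : p.Prime := Nat.prime_of_mem_primeFactors hpF.1
  have hlp : 0 < Real.log (p : ℝ) := lt_trans (by positivity) hpF.2
  have hm0' : (0 : ℝ) < m0 := (mul_pos_iff_of_pos_left hθ).1 (by linarith)
  obtain ⟨V, hV⟩ : ∃ V, V = ⌊(E : ℝ) * t * L / (2 * m0 * Real.log p)⌋₊ := ⟨_, rfl⟩
  have hVle : V ≤ b.factorization p := by
    have h1 : (V : ℝ) ≤ (E : ℝ) * t * L / (2 * m0 * Real.log p) := by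
      rw [hV]
      exact Nat.floor_le (by positivity)
    have h2 : (E : ℝ) * t * L ≤ H := by
      rw [hHZ, hZe]
      have : (E : ℝ) * t * L = E * (t * L) := by ring
      rw [this, mul_assoc e]
      exact mul_le_mul_of_nonneg_right hs1 (by positivity)
    have h3 : (V : ℝ) ≤ b.factorization p := by
      refine h1.trans ?_
      rw [div_le_iff₀ (by positivity)]
      rw [div_le_iff₀ (by positivity)] at hpH
      linarith
    exact_mod_cast h3
  have hpV : p ^ V ∣ b := (pow_dvd_pow p hVle).trans (Nat.ordProj_dvd b p)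
  have hpb : p ∣ b := Nat.dvd_of_mem_primeFactors hpF.1
  have hap : Nat.Coprime a p := Nat.Coprime.coprime_dvd_right hpb hcop
  have hcp : Nat.Coprime c p := (Nat.Coprime.coprime_dvd_left hpb hbc).symm
  refine ⟨t, s, p, ht1, htN, ?_, hpp, hpF.2, hnsb p hpF.1, ?_, mm c g, mm a g, aa a E g * bb c E g,
    aa c E g * bb a E g, ?_⟩
  · refine hs3.trans (mul_le_mul_of_nonneg_left ?_ (by positivity))
    apply Real.log_le_log he0
    rw [he]
    exact div_le_self hZ0.le ht0
  · rw [← hE, hZe]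
    have := mul_le_mul_of_nonneg_right hE2 htpos.le
    linarith
  · rw [← hE, ← hV]
    have hrepc := rep_eq (E := E) hc0.ne' g
    have hrepa := rep_eq (E := E) ha.ne' g
    have heq : (a + b) * (mm a g ^ E * (aa a E g * bb c E g)) =
        a * (mm c g ^ E * (aa c E g * bb a E g)) := by
      rw [← hc]
      calc c * (mm a g ^ E * (aa a E g * bb c E g)) =
          (c * bb c E g) * (mm a g ^ E * aa a E g) := by ring
        _ = (mm c g ^ E * aa c E g) * (a * bb a E g) := by rw [hrepc, hrepa]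
        _ = _ := by ring
    refine ⟨⟨?_, ?_, ?_, ?_, ?_, ?_, ?_, ?_, ?_⟩, heq, ?_, ?_, hgG c hcmem, hgG a hamem,
      hmm c hcmem, hmm a hamem, ?_, ?_⟩
    · exact prod_pow_pos g
    · exact prod_pow_pos g
    · exact Nat.mul_pos (prod_pow_pos _) (prod_pow_pos _)
    · exact Nat.mul_pos (prod_pow_pos _) (prod_pow_pos _)
    · exact cop_prod _ hcp
    · exact cop_prod _ hap
    · exact Nat.Coprime.mul_left (cop_prod _ hap) (cop_prod _ hcp)
    · exact Nat.Coprime.mul_left (cop_prod _ hcp) (cop_prod _ hap)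
    · have h1 : a + b ≡ a [MOD p ^ V] := by
        have : b ≡ 0 [MOD p ^ V] := (Nat.modEq_zero_iff_dvd).2 hpV
        simpa using (Nat.ModEq.refl a).add this
      have h2 : a * (mm c g ^ E * (aa c E g * bb a E g)) ≡
          a * (mm a g ^ E * (aa a E g * bb c E g)) [MOD p ^ V] := by
        rw [← heq]
        exact h1.mul_right _
      exact Nat.ModEq.cancel_left_of_coprime (Nat.Coprime.pow_left _ hap.symm) h2
    · -- coprimality
      have h1 : Nat.Coprime c (mm a g) := (cop_prod g hac).symm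
      exact cop_prod g h1
    · refine le_trans (Finset.card_le_card ?_) hScard
      intro q hq
      rw [Nat.primeFactors_mul (mm_ne g) (mm_ne g), Finset.mem_union] at hq
      rcases hq with hq | hq
      · obtain ⟨h1, h2⟩ := mm_primeFactors_subset hq
        refine hnS c hcmem q h1 ?_
        by_contra hcon
        exact h2 (hglight q (not_lt.1 hcon))
      · obtain ⟨h1, h2⟩ := mm_primeFactors_subset hq
        refine hnS a hamem q h1 ?_
        by_contra hcon
        exact h2 (hglight q (not_lt.1 hcon))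
    · have h1 := (hAB a hamem).1
      have h2 := (hAB c hcmem).2
      rw [Nat.cast_mul, Real.log_mul
        (by exact_mod_cast (prod_pow_pos (n := a) fun q => a.factorization q - E * g q).ne')
        (by exact_mod_cast (prod_pow_pos (n := c) fun q => E * g q - c.factorization q).ne')]
      have : 10 / (N : ℝ) * E * L = 5 / N * E * L + 5 / N * E * L := by ring
      rw [this]
      exact add_le_add h1 h2
    · have h1 := (hAB c hcmem).1
      have h2 := (hAB a hamem).2
      rw [Nat.cast_mul, Real.log_mul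
        (by exact_mod_cast (prod_pow_pos (n := c) fun q => c.factorization q - E * g q).ne')
        (by exact_mod_cast (prod_pow_pos (n := a) fun q => E * g q - a.factorization q).ne')]
      have : 10 / (N : ℝ) * E * L = 5 / N * E * L + 5 / N * E * L := by ring
      rw [this]
      exact add_le_add h1 h2

end Pool.Agent.Y911.AA
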