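import Pool.Agent.Y911.AA.Pair

/-! The part of an integer composed of primes with large exponents, and the number of triples of a
class. -/

set_option autoImplicit false

namespace Pool.Agent.Y911.AA

open Finset

/-- the product of the primes whose exponent in `n` is at least `E` -/
def top (E n : ℕ) : ℕ := ∏ p ∈ n.primeFactors.filter (fun p => E ≤ n.factorization p), p

/-- the cofactor of the `E`-th power of `top E n` -/
def low (E n : ℕ) : ℕ := n / top E n ^ E

theorem top_pos (E n : ℕ) : 0 < top E n :=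
  Finset.prod_pos fun _ hp => (Nat.prime_of_mem_primeFactors (Finset.mem_filter.1 hp).1).pos

theorem sub_pow_dvd {E n : ℕ} {S : Finset ℕ}
    (hS : ∀ p ∈ S, p.Prime ∧ E ≤ n.factorization p) : (∏ p ∈ S, p) ^ E ∣ n := by
  rw [← Finset.prod_pow]
  refine Finset.prod_dvd_of_isRelPrime ?_ ?_
  · intro p hp q hq hpq
    exact Nat.coprime_iff_isRelPrime.1 (Nat.Coprime.pow _ _
      ((Nat.coprime_primes (hS p hp).1 (hS q hq).1).2 hpq))
  · intro p hp
    exact (pow_dvd_pow p (hS p hp).2).trans (Nat.ordProj_dvd n p)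

theorem top_pow_dvd (E n : ℕ) : top E n ^ E ∣ n :=
  sub_pow_dvd fun _ hp => ⟨Nat.prime_of_mem_primeFactors (Finset.mem_filter.1 hp).1,
    (Finset.mem_filter.1 hp).2⟩

theorem eq_top_low (E n : ℕ) : n = top E n ^ E * low E n :=
  (Nat.mul_div_cancel' (top_pow_dvd E n)).symm

theorem low_pos {E n : ℕ} (hn : 0 < n) : 0 < low E n := by
  rcases Nat.eq_zero_or_pos (low E n) with h | h
  · have := eq_top_low E n
    rw [h, mul_zero] at this
    omega
  · exact h

theorem log_top (E n : ℕ) : Real.log (top E n : ℝ) =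
    ∑ p ∈ n.primeFactors.filter (fun p => E ≤ n.factorization p), Real.log (p : ℝ) := by
  rw [top, Nat.cast_prod, Real.log_prod]
  intro p hp
  exact_mod_cast (Nat.prime_of_mem_primeFactors (Finset.mem_filter.1 hp).1).ne_zero

theorem log_low {E n : ℕ} (hn : 0 < n) :
    Real.log (low E n : ℝ) = Real.log n - E * Real.log (top E n : ℝ) := by
  have h1 : (0 : ℝ) < top E n := by exact_mod_cast top_pos E n
  have h2 : (0 : ℝ) < low E n := by exact_mod_cast low_pos (E := E) hn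
  conv_rhs => rw [eq_top_low E n]
  have h3 : top E (top E n ^ E * low E n) = top E n := by rw [← eq_top_low]
  rw [h3]
  push_cast
  rw [Real.log_mul (by positivity) (by positivity), Real.log_pow]
  ring

/-- the class of the triples `(a, b, a + b)` for the modulus `D` and the exponent `E` -/
structure Cls (D E h ν : ℕ) (p : ℕ × ℕ) : Prop where
  a0 : 0 < p.1
  b0 : 0 < p.2
  cop : Nat.Coprime p.1 p.2
  dvd : D ^ E ∣ p.1
  tb : top E p.2 ^ 2 < 2 ^ h
  tc : top E (p.1 + p.2) ^ 2 < 2 ^ h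
  lb : low E p.2 ^ 2 < 2 ^ ν
  lc : low E (p.1 + p.2) ^ 2 < 2 ^ ν

theorem mul_lt_of_sq {x y N : ℕ} (hx : x ^ 2 < N) (hy : y ^ 2 < N) : x * y < N := by
  rcases le_total x y with h | h
  · calc x * y ≤ y * y := Nat.mul_le_mul_right _ h
      _ = y ^ 2 := (pow_two y).symm
      _ < N := hy
  · calc x * y ≤ x * x := Nat.mul_le_mul_left _ h
      _ = x ^ 2 := (pow_two x).symm
      _ < N := hx

/-- **A class has at most `D` members.** -/
theorem card_cls {D E g h ν : ℕ} (hg : 8 ≤ g) (hgD : 2 ^ g ≤ D) (hgh : g ≤ h) (hgν : g ≤ ν)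
    (hE : E ≠ 0) (e1 : 141 * ν ≤ g * E) (e2 : E * g ≤ 2 ^ (g / 4) * ν)
    (e3 : 20000 * h * ν ≤ E * g ^ 2) (F : Finset (ℕ × ℕ)) (hF : ∀ p ∈ F, Cls D E h ν p) :
    F.card ≤ D := by
  classical
  have hD0 : D ≠ 0 := by
    have : 0 < 2 ^ g := by positivity
    omega
  have : NeZero D := ⟨hD0⟩
  by_contra hcon
  rw [not_le] at hcon
  have hcopc : ∀ p ∈ F, Nat.Coprime (top E (p.1 + p.2)) D ∧ Nat.Coprime (top E p.2) D := by
    intro p hp
    have H := hF p hp
    have R := Rel.of_zero rfl H.cop H.b0 hE H.dvd (eq_top_low E p.2) (eq_top_low E (p.1 + p.2)) hE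
    exact ⟨R.cm₂, R.cm₁⟩
  obtain ⟨x, hx, y, hy, hxy, hf⟩ := Finset.exists_ne_map_eq_of_card_lt_of_maps_to
    (s := F) (t := (univ : Finset (ZMod D)))
    (f := fun p => (top E p.2 : ZMod D) * (top E (p.1 + p.2) : ZMod D)⁻¹)
    (by rw [Finset.card_univ, ZMod.card]; exact hcon) (fun _ _ => mem_univ _)
  have hX := hF x hx
  have hY := hF y hy
  have i1 := ZMod.coe_mul_inv_eq_one _ (hcopc x hx).1
  have i2 := ZMod.coe_mul_inv_eq_one _ (hcopc y hy).1
  have hm : top E x.2 * top E (y.1 + y.2) ≡ top E (x.1 + x.2) * top E y.2 [MOD D] := by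
    rw [← ZMod.natCast_eq_natCast_iff]
    rw [Nat.cast_mul, Nat.cast_mul]
    calc (top E x.2 : ZMod D) * (top E (y.1 + y.2) : ZMod D) =
        ((top E x.2 : ZMod D) * (top E (x.1 + x.2) : ZMod D)⁻¹) *
          ((top E (x.1 + x.2) : ZMod D) * (top E (y.1 + y.2) : ZMod D)) := by
            calc _ = (top E x.2 : ZMod D) * (top E (y.1 + y.2) : ZMod D) *
                  ((top E (x.1 + x.2) : ZMod D) * (top E (x.1 + x.2) : ZMod D)⁻¹) := by
                    rw [i1, mul_one]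
              _ = _ := by ring
      _ = ((top E y.2 : ZMod D) * (top E (y.1 + y.2) : ZMod D)⁻¹) *
          ((top E (x.1 + x.2) : ZMod D) * (top E (y.1 + y.2) : ZMod D)) := by rw [hf]
      _ = (top E (x.1 + x.2) : ZMod D) * (top E y.2 : ZMod D) *
          ((top E (y.1 + y.2) : ZMod D) * (top E (y.1 + y.2) : ZMod D)⁻¹) := by ring
      _ = _ := by rw [i2, mul_one]
  obtain ⟨r1, r2⟩ := pair_eq rfl hX.cop hX.b0 hX.dvd (eq_top_low E x.2)
    (eq_top_low E (x.1 + x.2)) rfl hY.cop hY.b0 hY.dvd (eq_top_low E y.2)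
    (eq_top_low E (y.1 + y.2)) hg hgD hgh hgν (mul_lt_of_sq hX.tb hY.tc)
    (mul_lt_of_sq hX.tc hY.tb) (mul_lt_of_sq hX.lc hY.lb) (mul_lt_of_sq hX.lb hY.lc) hm hE e1 e2 e3
  exact hxy (Prod.ext r1 r2)

end Pool.Agent.Y911.AA
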