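import Mathlib
import Pool.Agent.H374R2.T.TaskE

/-! Two numbers `a / b`, `A / B` close to `1` modulo `D`: if `(a / b) ^ q = A / B` modulo a high
power of `D` then both are `1`. After `Pool.Agent.TH888.G.TLQ`; there is no factor `D`. -/

set_option autoImplicit false

namespace Pool.Agent.Y911.AA

open Finset Pool.Agent.H374R2.T.TaskZ Pool.Agent.H374R2.T.TaskI
open Pool.Agent.H374R2.T.TaskE (exists_rows choose_bound)

/-- size of one entry of the interpolation matrix -/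
theorem entry_bound {g h ν q a b A B R S K r s k l : ℕ} (hg : 8 ≤ g)
    (hah : a < 2 ^ h) (hbh : b < 2 ^ h) (hAν : A < 2 ^ ν) (hBν : B < 2 ^ ν)
    (hz : (R + S * q) * 3 ≤ K * 2 ^ (g / 4))
    (hKg : 8 * (R * h + S * ν) ≤ g * K) (hr : r < R) (hs : s < S)
    (hk : k < K) (hl : l < 8) :
    Nat.choose (r * 1 + s * q) k * (a ^ (r * l) * b ^ (r * (8 - 1 - l)) *
        A ^ (s * l) * B ^ (s * (8 - 1 - l))) ≤ 2 ^ (2 * g * K) := by
  have h1 : Nat.choose (r * 1 + s * q) k ≤ (2 ^ (g / 4)) ^ K := by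
    have hc : 2 ≤ g / 4 := by omega
    have h4 : (2 : ℕ) ^ 2 ≤ 2 ^ (g / 4) := Nat.pow_le_pow_right (by norm_num) hc
    apply choose_bound (P := 3) (by omega) (by omega) _ hk.le
    refine le_trans ?_ hz
    apply Nat.mul_le_mul_right
    have h3 : s * q ≤ S * q := Nat.mul_le_mul_right q hs.le
    omega
  have h3 : a ^ (r * l) * b ^ (r * (8 - 1 - l)) ≤ 2 ^ (h * (R * 7)) := by
    calc a ^ (r * l) * b ^ (r * (8 - 1 - l))
        ≤ (2 ^ h) ^ (r * l) * (2 ^ h) ^ (r * (8 - 1 - l)) := by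
          apply Nat.mul_le_mul
          · exact Nat.pow_le_pow_left hah.le _
          · exact Nat.pow_le_pow_left hbh.le _
      _ = 2 ^ (h * (r * (l + (8 - 1 - l)))) := by
          rw [← pow_add, ← pow_mul, mul_add r]
      _ ≤ 2 ^ (h * (R * 7)) := by
          apply Nat.pow_le_pow_right (by norm_num)
          apply Nat.mul_le_mul_left
          apply Nat.mul_le_mul hr.le
          omega
  have h4 : A ^ (s * l) * B ^ (s * (8 - 1 - l)) ≤ 2 ^ (ν * (S * 7)) := by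
    calc A ^ (s * l) * B ^ (s * (8 - 1 - l))
        ≤ (2 ^ ν) ^ (s * l) * (2 ^ ν) ^ (s * (8 - 1 - l)) := by
          apply Nat.mul_le_mul
          · exact Nat.pow_le_pow_left hAν.le _
          · exact Nat.pow_le_pow_left hBν.le _
      _ = 2 ^ (ν * (s * (l + (8 - 1 - l)))) := by
          rw [← pow_add, ← pow_mul, mul_add s]
      _ ≤ 2 ^ (ν * (S * 7)) := by
          apply Nat.pow_le_pow_right (by norm_num)
          apply Nat.mul_le_mul_left
          apply Nat.mul_le_mul hs.le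
          omega
  calc Nat.choose (r * 1 + s * q) k * (a ^ (r * l) * b ^ (r * (8 - 1 - l)) *
        A ^ (s * l) * B ^ (s * (8 - 1 - l)))
      = Nat.choose (r * 1 + s * q) k * ((a ^ (r * l) * b ^ (r * (8 - 1 - l))) *
        (A ^ (s * l) * B ^ (s * (8 - 1 - l)))) := by ring
    _ ≤ (2 ^ (g / 4)) ^ K * (2 ^ (h * (R * 7)) * 2 ^ (ν * (S * 7))) :=
        Nat.mul_le_mul h1 (Nat.mul_le_mul h3 h4)
    _ = 2 ^ (g / 4 * K + (h * (R * 7) + ν * (S * 7))) := by
        rw [← pow_mul, ← pow_add, ← pow_add]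
    _ ≤ 2 ^ (2 * g * K) := by
        apply Nat.pow_le_pow_right (by norm_num)
        have e1 : g / 4 * K ≤ g * K := Nat.mul_le_mul_right _ (Nat.div_le_self _ _)
        have e2 : h * (R * 7) + ν * (S * 7) = 7 * (R * h + S * ν) := by ring
        have e3 : 2 * g * K = g * K + g * K := by ring
        omega

theorem final_arith {g K : ℤ} (hg : 8 ≤ g) (hK : 9 ≤ K)
    (h : g * (24 * K ^ 2 - 4 * K) ≤ (3 + K + 2 * g * K) * (8 * K)) : False := by
  have h1 : 0 ≤ (g - 8) * (K * (2 * K - 1)) :=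
    mul_nonneg (by linarith) (mul_nonneg (by linarith) (by linarith))
  have h2 : 0 < K * (K - 1) := mul_pos (by linarith) (by linarith)
  have h3 : g * (24 * K ^ 2 - 4 * K) - (3 + K + 2 * g * K) * (8 * K) =
      4 * ((g - 8) * (K * (2 * K - 1))) + 56 * (K * (K - 1)) := by ring
  linarith

/-- two numbers close to `1` modulo `D` -/
theorem core_ne {D g h ν q Y a b A B : ℕ} (hD : 2 ^ g ≤ D) (hg : 8 ≤ g) (hgh : g ≤ h)
    (hgν : g ≤ ν) (ha : 0 < a) (hb : 0 < b) (hA : 0 < A) (hB : 0 < B)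
    (hah : a < 2 ^ h) (hbh : b < 2 ^ h) (hAν : A < 2 ^ ν) (hBν : B < 2 ^ ν)
    (hca : Nat.Coprime a D) (hcb : Nat.Coprime b D) (hcA : Nat.Coprime A D)
    (hcB : Nat.Coprime B D) (hab : a ≡ b [MOD D])
    (hrel : a ^ q * B ≡ b ^ q * A [MOD D ^ Y])
    (h1 : 141 * ν ≤ g * q) (h2 : q * g ≤ 2 ^ (g / 4) * ν) (hY : 20000 * h * ν ≤ Y * g ^ 2) :
    a = b := by
  by_contra hne
  have hD2 : 2 ≤ D := le_trans (le_trans (by norm_num) (Nat.pow_le_pow_right (by norm_num) hg :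
    2 ^ 8 ≤ 2 ^ g)) hD
  have hq0 : 0 < q := by
    by_contra hc
    have : q = 0 := by omega
    rw [this, mul_zero] at h1
    omega
  obtain ⟨L, hL⟩ : ∃ L, L = 8 := ⟨_, rfl⟩
  obtain ⟨R₂, hR₂⟩ : ∃ R₂, R₂ = 140 * ν / g + 1 := ⟨_, rfl⟩
  obtain ⟨S₂, hS₂⟩ : ∃ S₂, S₂ = 140 * h / g + 1 := ⟨_, rfl⟩
  obtain ⟨R, hR⟩ : ∃ R, R = R₂ + L - 1 := ⟨_, rfl⟩
  obtain ⟨K, hK⟩ : ∃ K, K = 8 * (R * h + S₂ * ν) / g + 1 := ⟨_, rfl⟩
  obtain ⟨n, hn⟩ : ∃ n, n = K * L := ⟨_, rfl⟩
  have hg0 : 0 < g := by omega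
  have hR₂a : g * R₂ ≤ 141 * ν := by
    have : g * (140 * ν / g) ≤ 140 * ν := Nat.mul_div_le _ _
    rw [hR₂, mul_add, mul_one]
    omega
  have hR₂b : 140 * ν < g * R₂ := by
    rw [hR₂]
    exact Nat.lt_mul_div_succ _ hg0
  have hS₂a : g * S₂ ≤ 141 * h := by
    have : g * (140 * h / g) ≤ 140 * h := Nat.mul_div_le _ _
    rw [hS₂, mul_add, mul_one]
    omega
  have hS₂b : 140 * h < g * S₂ := by
    rw [hS₂]
    exact Nat.lt_mul_div_succ _ hg0
  have hKa : g * (K - 1) ≤ 8 * (R * h + S₂ * ν) := by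
    rw [hK, Nat.add_sub_cancel]
    exact Nat.mul_div_le _ _
  have hKb : 8 * (R * h + S₂ * ν) < g * K := by
    rw [hK]
    exact Nat.lt_mul_div_succ _ hg0
  have hK1 : 1 ≤ K := by rw [hK]; exact Nat.le_add_left 1 _
  have hRR : R = R₂ + 7 := by omega
  -- the estimate for `g ^ 2 (K - 1)`
  have hsum : g * (R * h + S₂ * ν) ≤ 289 * (h * ν) := by
    have e1 : g * (R * h + S₂ * ν) = (g * R₂) * h + 7 * (g * h) + (g * S₂) * ν := by
      rw [hRR]; ring
    have e2 : (g * R₂) * h ≤ (141 * ν) * h := Nat.mul_le_mul_right _ hR₂a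
    have e3 : (g * S₂) * ν ≤ (141 * h) * ν := Nat.mul_le_mul_right _ hS₂a
    have e4 : g * h ≤ ν * h := Nat.mul_le_mul_right _ hgν
    have e5 : (141 * ν) * h = 141 * (h * ν) := by ring
    have e6 : (141 * h) * ν = 141 * (h * ν) := by ring
    have e7 : ν * h = h * ν := mul_comm _ _
    rw [e1]
    omega
  have hK2 : g ^ 2 * (K - 1) ≤ 2312 * (h * ν) := by
    calc g ^ 2 * (K - 1) = g * (g * (K - 1)) := by ring
      _ ≤ g * (8 * (R * h + S₂ * ν)) := Nat.mul_le_mul_left _ hKa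
      _ = 8 * (g * (R * h + S₂ * ν)) := by ring
      _ ≤ 8 * (289 * (h * ν)) := Nat.mul_le_mul_left _ hsum
      _ = _ := by ring
  have hRS : 19600 * (h * ν) < g ^ 2 * (R₂ * S₂) := by
    have e1 : (140 * ν) * (140 * h) < (g * R₂) * (g * S₂) :=
      Nat.mul_lt_mul'' hR₂b hS₂b
    have e2 : (140 * ν) * (140 * h) = 19600 * (h * ν) := by ring
    have e3 : (g * R₂) * (g * S₂) = g ^ 2 * (R₂ * S₂) := by ring
    omega
  have hKL : (K - 1) * L < R₂ * S₂ := by
    have e1 : g ^ 2 * ((K - 1) * L) < g ^ 2 * (R₂ * S₂) := by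
      have e2 : g ^ 2 * ((K - 1) * L) = 8 * (g ^ 2 * (K - 1)) := by rw [hL]; ring
      omega
    exact Nat.lt_of_mul_lt_mul_left e1
  have hny : n ≤ Y := by
    have e1 : g ^ 2 ≤ h * ν := by
      rw [pow_two]; exact Nat.mul_le_mul hgh hgν
    have e2 : g ^ 2 * n ≤ g ^ 2 * Y := by
      have e3 : g ^ 2 * n = 8 * (g ^ 2 * (K - 1)) + 8 * g ^ 2 := by
        obtain ⟨K', hK'⟩ : ∃ K', K = K' + 1 := ⟨K - 1, by omega⟩
        rw [hn, hL, hK', Nat.add_sub_cancel]; ring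
      have e4 : 20000 * h * ν = 20000 * (h * ν) := by ring
      have e5 : Y * g ^ 2 = g ^ 2 * Y := by ring
      omega
    exact Nat.le_of_mul_le_mul_left e2 (by positivity)
  have hRq : R₂ ≤ q := by
    have e1 : g * R₂ ≤ g * q := hR₂a.trans h1
    exact Nat.le_of_mul_le_mul_left e1 hg0
  -- the size of `R + S₂ q`
  have hz : (R + S₂ * q) * 3 ≤ K * 2 ^ (g / 4) := by
    have hh0 : 0 < h := by omega
    have e1 : 8 * R ≤ K := by
      have : g * (8 * R) ≤ g * K := by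
        have e3 : g * (8 * R) ≤ 8 * (R * h) := by
          calc g * (8 * R) = 8 * (R * g) := by ring
            _ ≤ 8 * (R * h) := Nat.mul_le_mul_left _ (Nat.mul_le_mul_left _ hgh)
        have e4 : 8 * (R * h + S₂ * ν) = 8 * (R * h) + 8 * (S₂ * ν) := by ring
        omega
      exact Nat.le_of_mul_le_mul_left this hg0
    have e2 : 8 * (S₂ * q) ≤ 2 ^ (g / 4) * K := by
      have : g * (8 * (S₂ * q)) ≤ g * (2 ^ (g / 4) * K) := by
        calc g * (8 * (S₂ * q)) = 8 * (S₂ * (q * g)) := by ring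
          _ ≤ 8 * (S₂ * (2 ^ (g / 4) * ν)) :=
              Nat.mul_le_mul_left _ (Nat.mul_le_mul_left _ h2)
          _ = 2 ^ (g / 4) * (8 * (S₂ * ν)) := by ring
          _ ≤ 2 ^ (g / 4) * (g * K) := by
              apply Nat.mul_le_mul_left
              have e4 : 8 * (R * h + S₂ * ν) = 8 * (R * h) + 8 * (S₂ * ν) := by ring
              omega
          _ = g * (2 ^ (g / 4) * K) := by ring
      exact Nat.le_of_mul_le_mul_left this hg0
    have e3 : K ≤ 2 ^ (g / 4) * K := Nat.le_mul_of_pos_left _ (by positivity)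
    have e4 : K * 2 ^ (g / 4) = 2 ^ (g / 4) * K := mul_comm _ _
    omega
  -- the rational parameters
  have ha' : (0 : ℚ) < a := by exact_mod_cast ha
  have hb' : (0 : ℚ) < b := by exact_mod_cast hb
  have hA' : (0 : ℚ) < A := by exact_mod_cast hA
  have hB' : (0 : ℚ) < B := by exact_mod_cast hB
  obtain ⟨β, hβ⟩ : ∃ β : ℚ, β = (a : ℚ) / b := ⟨_, rfl⟩
  obtain ⟨κ, hκ⟩ : ∃ κ : ℚ, κ = (A : ℚ) / B := ⟨_, rfl⟩
  have hβpos : 0 < β := by rw [hβ]; positivity
  have hκpos : 0 < κ := by rw [hκ]; positivity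
  have hβ1 : β ≠ 1 := by
    intro h1
    rw [hβ, div_eq_one_iff_eq hb'.ne'] at h1
    exact hne (by exact_mod_cast h1)
  let e : Fin K × Fin L ≃ Fin (K * L) := finProdFinEquiv
  let M : Matrix (Fin R × Fin S₂) (Fin (K * L)) ℚ := Matrix.of fun ρ c =>
    (Nat.choose (ρ.1 * 1 + ρ.2 * q) (e.symm c).1 : ℚ) *
      (β ^ (ρ.1 : ℕ) * κ ^ (ρ.2 : ℕ)) ^ ((e.symm c).2 : ℕ)
  have hinj : Function.Injective M.mulVec := by
    have hzero : ∀ d : Fin (K * L) → ℚ, M.mulVec d = 0 → d = 0 := by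
      intro d hd
      have hz := zero_estimate (K := K) (L := L) (i := 1) (q := q) hβpos hβ1 hκpos
        (Nat.coprime_one_left q) hRq hKL
        (fun k l => d (e (k, l))) (by
          intro r s hr hs
          have hr' : r < R := by omega
          have h1 := congrFun hd (⟨r, hr'⟩, ⟨s, hs⟩)
          simp only [Matrix.mulVec, dotProduct, Pi.zero_apply] at h1
          rw [← h1, ← Fintype.sum_prod_type']
          apply Fintype.sum_equiv e
          intro c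
          simp only [M, Matrix.of_apply, Equiv.symm_apply_apply]
          ring)
      funext c
      have h2 := hz (e.symm c).1 (e.symm c).2
      simpa using h2
    intro u v huv
    have h1 : M.mulVec (u - v) = 0 := by
      rw [Matrix.mulVec_sub, huv, sub_self]
    exact sub_eq_zero.mp (hzero _ h1)
  obtain ⟨f, hf⟩ := exists_rows M hinj
  -- the integer matrix
  let N : Matrix (Fin (K * L)) (Fin (K * L)) ℤ := Matrix.of fun ρ c : Fin (K * L) =>
    ((Nat.choose (((f ρ).1 : ℕ) * 1 + ((f ρ).2 : ℕ) * q) ((e.symm c).1 : ℕ) *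
      (a ^ (((f ρ).1 : ℕ) * ((e.symm c).2 : ℕ)) *
        b ^ (((f ρ).1 : ℕ) * (L - 1 - ((e.symm c).2 : ℕ))) *
        A ^ (((f ρ).2 : ℕ) * ((e.symm c).2 : ℕ)) *
        B ^ (((f ρ).2 : ℕ) * (L - 1 - ((e.symm c).2 : ℕ)))) : ℕ) : ℤ)
  have hAB : A ≡ B [MOD D] := by
    have hY1 : 0 < Y := by
      have : 0 < n := by rw [hn]; positivity
      omega
    have hr1 : a ^ q * B ≡ b ^ q * A [MOD D] :=
      hrel.of_dvd (dvd_pow_self _ hY1.ne')
    have hr2 : b ^ q * A ≡ b ^ q * B [MOD D] := hr1.symm.trans ((hab.pow q).mul_right B)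
    exact Nat.ModEq.cancel_left_of_coprime (Nat.Coprime.pow_left q hcb).symm hr2
  have hdvd : (D : ℤ) ^ (n * (n - 1) / 2 - n * K) ∣ N.det := by
    subst hn
    exact det_dvd (n := K * L) (K := K) (L := L) (D := D) (Y := Y) (i := 1) (q := q)
      (b₁ := a) (b₂ := b) (c₁ := A) (c₂ := B) hD2 hca hcb hcA hcB hab hAB hny
      (by rw [pow_one, pow_one]; exact hrel) (Nat.coprime_one_left q) one_pos hq0
      (fun ρ => (f ρ).1) (fun ρ => (f ρ).2) (fun c => (e.symm c).1) (fun c => (e.symm c).2)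
      (fun c => (e.symm c).1.2) (fun c => (e.symm c).2.2)
  have hdet : N.det ≠ 0 := by
    intro h0
    apply hf
    have hrel2 : N.map (Int.cast : ℤ → ℚ) = Matrix.diagonal (fun ρ : Fin (K * L) =>
        (b : ℚ) ^ (((f ρ).1 : ℕ) * (L - 1)) *
          (B : ℚ) ^ (((f ρ).2 : ℕ) * (L - 1))) * M.submatrix f id := by
      ext ρ c
      rw [Matrix.diagonal_mul]
      simp only [N, M, Matrix.map_apply, Matrix.of_apply, Matrix.submatrix_apply, id]
      push_cast
      have hl := (e.symm c).2.2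
      obtain ⟨t, ht⟩ : ∃ t, L - 1 = ((e.symm c).2 : ℕ) + t := ⟨L - 1 - (e.symm c).2, by omega⟩
      have ht2 : L - 1 - ((e.symm c).2 : ℕ) = t := by omega
      rw [ht2, ht, hβ, hκ, div_pow, div_pow, mul_pow, div_pow, div_pow]
      have hbne : (b : ℚ) ≠ 0 := by positivity
      have hBne : (B : ℚ) ≠ 0 := by positivity
      rw [mul_add, pow_add, mul_add, pow_add, pow_mul _ _ ((e.symm c).2 : ℕ),
        pow_mul _ ((f ρ).1 : ℕ) ((e.symm c).2 : ℕ), pow_mul _ ((f ρ).2 : ℕ) ((e.symm c).2 : ℕ),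
        pow_mul (B : ℚ) ((f ρ).2 : ℕ) ((e.symm c).2 : ℕ)]
      field_simp
    have h1 : ((N.det : ℤ) : ℚ) = (N.map (Int.cast : ℤ → ℚ)).det := by
      have := RingHom.map_det (Int.castRingHom ℚ) N
      simpa using this
    rw [hrel2, Matrix.det_mul, Matrix.det_diagonal, h0, Int.cast_zero] at h1
    rcases mul_eq_zero.mp h1.symm with h2 | h2
    · exfalso
      rw [Finset.prod_eq_zero_iff] at h2
      obtain ⟨ρ, _, hρ⟩ := h2
      have : (b : ℚ) ^ (((f ρ).1 : ℕ) * (L - 1)) *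
          (B : ℚ) ^ (((f ρ).2 : ℕ) * (L - 1)) ≠ 0 := by positivity
      exact this hρ
    · exact h2
  -- upper bound of the determinant
  have hup : |N.det| ≤ (n.factorial : ℤ) * ((2 : ℤ) ^ (2 * g * K)) ^ n := by
    have h1 := Matrix.det_le (A := N) (abv := AbsoluteValue.abs)
      (x := (2 : ℤ) ^ (2 * g * K)) (by
        intro ρ c
        subst hL
        have h2 := entry_bound (g := g) (h := h) (ν := ν) (q := q) (a := a) (b := b)
          (A := A) (B := B) (R := R) (S := S₂) (K := K) (r := (f ρ).1)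
          (s := (f ρ).2) (k := (e.symm c).1) (l := (e.symm c).2) hg hah hbh hAν hBν hz
          hKb.le (f ρ).1.2 (f ρ).2.2 (e.symm c).1.2 (e.symm c).2.2
        simp only [N]
        rw [Matrix.of_apply, AbsoluteValue.abs_apply, Nat.abs_cast]
        exact_mod_cast h2)
    rw [AbsoluteValue.abs_apply, Fintype.card_fin, nsmul_eq_mul] at h1
    rw [hn]
    exact h1
  have hlow : (D : ℤ) ^ (n * (n - 1) / 2 - n * K) ≤ |N.det| := by
    apply Int.le_of_dvd (abs_pos.mpr hdet)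
    exact (dvd_abs _ _).mpr hdvd
  have hn8 : n = 8 * K := by rw [hn, hL]; ring
  have hexp : n * (n - 1) / 2 - n * K = 24 * K ^ 2 - 4 * K := by
    have e1 : n * (n - 1) = 2 * (32 * K ^ 2 - 4 * K) := by
      rw [hn8]
      have hKK : K ≤ K ^ 2 := Nat.le_self_pow (by norm_num) K
      zify [show 1 ≤ 8 * K by omega, show 4 * K ≤ 32 * K ^ 2 by omega]
      ring
    rw [e1, Nat.mul_div_cancel_left _ (by norm_num), hn8]
    have e2 : 8 * K * K = 8 * K ^ 2 := by ring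
    rw [e2]
    omega
  have hnle : n ≤ 2 ^ (3 + K) := by
    rw [hn8, pow_add]
    exact Nat.mul_le_mul (by norm_num) (Nat.lt_two_pow_self).le
  have hchain : (2 : ℤ) ^ (g * (24 * K ^ 2 - 4 * K)) ≤ 2 ^ ((3 + K + 2 * g * K) * (8 * K)) := by
    calc (2 : ℤ) ^ (g * (24 * K ^ 2 - 4 * K)) = ((2 : ℤ) ^ g) ^ (24 * K ^ 2 - 4 * K) := by
          rw [pow_mul]
      _ ≤ (D : ℤ) ^ (24 * K ^ 2 - 4 * K) := by
          apply pow_le_pow_left₀ (by positivity)
          exact_mod_cast hD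
      _ ≤ |N.det| := by rw [← hexp]; exact hlow
      _ ≤ (n.factorial : ℤ) * ((2 : ℤ) ^ (2 * g * K)) ^ n := hup
      _ ≤ (n : ℤ) ^ n * ((2 : ℤ) ^ (2 * g * K)) ^ n := by
          apply mul_le_mul_of_nonneg_right _ (by positivity)
          exact_mod_cast Nat.factorial_le_pow n
      _ ≤ ((2 : ℤ) ^ (3 + K)) ^ n * ((2 : ℤ) ^ (2 * g * K)) ^ n := by
          apply mul_le_mul_of_nonneg_right _ (by positivity)
          apply pow_le_pow_left₀ (by positivity)
          exact_mod_cast hnle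
      _ = 2 ^ ((3 + K + 2 * g * K) * (8 * K)) := by
          rw [← mul_pow, ← pow_add, ← pow_mul, hn8]
  have hcontra := (pow_le_pow_iff_right₀ (by norm_num : (1 : ℤ) < 2)).mp hchain
  -- arithmetic
  have hK9 : 9 ≤ K := by
    have e1 : 8 * (R * h) < g * K := by
      have e4 : 8 * (R * h + S₂ * ν) = 8 * (R * h) + 8 * (S₂ * ν) := by ring
      omega
    have e2 : g * (8 * R) < g * K := by
      refine lt_of_le_of_lt ?_ e1
      calc g * (8 * R) = 8 * (R * g) := by ring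
        _ ≤ 8 * (R * h) := Nat.mul_le_mul_left _ (Nat.mul_le_mul_left _ hgh)
    have e3 := Nat.lt_of_mul_lt_mul_left e2
    omega
  have hsub : 4 * K ≤ 24 * K ^ 2 := by
    have : K ≤ K ^ 2 := Nat.le_self_pow (by norm_num) K
    omega
  have hcz : ((g * (24 * K ^ 2 - 4 * K) : ℕ) : ℤ) ≤ (((3 + K + 2 * g * K) * (8 * K) : ℕ) : ℤ) := by
    exact_mod_cast hcontra
  rw [Nat.cast_mul, Nat.cast_sub hsub] at hcz
  push_cast at hcz
  exact final_arith (by exact_mod_cast hg) (by exact_mod_cast hK9) hcz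

/-- two numbers close to `1` modulo `D`: both are `1` -/
theorem core {D g h ν q Y a b A B : ℕ} (hD : 2 ^ g ≤ D) (hg : 8 ≤ g) (hgh : g ≤ h)
    (hgν : g ≤ ν) (ha : 0 < a) (hb : 0 < b) (hA : 0 < A) (hB : 0 < B)
    (hah : a < 2 ^ h) (hbh : b < 2 ^ h) (hAν : A < 2 ^ ν) (hBν : B < 2 ^ ν)
    (hca : Nat.Coprime a D) (hcb : Nat.Coprime b D) (hcA : Nat.Coprime A D)
    (hcB : Nat.Coprime B D) (hab : a ≡ b [MOD D])
    (hrel : a ^ q * B ≡ b ^ q * A [MOD D ^ Y])
    (h1 : 141 * ν ≤ g * q) (h2 : q * g ≤ 2 ^ (g / 4) * ν) (hY : 20000 * h * ν ≤ Y * g ^ 2) :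
    a = b ∧ A = B := by
  have h3 := core_ne hD hg hgh hgν ha hb hA hB hah hbh hAν hBν hca hcb hcA hcB hab hrel h1 h2 hY
  refine ⟨h3, ?_⟩
  subst h3
  have h4 : B ≡ A [MOD D ^ Y] := Nat.ModEq.cancel_left_of_coprime
    (((Nat.Coprime.pow_left q hca).pow_right Y).symm) hrel
  have h5 : ν ≤ g * Y := by
    have e1 : g * ν * 1 ≤ g * (g * Y) := by
      calc g * ν * 1 ≤ h * ν * 20000 :=
            Nat.mul_le_mul (Nat.mul_le_mul_right _ hgh) (by norm_num)
        _ = 20000 * h * ν := by ring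
        _ ≤ Y * g ^ 2 := hY
        _ = g * (g * Y) := by ring
    rw [mul_one] at e1
    exact Nat.le_of_mul_le_mul_left e1 (by omega)
  have h6 : 2 ^ ν ≤ D ^ Y := by
    calc 2 ^ ν ≤ 2 ^ (g * Y) := Nat.pow_le_pow_right (by norm_num) h5
      _ = (2 ^ g) ^ Y := pow_mul _ _ _
      _ ≤ D ^ Y := Nat.pow_le_pow_left hD _
  exact (Nat.ModEq.eq_of_lt_of_lt h4 (by omega) (by omega)).symm

end Pool.Agent.Y911.AA
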